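import Pool.Agent.U443.GL.Out
import Pool.Agent.U126.NC.Gen
import Pool.Agent.TH546.SG.Inst2

/-!
# The square lattice
-/

set_option autoImplicit false

namespace U443.GL

open Finset MeasureTheory Filter Topology U443.LG U443.OS
open scoped Classical ENNReal
open Pool.Agent.W840.CT (LS LS_finite far adj SW cn cn_eq mu_pow_le_cn)
open Pool.Agent.U126.NC (nr VV DD)
open Pool.Agent.U372.HX (cl)

noncomputable section

/-- nearest neighbours in `ℤ²` -/
def Adj2 (p q : ℤ × ℤ) : Prop := |q.1 - p.1| + |q.2 - p.2| = 1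

/-- the four neighbours -/
def nb2 (p : ℤ × ℤ) : Finset (ℤ × ℤ) :=
  {(p.1 + 1, p.2), (p.1 - 1, p.2), (p.1, p.2 + 1), (p.1, p.2 - 1)}

theorem mem_nb2 (p q : ℤ × ℤ) : q ∈ nb2 p ↔ Adj2 p q := by
  obtain ⟨a, b⟩ := p
  obtain ⟨x, y⟩ := q
  unfold nb2 Adj2
  simp only [Finset.mem_insert, Finset.mem_singleton, Prod.mk.injEq]
  constructor
  · rintro (⟨rfl, rfl⟩ | ⟨rfl, rfl⟩ | ⟨rfl, rfl⟩ | ⟨rfl, rfl⟩) <;> simp
  · intro h
    have h1 := abs_nonneg (x - a)
    have h2 := abs_nonneg (y - b)
    rcases (show |x - a| = 0 ∨ |y - b| = 0 by omega) with h3 | h3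
    · have h4 : |y - b| = 1 := by omega
      rw [abs_eq_zero] at h3
      rw [abs_eq (by norm_num)] at h4
      omega
    · have h4 : |x - a| = 1 := by omega
      rw [abs_eq_zero] at h3
      rw [abs_eq (by norm_num)] at h4
      omega

/-- the square lattice, all translations -/
def sqG : Geo (ℤ × ℤ) where
  Adj := Adj2
  T := ⊤
  symm := by
    intro a b h
    unfold Adj2 at *
    rw [abs_sub_comm a.1, abs_sub_comm a.2]
    exact h
  irr := by
    intro a h
    unfold Adj2 at h
    simp at h
  shift := by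
    intro g _ a b h
    unfold Adj2 at *
    simp only [Prod.fst_add, Prod.snd_add]
    rw [show g.1 + b.1 - (g.1 + a.1) = b.1 - a.1 by ring,
      show g.2 + b.2 - (g.2 + a.2) = b.2 - a.2 by ring]
    exact h
  nb := nb2
  mem_nb := mem_nb2
  half := fun _ _ _ => Or.inl trivial

theorem adj_eq (p q : ℤ × ℤ) : adj p q ↔ sqG.Adj p q := Iff.rfl

theorem WL_LS (n : ℕ) : ((WL sqG n : Finset (List (ℤ × ℤ))) : Set (List (ℤ × ℤ))) = LS n := by
  ext l
  rw [Finset.mem_coe, mem_WL]
  constructor
  · rintro ⟨⟨h1, h2, h3⟩, h4⟩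
    exact ⟨h4, h1, h3, h2⟩
  · rintro ⟨h1, h2, h3, h4⟩
    exact ⟨⟨h2, h4, h3⟩, h1⟩

theorem WL_LS_card (n : ℕ) : (LS n).ncard = (WL sqG n).card := by
  rw [← WL_LS, Set.ncard_coe_finset]

theorem cn_WL (n : ℕ) : cn n = (WL sqG n).card := by
  rw [WL_ncard]
  have e : {f : Fin (n + 1) → ℤ × ℤ | f 0 = 0 ∧ Function.Injective f ∧
      ∀ i : Fin n, sqG.Adj (f i.castSucc) (f i.succ)} = {f | SW n f} := by
    ext f
    constructor
    · rintro ⟨h1, h2, h3⟩
      exact ⟨h1, h3, h2⟩
    · rintro ⟨h1, h2, h3⟩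
      exact ⟨h1, h3, h2⟩
  rw [e, ← Nat.card_coe_set_eq]
  rfl

/-- paths of length `k` -/
theorem within_nr {k : ℕ} {x y : ℤ × ℤ} (h : Within sqG k x y) :
    |y.1 - x.1| + |y.2 - x.2| ≤ (k : ℤ) := by
  obtain ⟨p, h1, h2, h3, h4⟩ := h
  induction k generalizing p y with
  | zero =>
    rcases p with - | ⟨a, p⟩
    · simp at h1
    rcases p with - | ⟨b, p⟩
    · simp only [List.head?_cons, Option.some.injEq, List.getLast?_singleton] at h1 h2
      rw [← h2, h1]
      simp
    · simp at h4
  | succ k ih =>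
    by_cases h5 : p.length ≤ k + 1
    · have := ih p h1 h2 h3 h5
      push_cast
      omega
    · rcases List.eq_nil_or_concat p with rfl | ⟨q, b, rfl⟩
      · simp at h1
      rw [List.concat_eq_append] at h1 h2 h3 h4 h5
      rw [List.getLast?_append] at h2
      simp only [List.getLast?_singleton, Option.some_or, Option.some.injEq] at h2
      subst h2
      rcases List.eq_nil_or_concat q with rfl | ⟨q', a, rfl⟩
      · simp at h5
      rw [List.concat_eq_append] at h1 h3 h4 h5
      have h6 := List.isChain_append.1 h3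
      have h7 : Adj2 a b := h6.2.2 a (by simp) b (by simp)
      have h8 : |a.1 - x.1| + |a.2 - x.2| ≤ (k : ℤ) := by
        refine ih (y := a) (q' ++ [a]) ?_ ?_ h6.1 ?_
        · rw [List.head?_append] at h1
          have : (q' ++ [a]).head? ≠ none := by simp
          rcases h8 : (q' ++ [a]).head? with - | z
          · exact absurd h8 this
          · rw [h8] at h1
            simpa using h1
        · simp
        · simp only [List.length_append, List.length_cons, List.length_nil] at h4 ⊢
          omega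
      unfold Adj2 at h7
      have t1 : |b.1 - x.1| ≤ |b.1 - a.1| + |a.1 - x.1| := by
        rw [show b.1 - x.1 = (b.1 - a.1) + (a.1 - x.1) by ring]
        exact abs_add_le _ _
      have t2 : |b.2 - x.2| ≤ |b.2 - a.2| + |a.2 - x.2| := by
        rw [show b.2 - x.2 = (b.2 - a.2) + (a.2 - x.2) by ring]
        exact abs_add_le _ _
      push_cast
      omega

theorem DD_le (k : ℕ) : DD k * (k + 7) ≤ 1000000000 ^ (k + 1) := by
  unfold DD
  have h : ∀ k : ℕ, k + 7 ≤ 7 * 2 ^ k := by
    intro k
    induction k with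
    | zero => norm_num
    | succ k ih => rw [pow_succ]; omega
  calc 2 * 2000000 ^ k * (k + 7) ≤ 2 * 2000000 ^ k * (7 * 2 ^ k) := Nat.mul_le_mul_left _ (h k)
    _ = 14 * 4000000 ^ k := by
        rw [show (4000000 : ℕ) = 2000000 * 2 by norm_num, mul_pow]
        ring
    _ ≤ 1000000000 * 1000000000 ^ k := Nat.mul_le_mul (by norm_num) (Nat.pow_le_pow_left (by norm_num) k)
    _ = _ := by rw [pow_succ]; ring

theorem WV_le2 (v : ℤ × ℤ) (n : ℕ) : (WV sqG v n).card ≤ (WL sqG n).card := by
  refine Finset.card_le_card_of_injOn (fun l => l.map (-v + ·)) ?_ ?_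
  · intro l hl
    rw [Finset.mem_coe, mem_WV] at hl
    rw [Finset.mem_coe, mem_WL]
    refine ⟨?_, by rw [List.length_map]; exact hl.2⟩
    have := walk_map sqG (show -v ∈ sqG.T from trivial) hl.1
    rwa [neg_add_cancel] at this
  · intro l _ l' _ h
    exact List.map_injective_iff.2 (add_right_injective (-v)) h

theorem card_nb2 (v : ℤ × ℤ) : (sqG.nb v).card ≤ 4 := Finset.card_le_four

theorem WL_succ (M : ℕ) : (WL sqG (M + 1)).card ≤ 4 * (WL sqG M).card := by
  have h1 : (WL sqG (M + 1)).card ≤ (co sqG [0] (M + 1)).ncard := by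
    rw [← Set.ncard_coe_finset]
    refine Set.ncard_le_ncard_of_injOn List.tail ?_ ?_ (co_finite (by simp) _)
    · intro l hl
      rw [Finset.mem_coe] at hl
      obtain ⟨q, rfl, h⟩ := mem_co hl
      exact h
    · intro l hl l' hl' h
      rw [Finset.mem_coe] at hl hl'
      obtain ⟨q, rfl, -⟩ := mem_co hl
      obtain ⟨q', rfl, -⟩ := mem_co hl'
      simp only [List.tail_cons] at h
      rw [h]
  refine h1.trans ((Set.ncard_le_ncard (co_sub (G := sqG) (s := [0]) (by simp) M)
    (Finset.finite_toSet _)).trans ?_)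
  rw [Set.ncard_coe_finset]
  refine (Finset.card_biUnion_le_card_mul _ _ (WL sqG M).card fun v _ => WV_le2 v M).trans ?_
  exact Nat.mul_le_mul_right _ (card_nb2 _)

/-- **few blocks come close to the past** -/
theorem block2 (s : List (ℤ × ℤ)) (M k r : ℕ) (hs : s ≠ []) :
    4 ^ r * Set.ncard {β | β ∈ co sqG s (M + 1) ∧
      1000000000 ^ (k + 1) * (r + 1) ≤ nC sqG k s β} ≤ 1000000000 * (WL sqG M).card := by
  by_cases hsc : s.IsChain sqG.Adj
  swap
  · have h0 : {β | β ∈ co sqG s (M + 1) ∧
      1000000000 ^ (k + 1) * (r + 1) ≤ nC sqG k s β} = ∅ := by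
      ext β
      simp only [Set.mem_setOf_eq, Set.mem_empty_iff_false, iff_false]
      rintro ⟨⟨-, -, h⟩, -⟩
      exact hsc (List.isChain_append.1 h).1
    rw [h0]
    simp
  obtain ⟨p, hp⟩ : ∃ p, p = s.getLast hs := ⟨_, rfl⟩
  obtain ⟨A, hA⟩ : ∃ A : Set (ℤ × ℤ), A = {x | x + p ∈ s} := ⟨_, rfl⟩
  have hA1 : ∀ u ∈ A, far u → ∃ u' ∈ A, adj u u' := by
    intro u hu hf
    rw [hA] at hu
    obtain ⟨i, hi, hui⟩ := List.mem_iff_getElem.1 (show u + p ∈ s from hu)
    have hi1 : i + 1 < s.length := by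
      by_contra hcon
      have h1 : i = s.length - 1 := by omega
      subst h1
      rw [← List.getLast_eq_getElem hs, ← hp] at hui
      have h2 : u = 0 := by
        have := hui.symm
        rwa [add_eq_right] at this
      rw [h2] at hf
      rcases hf with h | h <;> simp at h
    refine ⟨s[i + 1] - p, ?_, ?_⟩
    · rw [hA]
      show s[i + 1] - p + p ∈ s
      rw [sub_add_cancel]
      exact List.getElem_mem _
    · have h1 : Adj2 s[i] s[i + 1] := List.isChain_iff_getElem.1 hsc i hi1
      rw [hui] at h1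
      show |(s[i + 1] - p).1 - u.1| + |(s[i + 1] - p).2 - u.2| = 1
      unfold Adj2 at h1
      simp only [Prod.fst_add, Prod.snd_add, Prod.fst_sub, Prod.snd_sub] at h1 ⊢
      rw [show s[i + 1].1 - p.1 - u.1 = s[i + 1].1 - (u.1 + p.1) by ring,
        show s[i + 1].2 - p.2 - u.2 = s[i + 1].2 - (u.2 + p.2) by ring]
      exact h1
  have hmain := Pool.Agent.U126.NC.main' A hA1 (M + 1) k r
  rw [WL_LS_card] at hmain
  have hle : Set.ncard {β | β ∈ co sqG s (M + 1) ∧
      1000000000 ^ (k + 1) * (r + 1) ≤ nC sqG k s β} ≤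
      ({Q | Q ∈ LS (M + 1) ∧ (∀ v ∈ Q, v ∈ A → v = 0) ∧
      DD k * (k + 7) * (r + 1) ≤ (VV A k Q).card} : Set (List (ℤ × ℤ))).ncard := by
    refine Set.ncard_le_ncard_of_injOn (fun β => (p :: β).map (-p + ·)) ?_ ?_
      ((LS_finite _).subset fun Q hQ => hQ.1)
    · rintro β ⟨⟨h1, h2, h3⟩, h4⟩
      have h5 := List.nodup_append.1 h2
      have h6 := List.isChain_append.1 h3
      have hps : p ∈ s := by rw [hp]; exact List.getLast_mem hs
      have hpβ : p ∉ β := fun h => h5.2.2 p hps p h rfl
      have hw : Walk sqG.Adj p (p :: β) := by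
        refine ⟨rfl, List.nodup_cons.2 ⟨hpβ, h5.2.1⟩, ?_⟩
        rcases β with - | ⟨b, β⟩
        · simp
        · rw [List.isChain_cons_cons]
          refine ⟨h6.2.2 p ?_ b (by simp), h6.2.1⟩
          rw [List.getLast?_eq_getLast_of_ne_nil hs, hp]
          simp
      have hw2 := walk_map sqG (show -p ∈ sqG.T from trivial) hw
      rw [neg_add_cancel] at hw2
      refine ⟨⟨by simp [h1], hw2.1, hw2.2.2, hw2.2.1⟩, ?_, ?_⟩
      · intro v hv hvA
        rw [List.mem_map] at hv
        obtain ⟨b, hb, rfl⟩ := hv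
        rw [hA] at hvA
        have h7 : b ∈ s := by
          have : -p + b + p ∈ s := hvA
          rwa [show -p + b + p = b by abel] at this
        rcases List.mem_cons.1 hb with rfl | hb
        · abel
        · exact absurd rfl (h5.2.2 b h7 b hb)
      · have h8 : nC sqG k s β ≤ (VV A k ((p :: β).map (-p + ·))).card := by
          unfold nC
          refine Finset.card_le_card_of_injOn (fun v => -p + v) ?_ ?_
          · intro v hv
            rw [Finset.mem_coe, Finset.mem_filter, List.mem_toFinset] at hv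
            obtain ⟨hv1, u, hu, hv2⟩ := hv
            unfold VV
            rw [Finset.mem_coe, Finset.mem_filter, List.mem_toFinset, List.mem_map]
            refine ⟨⟨v, by simp [hv1], rfl⟩, -p + u, ?_, ?_⟩
            · rw [hA]
              show -p + u + p ∈ s
              rwa [show -p + u + p = u by abel]
            · unfold nr
              have := within_nr hv2
              simp only [Prod.fst_add, Prod.snd_add, Prod.fst_neg, Prod.snd_neg]
              rw [show -p.1 + v.1 - (-p.1 + u.1) = v.1 - u.1 by ring,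
                show -p.2 + v.2 - (-p.2 + u.2) = v.2 - u.2 by ring]
              exact this
          · intro v _ v' _ h
            simpa using h
        exact (Nat.mul_le_mul_right _ (DD_le k)).trans (h4.trans h8)
    · intro β _ β' _ h
      have h1 := List.map_injective_iff.2 (add_right_injective (-p)) h
      simpa using h1
  refine (Nat.mul_le_mul_left _ hle).trans (hmain.trans ((WL_succ M).trans ?_))
  exact Nat.mul_le_mul_right _ (by norm_num)

theorem lat2 : Lat sqG H981.mu 1000000000 where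
  one := H981.one_le_mu
  low := by
    intro n
    rw [← cn_WL]
    exact mu_pow_le_cn n
  up := by
    obtain ⟨K, hK, h⟩ := Pool.Agent.TH546.SG.CU2
    refine ⟨K, hK, fun n hn => ?_⟩
    rw [← cn_WL]
    exact h n hn n le_rfl
  pos := by norm_num
  deg := fun v => (card_nb2 v).trans (by norm_num)
  all := WV_le2
  loc := by
    intro k x y h
    have h1 := within_nr h
    have h2 := abs_nonneg (y.1 - x.1)
    have h3 := abs_nonneg (y.2 - x.2)
    unfold cl
    rw [abs_sub_comm x.1, abs_sub_comm x.2]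
    omega
  block := fun s M k r hs => block2 s M k r hs

theorem z2_tendsto : Tendsto (fun n : ℕ => ((WL sqG n).card : ℝ) ^ (1 / (n : ℝ))) atTop
    (𝓝 H981.mu) := by
  have h : Tendsto (fun n : ℕ => H981.cr' n ^ (1 / (n : ℝ))) atTop (𝓝 H981.mu) :=
    H981.tendsto_root
  refine h.congr fun n => ?_
  rw [← cn_WL, cn_eq]

end

end U443.GL
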