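import Pool.Agent.U443.OS.Sep

/-!
# Lattices on which few blocks of a walk come close to the past: exponential moments
-/

set_option autoImplicit false

namespace U443.GL

open scoped ENNReal Classical
open Filter Topology U443.LG U443.OS
open Pool.Agent.U372.HX (tot tot_mono tot_one tot_iUnion bx bx_card mem_bx cl)

noncomputable section

/-- number of the vertices of `β` within distance `k` of `s` -/
def nC (G : Geo (ℤ × ℤ)) (k : ℕ) (s β : List (ℤ × ℤ)) : ℕ :=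
  (β.toFinset.filter (fun v => ∃ u ∈ s, Within G k u v)).card

/-- the continuations with `L` vertices of the walk `s` -/
def co (G : Geo (ℤ × ℤ)) (s : List (ℤ × ℤ)) (L : ℕ) : Set (List (ℤ × ℤ)) :=
  {l | l.length = L ∧ (s ++ l).Nodup ∧ (s ++ l).IsChain G.Adj}

/-- the hypotheses on the lattice: bounds for the number of the walks, and exponential bounds for
the number of the blocks which come close to the past -/
structure Lat (G : Geo (ℤ × ℤ)) (μ : ℝ) (B : ℕ) : Prop where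
  one : 1 ≤ μ
  low : ∀ n : ℕ, μ ^ n ≤ ((WL G n).card : ℝ)
  up : ∃ K : ℝ, 0 ≤ K ∧ ∀ n : ℕ, 2 ≤ n →
    ((WL G n).card : ℝ) ≤ μ ^ n * Real.exp (K * Real.log n ^ 2)
  pos : 1 ≤ B
  deg : ∀ v, (G.nb v).card ≤ B
  all : ∀ v n, (WV G v n).card ≤ (WL G n).card
  loc : ∀ (k : ℕ) (x y : ℤ × ℤ), Within G k x y → cl k x y
  block : ∀ (s : List (ℤ × ℤ)) (M k r : ℕ), s ≠ [] →
    4 ^ r * Set.ncard {β | β ∈ co G s (M + 1) ∧ B ^ (k + 1) * (r + 1) ≤ nC G k s β} ≤
      B * (WL G M).card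

variable {G : Geo (ℤ × ℤ)} {μ : ℝ} {B : ℕ}

/-- the level of a block `β` after the past `s` -/
def lv (G : Geo (ℤ × ℤ)) (B k : ℕ) (s β : List (ℤ × ℤ)) : ℕ := nC G k s β / B ^ (k + 1)

theorem nC_le_lv (hG : Lat G μ B) (k : ℕ) (s β : List (ℤ × ℤ)) :
    nC G k s β ≤ B ^ (k + 1) * (lv G B k s β + 1) := by
  unfold lv
  have hB : 0 < B ^ (k + 1) := pow_pos hG.pos _
  exact (Nat.lt_mul_div_succ (nC G k s β) hB).le

theorem of_lv {k : ℕ} {s β : List (ℤ × ℤ)} {b : ℕ} (h : b + 1 ≤ lv G B k s β) :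
    B ^ (k + 1) * (b + 1) ≤ nC G k s β := by
  unfold lv at h
  calc B ^ (k + 1) * (b + 1) ≤ B ^ (k + 1) * (nC G k s β / B ^ (k + 1)) :=
        Nat.mul_le_mul_left _ h
    _ ≤ _ := Nat.mul_div_le _ _

theorem WV_le (hG : Lat G μ B) (v : ℤ × ℤ) (n : ℕ) : (WV G v n).card ≤ (WL G n).card := hG.all v n

theorem co_sub {s : List (ℤ × ℤ)} (hs : s ≠ []) (M : ℕ) :
    co G s (M + 1) ⊆ (((G.nb (s.getLast hs)).biUnion (fun v => WV G v M) :
      Finset (List (ℤ × ℤ))) : Set (List (ℤ × ℤ))) := by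
  rintro β ⟨h1, h2, h3⟩
  rcases β with - | ⟨v, r⟩
  · simp at h1
  have h5 := List.nodup_append.1 h2
  have h6 := List.isChain_append.1 h3
  rw [Finset.mem_coe, Finset.mem_biUnion]
  refine ⟨v, ?_, ?_⟩
  · rw [G.mem_nb]
    exact h6.2.2 (s.getLast hs) (by rw [List.getLast?_eq_getLast_of_ne_nil hs]; simp) v (by simp)
  · rw [mem_WV]
    exact ⟨⟨rfl, h5.2.1, h6.2.1⟩, h1⟩

theorem co_finite {s : List (ℤ × ℤ)} (hs : s ≠ []) (L : ℕ) : (co G s L).Finite := by
  cases L with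
  | zero =>
    refine (Set.finite_singleton []).subset ?_
    rintro l ⟨h, -⟩
    rw [Set.mem_singleton_iff]
    exact List.length_eq_zero_iff.1 h
  | succ L => exact (Finset.finite_toSet _).subset (co_sub hs L)

theorem co_ncard (hG : Lat G μ B) {s : List (ℤ × ℤ)} (hs : s ≠ []) (M : ℕ) :
    (co G s (M + 1)).ncard ≤ B * (WL G M).card := by
  refine (Set.ncard_le_ncard (co_sub hs M) (Finset.finite_toSet _)).trans ?_
  rw [Set.ncard_coe_finset]
  refine (Finset.card_biUnion_le_card_mul _ _ (WL G M).card fun v _ => WV_le hG v M).trans ?_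
  exact Nat.mul_le_mul_right _ (hG.deg _)

theorem two_pow_le (a : ℕ) : (2 : ℝ≥0∞) ^ a ≤ 1 + ∑' b : ℕ, if b + 1 ≤ a then (2 : ℝ≥0∞) ^ b else 0 :=
  U443.OS.two_pow_le a

/-- exponential moment of the level of a block -/
theorem moment_one (hG : Lat G μ B) {s : List (ℤ × ℤ)} (hs : s ≠ []) (M : ℕ) (k : ℕ) :
    tot (fun l => 2 ^ lv G B k s l) (co G s (M + 1)) ≤ (3 * (B * (WL G M).card) : ℕ) := by
  obtain ⟨F, hF⟩ : ∃ F : Set (List (ℤ × ℤ)), F = co G s (M + 1) := ⟨_, rfl⟩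
  have hfin : F.Finite := by rw [hF]; exact co_finite hs _
  have hcard : F.ncard ≤ B * (WL G M).card := by rw [hF]; exact co_ncard hG hs M
  rw [← hF]
  have h1 : tot (fun l => 2 ^ lv G B k s l) F ≤ tot (fun _ => 1) F +
      ∑' b : ℕ, (2 : ℝ≥0∞) ^ b * tot (fun _ => 1) {l | l ∈ F ∧ b + 1 ≤ lv G B k s l} := by
    unfold tot
    simp only [← ENNReal.tsum_mul_left]
    rw [ENNReal.tsum_comm, ← ENNReal.tsum_add]
    refine ENNReal.tsum_le_tsum fun l => ?_
    by_cases hl : l ∈ F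
    · rw [Set.indicator_of_mem hl, Set.indicator_of_mem hl]
      refine (two_pow_le _).trans (add_le_add le_rfl (ENNReal.tsum_le_tsum fun b => ?_))
      split_ifs with hb
      · rw [Set.indicator_of_mem (show l ∈ {l | l ∈ F ∧ b + 1 ≤ lv G B k s l} from ⟨hl, hb⟩),
          mul_one]
      · exact zero_le
    · rw [Set.indicator_of_notMem hl]
      exact zero_le
  refine h1.trans ?_
  obtain ⟨c, hc⟩ : ∃ c : ℕ, c = B * (WL G M).card := ⟨_, rfl⟩
  rw [← hc] at hcard ⊢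
  have e3 : ((3 * c : ℕ) : ℝ≥0∞) = (c : ℝ≥0∞) + 2 * c := by push_cast; ring
  rw [e3]
  refine add_le_add ?_ ?_
  · rw [tot_one F hfin]
    exact_mod_cast hcard
  · have h3 : ∀ b : ℕ, (2 : ℝ≥0∞) ^ b * tot (fun _ => 1) {l | l ∈ F ∧ b + 1 ≤ lv G B k s l} ≤
        (2⁻¹ : ℝ≥0∞) ^ b * c := by
      intro b
      have hf2 : {l | l ∈ F ∧ b + 1 ≤ lv G B k s l}.Finite := hfin.subset fun l hl => hl.1
      rw [tot_one _ hf2]
      have h4 : 4 ^ b * ({l | l ∈ F ∧ b + 1 ≤ lv G B k s l} : Set (List (ℤ × ℤ))).ncard ≤ c := by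
        rw [hc]
        refine le_trans (Nat.mul_le_mul_left _ (Set.ncard_le_ncard ?_ ?_)) (hG.block s M k b hs)
        · rintro l ⟨h5, h6⟩
          rw [hF] at h5
          exact ⟨h5, of_lv h6⟩
        · exact (co_finite hs _).subset fun l hl => hl.1
      have h5 : (4 : ℝ≥0∞) ^ b *
          ((({l | l ∈ F ∧ b + 1 ≤ lv G B k s l} : Set (List (ℤ × ℤ))).ncard : ℕ) : ℝ≥0∞) ≤ c := by
        exact_mod_cast h4
      have e4 : (4 : ℝ≥0∞) ^ b = 2 ^ b * 2 ^ b := by rw [← mul_pow]; norm_num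
      have e5 : (2⁻¹ : ℝ≥0∞) ^ b * 2 ^ b = 1 := by
        rw [← mul_pow, ENNReal.inv_mul_cancel (by norm_num) (by norm_num), one_pow]
      obtain ⟨x, hx⟩ : ∃ x : ℝ≥0∞,
        x = ((({l | l ∈ F ∧ b + 1 ≤ lv G B k s l} : Set (List (ℤ × ℤ))).ncard : ℕ) : ℝ≥0∞) := ⟨_, rfl⟩
      rw [← hx] at h5 ⊢
      rw [e4] at h5
      calc (2 : ℝ≥0∞) ^ b * x = ((2⁻¹ : ℝ≥0∞) ^ b * 2 ^ b) * (2 ^ b * x) := by rw [e5, one_mul]
        _ = (2⁻¹ : ℝ≥0∞) ^ b * (2 ^ b * 2 ^ b * x) := by ring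
        _ ≤ _ := mul_le_mul_right h5 _
    refine (ENNReal.tsum_le_tsum h3).trans ?_
    rw [ENNReal.tsum_mul_right, ENNReal.tsum_geometric, ENNReal.one_sub_inv_two, inv_inv]

theorem co_app {s l : List (ℤ × ℤ)} {M L : ℕ} (h : l ∈ co G s (M + L)) :
    l.take M ∈ co G s M ∧ l.drop M ∈ co G (s ++ l.take M) L := by
  obtain ⟨h1, h2, h3⟩ := h
  have e1 : s ++ l.take M ++ l.drop M = s ++ l := by
    rw [List.append_assoc, List.take_append_drop]
  refine ⟨⟨by rw [List.length_take]; omega, ?_, ?_⟩, ⟨by rw [List.length_drop]; omega, ?_, ?_⟩⟩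
  · rw [← e1] at h2
    exact (List.nodup_append.1 h2).1
  · rw [← e1] at h3
    exact (List.isChain_append.1 h3).1
  · rw [e1]; exact h2
  · rw [e1]; exact h3

/-- the first block is split off -/
theorem split_tot (s : List (ℤ × ℤ)) (M L : ℕ) (a : List (ℤ × ℤ) → ℝ≥0∞)
    (b : List (ℤ × ℤ) → List (ℤ × ℤ) → ℝ≥0∞) (Bd : ℝ≥0∞)
    (hB : ∀ β, tot (b β) (co G (s ++ β) L) ≤ Bd) :
    tot (fun l => a (l.take M) * b (l.take M) (l.drop M)) (co G s (M + L)) ≤
      tot a (co G s M) * Bd := by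
  obtain ⟨g, hg⟩ : ∃ g : List (ℤ × ℤ) × List (ℤ × ℤ) → ℝ≥0∞, g = fun z =>
      (co G s M).indicator a z.1 * (co G (s ++ z.1) L).indicator (b z.1) z.2 := ⟨_, rfl⟩
  have hinj : Function.Injective (fun l : List (ℤ × ℤ) => (l.take M, l.drop M)) := by
    intro l l' h
    simp only [Prod.mk.injEq] at h
    rw [← List.take_append_drop M l, ← List.take_append_drop M l', h.1, h.2]
  have h1 : tot (fun l => a (l.take M) * b (l.take M) (l.drop M)) (co G s (M + L)) ≤
      ∑' l : List (ℤ × ℤ), g (l.take M, l.drop M) := by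
    unfold tot
    refine ENNReal.tsum_le_tsum fun l => ?_
    by_cases hl : l ∈ co G s (M + L)
    · rw [Set.indicator_of_mem hl, hg]
      simp only
      obtain ⟨m1, m2⟩ := co_app hl
      rw [Set.indicator_of_mem m1, Set.indicator_of_mem m2]
    · rw [Set.indicator_of_notMem hl]
      exact zero_le
  refine h1.trans ((ENNReal.tsum_comp_le_tsum_of_injective hinj g).trans ?_)
  rw [ENNReal.tsum_prod']
  unfold tot
  rw [← ENNReal.tsum_mul_right]
  refine ENNReal.tsum_le_tsum fun β => ?_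
  rw [hg]
  simp only
  rw [ENNReal.tsum_mul_left]
  exact mul_le_mul_right (hB β) _

theorem WL_zero (hG : Lat G μ B) : (WL G 0).card ≤ 1 := by
  rw [Finset.card_le_one]
  intro l hl l' hl'
  rw [mem_WL] at hl hl'
  obtain ⟨a, rfl⟩ := List.length_eq_one_iff.1 hl.2
  obtain ⟨a', rfl⟩ := List.length_eq_one_iff.1 hl'.2
  have h3 := hl.1.1
  have h4 := hl'.1.1
  simp only [List.head?_cons, Option.some.injEq] at h3 h4
  rw [h3, h4]

theorem tot_rest (hG : Lat G μ B) (r : ℕ) : ∀ s : List (ℤ × ℤ), s ≠ [] →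
    tot (fun _ => 1) (co G s r) ≤ (B : ℝ≥0∞) ^ r := by
  induction r with
  | zero =>
    intro s _
    have hsub : co G s 0 ⊆ {[]} := by
      rintro l ⟨h, -⟩
      rw [Set.mem_singleton_iff]
      exact List.length_eq_zero_iff.1 h
    refine (tot_mono _ hsub).trans ?_
    rw [tot_one _ (Set.finite_singleton _), Set.ncard_singleton]
    simp
  | succ r ih =>
    intro s hs
    have h1 := split_tot (G := G) s 1 r (fun _ => 1) (fun _ _ => 1) ((B : ℝ≥0∞) ^ r)
      (fun β => ih _ (by simp [hs]))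
    simp only [mul_one] at h1
    rw [add_comm r 1]
    refine h1.trans ?_
    rw [pow_add, pow_one]
    refine mul_le_mul_left ?_ _
    rw [tot_one _ (co_finite hs 1)]
    have h2 := co_ncard hG hs 0
    have h3 := WL_zero hG
    have h4 : (co G s 1).ncard ≤ B := h2.trans (by nlinarith)
    exact_mod_cast h4

/-- sum of the levels of the first `N` blocks with `M` vertices -/
def lvs (G : Geo (ℤ × ℤ)) (B M k : ℕ) : ℕ → List (ℤ × ℤ) → List (ℤ × ℤ) → ℕ
  | 0, _, _ => 0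
  | N + 1, s, l => lv G B k s (l.take M) + lvs G B M k N (s ++ l.take M) (l.drop M)

/-- number of the vertices in the first `N` blocks close to the past of their block -/
def nbs (G : Geo (ℤ × ℤ)) (M k : ℕ) : ℕ → List (ℤ × ℤ) → List (ℤ × ℤ) → ℕ
  | 0, _, _ => 0
  | N + 1, s, l => nC G k s (l.take M) + nbs G M k N (s ++ l.take M) (l.drop M)

theorem nbs_le (hG : Lat G μ B) (M k N : ℕ) : ∀ s l : List (ℤ × ℤ),
    nbs G M k N s l ≤ B ^ (k + 1) * (lvs G B M k N s l + N) := by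
  induction N with
  | zero => intro s l; simp [nbs]
  | succ N ih =>
    intro s l
    unfold nbs lvs
    have h1 := nC_le_lv hG k s (l.take M)
    have h2 := ih (s ++ l.take M) (l.drop M)
    obtain ⟨q, hq⟩ : ∃ q, q = B ^ (k + 1) := ⟨_, rfl⟩
    rw [← hq] at h1 h2 ⊢
    nlinarith

/-- **exponential moment of the sum of the levels** -/
theorem moment (hG : Lat G μ B) (M k N r : ℕ) : ∀ s : List (ℤ × ℤ), s ≠ [] →
    tot (fun l => 2 ^ lvs G B (M + 1) k N s l) (co G s (N * (M + 1) + r)) ≤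
      ((3 * (B * (WL G M).card) : ℕ) : ℝ≥0∞) ^ N * (B : ℝ≥0∞) ^ r := by
  induction N with
  | zero =>
    intro s hs
    simp only [lvs, pow_zero, zero_mul, zero_add, one_mul]
    exact tot_rest hG r s hs
  | succ N ih =>
    intro s hs
    have e1 : (N + 1) * (M + 1) + r = (M + 1) + (N * (M + 1) + r) := by ring
    have h1 := split_tot (G := G) s (M + 1) (N * (M + 1) + r) (fun β => 2 ^ lv G B k s β)
      (fun β l => 2 ^ lvs G B (M + 1) k N (s ++ β) l) _ (fun β => ih (s ++ β) (by simp [hs]))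
    rw [e1]
    have e2 : (fun l : List (ℤ × ℤ) => (2 : ℝ≥0∞) ^ lvs G B (M + 1) k (N + 1) s l) =
        fun l => 2 ^ lv G B k s (l.take (M + 1)) *
          2 ^ lvs G B (M + 1) k N (s ++ l.take (M + 1)) (l.drop (M + 1)) := by
      funext l
      rw [← pow_add]
      rfl
    rw [e2]
    refine h1.trans ?_
    rw [pow_succ' ((3 * (B * (WL G M).card) : ℕ) : ℝ≥0∞) N, mul_assoc]
    exact mul_le_mul_left (moment_one hG hs M k) _

/-- number of the walks with large sum of the levels -/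
theorem count_nat (hG : Lat G μ B) (M k N r A : ℕ) :
    2 ^ A * ({l | l ∈ co G [0] (N * (M + 1) + r) ∧ A ≤ lvs G B (M + 1) k N [0] l}.ncard) ≤
      (3 * (B * (WL G M).card)) ^ N * B ^ r := by
  have hfin : {l | l ∈ co G [0] (N * (M + 1) + r) ∧ A ≤ lvs G B (M + 1) k N [0] l}.Finite :=
    (co_finite (by simp) _).subset fun l hl => hl.1
  have key : (2 : ℝ≥0∞) ^ A * (({l | l ∈ co G [0] (N * (M + 1) + r) ∧
      A ≤ lvs G B (M + 1) k N [0] l}.ncard : ℕ) : ℝ≥0∞) ≤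
      ((3 * (B * (WL G M).card) : ℕ) : ℝ≥0∞) ^ N * (B : ℝ≥0∞) ^ r := by
    rw [← tot_one _ hfin]
    refine le_trans ?_ (moment hG M k N r [0] (by simp))
    unfold tot
    rw [← ENNReal.tsum_mul_left]
    refine ENNReal.tsum_le_tsum fun l => ?_
    by_cases hl : l ∈ co G [0] (N * (M + 1) + r) ∧ A ≤ lvs G B (M + 1) k N [0] l
    · rw [Set.indicator_of_mem (show l ∈ {l | l ∈ co G [0] (N * (M + 1) + r) ∧
        A ≤ lvs G B (M + 1) k N [0] l} from hl), Set.indicator_of_mem hl.1, mul_one]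
      exact pow_le_pow_right₀ (by norm_num) hl.2
    · rw [Set.indicator_of_notMem (show l ∉ {l | l ∈ co G [0] (N * (M + 1) + r) ∧
        A ≤ lvs G B (M + 1) k N [0] l} from hl), mul_zero]
      exact zero_le
  exact_mod_cast key

end

end U443.GL
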