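import Pool.Agent.U443.OS.Sep

/-!
# Averages of critical two-sided infinite walks
-/

set_option autoImplicit false

namespace U443.GL

open Finset MeasureTheory Filter Topology U443.LG U443.OS
open scoped Classical ENNReal

noncomputable section

variable {V : Type} [AddCommGroup V] [Countable V] {G : Geo V}

/-- the average of the measures `P i`, `i ∈ s` -/
def avm {ι : Type} (s : Finset ι) (P : ι → Measure (Cfg V)) : Measure (Cfg V) :=
  ((s.card : ℝ≥0∞)⁻¹) • ∑ i ∈ s, P i

theorem avm_real {ι : Type} {s : Finset ι} {P : ι → Measure (Cfg V)}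
    (hP : ∀ i ∈ s, IsProbabilityMeasure (P i)) (D : Set (Cfg V)) :
    (avm s P).real D = (∑ i ∈ s, (P i).real D) / s.card := by
  unfold avm Measure.real
  rw [Measure.smul_apply, Measure.finset_sum_apply, smul_eq_mul, ENNReal.toReal_mul,
    ENNReal.toReal_sum (fun i hi => by
      have := hP i hi
      exact measure_ne_top _ _)]
  simp only [ENNReal.toReal_inv, ENNReal.toReal_natCast]
  rw [div_eq_inv_mul]

theorem avm_inf {ι : Type} {s : Finset ι} (hs : s.Nonempty) {P : ι → Measure (Cfg V)} {x : ℝ}
    {κ : ℕ → ℕ → ℝ} (hP : ∀ i ∈ s, Inf G x κ (P i)) : Inf G x κ (avm s P) := by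
  have hprob : ∀ i ∈ s, IsProbabilityMeasure (P i) := fun i hi => (hP i hi).prob
  have hc : (0 : ℝ) < s.card := by exact_mod_cast Finset.card_pos.2 hs
  have hc0 : (s.card : ℝ≥0∞) ≠ 0 := by
    have := Finset.card_pos.2 hs
    exact_mod_cast this.ne'
  constructor
  · constructor
    unfold avm
    rw [Measure.smul_apply, Measure.finset_sum_apply, smul_eq_mul]
    rw [Finset.sum_congr rfl (fun i hi => by
      have := hprob i hi
      exact measure_univ), Finset.sum_const, nsmul_eq_mul, mul_one]
    exact ENNReal.inv_mul_cancel hc0 (ENNReal.natCast_ne_top _)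
  · rw [ae_iff]
    unfold avm
    rw [Measure.smul_apply, Measure.finset_sum_apply, smul_eq_mul]
    rw [Finset.sum_eq_zero (fun i hi => ?_), mul_zero]
    have := (hP i hi).line
    rwa [ae_iff] at this
  · intro Λ A A' hA hA' C hC hdep hline
    rw [avm_real hprob, avm_real hprob, mul_div_assoc', mul_div_assoc', Finset.mul_sum,
      Finset.mul_sum]
    congr 1
    exact Finset.sum_congr rfl fun i hi => (hP i hi).dlr Λ A A' hA hA' C hC hdep hline
  · intro g hg D hD
    rw [avm_real hprob, avm_real hprob]
    congr 1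
    exact Finset.sum_congr rfl fun i hi => (hP i hi).stat g hg D hD
  · intro d m hm y hy
    rw [avm_real hprob, div_le_iff₀ hc]
    calc ∑ i ∈ s, (P i).real (Far G y m) ≤ ∑ _i ∈ s, κ d m :=
          Finset.sum_le_sum fun i hi => (hP i hi).far d m hm y hy
      _ = κ d m * s.card := by rw [Finset.sum_const, nsmul_eq_mul, mul_comm]

end

end U443.GL
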