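import Pool.Agent.U443.GL.Pcs

/-!
# Blocks with many vertices close to the past
-/

set_option autoImplicit false

namespace U443.GL

open Finset MeasureTheory Filter Topology U443.LG U443.OS
open scoped Classical ENNReal

noncomputable section

variable {G : Geo (ℤ × ℤ)} {μ : ℝ} {B : ℕ}

/-- after the first `i` vertices there are more than `B ^ (k + 1) * S` vertices within distance `k`
of the first `i` vertices -/
def Exc (G : Geo (ℤ × ℤ)) (B k : ℕ) (S : ℝ) (i : ℕ) (l : List (ℤ × ℤ)) : Prop :=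
  (B : ℝ) ^ (k + 1) * S < (nC G k (l.take i) (l.drop i) : ℝ)

theorem exc_block (hG : Lat G μ B) {s : List (ℤ × ℤ)} (hs : s ≠ []) (m k : ℕ) (S : ℝ)
    (hS : 1 ≤ S) :
    (({β | β ∈ co G s (m + 1) ∧ (B : ℝ) ^ (k + 1) * S < (nC G k s β : ℝ)}.ncard : ℕ) : ℝ) ≤
      16 * B * (Real.exp (-S) * (WL G m).card) := by
  obtain ⟨q, hq⟩ : ∃ q : ℕ, q = ⌊S⌋₊ := ⟨_, rfl⟩
  have hq1 : 1 ≤ q := by rw [hq]; exact Nat.le_floor (by exact_mod_cast hS)
  have hqS : (q : ℝ) ≤ S := by rw [hq]; exact Nat.floor_le (by linarith)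
  have hSq : S < q + 1 := by rw [hq]; exact Nat.lt_floor_add_one S
  obtain ⟨r, rfl⟩ : ∃ r, q = r + 1 := ⟨q - 1, by omega⟩
  have h1 := hG.block s m k r hs
  have hB0 : (0 : ℝ) < B := by exact_mod_cast hG.pos
  have h2 : ({β | β ∈ co G s (m + 1) ∧ (B : ℝ) ^ (k + 1) * S < (nC G k s β : ℝ)} :
      Set (List (ℤ × ℤ))).ncard ≤
      ({β | β ∈ co G s (m + 1) ∧ B ^ (k + 1) * (r + 1) ≤ nC G k s β} :
        Set (List (ℤ × ℤ))).ncard := by
    refine Set.ncard_le_ncard ?_ ((co_finite hs _).subset fun l hl => hl.1)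
    rintro β ⟨h3, h4⟩
    refine ⟨h3, ?_⟩
    have h5 : (B : ℝ) ^ (k + 1) * ((r + 1 : ℕ) : ℝ) ≤ (B : ℝ) ^ (k + 1) * S :=
      mul_le_mul_of_nonneg_left hqS (by positivity)
    have h6 : (((B ^ (k + 1) * (r + 1) : ℕ)) : ℝ) ≤ (nC G k s β : ℝ) := by
      push_cast at h5 ⊢
      linarith
    exact_mod_cast h6
  obtain ⟨x, hx⟩ : ∃ x : ℕ, x = ({β | β ∈ co G s (m + 1) ∧
      B ^ (k + 1) * (r + 1) ≤ nC G k s β} : Set (List (ℤ × ℤ))).ncard := ⟨_, rfl⟩
  rw [← hx] at h1 h2
  have h2' := (Nat.cast_le (α := ℝ)).2 h2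
  refine h2'.trans ?_
  have h1' : (4 : ℝ) ^ r * x ≤ B * (WL G m).card := by exact_mod_cast h1
  have h7 : Real.exp S ≤ 16 * 4 ^ r := by
    have e1 : Real.exp S ≤ Real.exp ((r + 2 : ℕ) : ℝ) := by
      rw [Real.exp_le_exp]
      push_cast at hSq ⊢
      linarith
    have e2 : Real.exp ((r + 2 : ℕ) : ℝ) ≤ 4 ^ (r + 2) := by
      have e3 : ((r + 2 : ℕ) : ℝ) = ((r + 2 : ℕ) : ℝ) * 1 := by ring
      rw [e3, Real.exp_nat_mul]
      refine pow_le_pow_left₀ (Real.exp_pos _).le ?_ _
      have := Real.exp_one_lt_d9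
      linarith
    calc Real.exp S ≤ 4 ^ (r + 2) := e1.trans e2
      _ = 16 * 4 ^ r := by rw [pow_add]; ring
  have h8 : (0 : ℝ) < Real.exp S := Real.exp_pos S
  rw [Real.exp_neg]
  have hx0 : (0 : ℝ) ≤ x := Nat.cast_nonneg _
  have h9 : Real.exp S * x ≤ 16 * (B * (WL G m).card) := by
    calc Real.exp S * x ≤ (16 * 4 ^ r) * x := by gcongr
      _ = 16 * (4 ^ r * x) := by ring
      _ ≤ _ := by gcongr
  have h10 : 16 * (B : ℝ) * ((Real.exp S)⁻¹ * (WL G m).card) =
      (16 * (B * (WL G m).card)) / Real.exp S := by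
    rw [div_eq_mul_inv]
    ring
  rw [h10, le_div_iff₀ h8]
  linarith

/-- number of the walks with an exceptional last block -/
theorem exc_count (hG : Lat G μ B) (v : ℤ × ℤ) (k : ℕ) {S : ℝ} (hS : 1 ≤ S) (i m : ℕ) :
    (((WV G v (i + 1 + m)).filter (fun l => Exc G B k S (i + 1) l)).card : ℝ) ≤
      16 * B * (Real.exp (-S) * (WL G m).card) * (WV G v i).card := by
  obtain ⟨Q, hQ⟩ : ∃ Q : ℕ, Q = ⌊16 * B * (Real.exp (-S) * (WL G m).card)⌋₊ := ⟨_, rfl⟩
  have hQle : (Q : ℝ) ≤ 16 * B * (Real.exp (-S) * (WL G m).card) := by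
    rw [hQ]
    exact Nat.floor_le (by positivity)
  have h1 : ((WV G v (i + 1 + m)).filter (fun l => Exc G B k S (i + 1) l)).card ≤
      Q * (WV G v i).card := by
    refine Finset.card_le_mul_card_image_of_maps_to (f := fun l => l.take (i + 1)) ?_ Q ?_
    · intro l hl
      rw [Finset.mem_filter, mem_WV] at hl
      rw [mem_WV]
      obtain ⟨⟨⟨h1, h2, h3⟩, h4⟩, -⟩ := hl
      refine ⟨⟨?_, (List.take_sublist _ _).nodup h2, h3.take _⟩, ?_⟩
      · rw [List.head?_take, if_neg (by omega)]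
        exact h1
      · rw [List.length_take]
        omega
    · intro s hs
      rw [mem_WV] at hs
      obtain ⟨⟨s1, s2, s3⟩, s4⟩ := hs
      have hs0 : s ≠ [] := by
        rintro rfl
        simp at s1
      obtain ⟨T, hT⟩ : ∃ T : Set (List (ℤ × ℤ)), T = {β | β ∈ co G s (m + 1) ∧
        (B : ℝ) ^ (k + 1) * S < (nC G k s β : ℝ)} := ⟨_, rfl⟩
      have hTf : T.Finite := by
        rw [hT]
        exact (co_finite hs0 _).subset fun l hl => hl.1
      have hTc : hTf.toFinset.card ≤ Q := by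
        rw [← Set.ncard_eq_toFinset_card T hTf, hQ]
        apply Nat.le_floor
        rw [hT]
        exact exc_block hG hs0 m k S hS
      refine le_trans (Finset.card_le_card_of_injOn (t := hTf.toFinset)
        (fun l => l.drop (i + 1)) ?_ ?_) hTc
      · intro l hl
        rw [Finset.mem_coe, Finset.mem_filter, Finset.mem_filter, mem_WV] at hl
        obtain ⟨⟨⟨⟨h1, h2, h3⟩, h4⟩, h5⟩, h6⟩ := hl
        have h7 : s ++ l.drop (i + 1) = l := by rw [← h6, List.take_append_drop]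
        rw [Finset.mem_coe, Set.Finite.mem_toFinset, hT]
        refine ⟨⟨?_, ?_, ?_⟩, ?_⟩
        · rw [List.length_drop]
          omega
        · rw [h7]; exact h2
        · rw [h7]; exact h3
        · unfold Exc at h5
          rw [h6] at h5
          exact h5
      · intro l hl l' hl' h
        rw [Finset.mem_coe, Finset.mem_filter] at hl hl'
        simp only at h
        rw [← List.take_append_drop (i + 1) l, ← List.take_append_drop (i + 1) l', h, hl.2, hl'.2]
  have h2 := (Nat.cast_le (α := ℝ)).2 h1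
  rw [Nat.cast_mul] at h2
  exact h2.trans (mul_le_mul_of_nonneg_right hQle (Nat.cast_nonneg _))

theorem exc_zero {k : ℕ} {S : ℝ} (hS : 1 ≤ S) {l : List (ℤ × ℤ)} : ¬ Exc G B k S 0 l := by
  unfold Exc
  have h0 : nC G k (l.take 0) (l.drop 0) = 0 := by
    unfold nC
    rw [Finset.card_eq_zero, Finset.filter_eq_empty_iff]
    rintro x _ ⟨a, ha, -⟩
    simp at ha
  rw [h0, not_lt]
  push_cast
  positivity

theorem exc_nil {k i : ℕ} {S : ℝ} (hS : 1 ≤ S) {l : List (ℤ × ℤ)} (hl : l.length ≤ i) :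
    ¬ Exc G B k S i l := by
  unfold Exc
  have h0 : nC G k (l.take i) (l.drop i) = 0 := by
    rw [List.drop_eq_nil_of_le hl]
    unfold nC
    simp
  rw [h0, not_lt]
  push_cast
  positivity

/-- the piece of `l` with `k' + 1` vertices from the position `i` is close to the rest -/
def Crowd (G : Geo (ℤ × ℤ)) (B k : ℕ) (S : ℝ) (i k' : ℕ) (l : List (ℤ × ℤ)) : Prop :=
  Exc G B k S i (l.take (i + k' + 1)) ∨ Exc G B k S (k' + 1) (l.drop i)

/-- number of the walks with a crowded piece at a given place -/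
theorem crowd_count (hG : Lat G μ B) {K C : ℝ} (hK0 : 0 ≤ K) (hC : 1 ≤ C)
    (hw : ∀ n : ℕ, ∀ v : ℤ × ℤ,
    ((WV G v n).card : ℝ) ≤ C * Real.exp (K * Real.log (n + 2) ^ 2) * μ ^ n)
    (v : ℤ × ℤ) (k : ℕ) {S : ℝ} (hS : 1 ≤ S) {i k' n : ℕ} (hn : i + k' ≤ n) :
    (((WV G v n).filter (fun l => Crowd G B k S i k' l)).card : ℝ) ≤
      32 * B * C ^ 3 * Real.exp (3 * K * Real.log (n + 2) ^ 2) * Real.exp (-S) * μ ^ n := by
  have hmu := hG.one
  have hmu0 : 0 < μ := lt_of_lt_of_le one_pos hmu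
  have hB0 : (0 : ℝ) < B := by exact_mod_cast hG.pos
  obtain ⟨X, hX⟩ : ∃ X : ℝ, X = Real.exp (K * Real.log (n + 2) ^ 2) := ⟨_, rfl⟩
  have hX0 : 0 < X := by rw [hX]; exact Real.exp_pos _
  have hX1 : 1 ≤ X := by rw [hX]; exact Real.one_le_exp (by positivity)
  have hlog : ∀ j : ℕ, j ≤ n → ∀ v : ℤ × ℤ, ((WV G v j).card : ℝ) ≤ C * X * μ ^ j := by
    intro j hj v
    refine (hw j v).trans ?_
    have hj' : (j : ℝ) ≤ n := by exact_mod_cast hj
    have hj0 : (0 : ℝ) ≤ j := Nat.cast_nonneg _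
    have h2 : 0 ≤ Real.log ((j : ℝ) + 2) := Real.log_nonneg (by linarith)
    have h3 : Real.log ((j : ℝ) + 2) ≤ Real.log (n + 2) := Real.log_le_log (by linarith) (by linarith)
    rw [hX]
    gcongr
  have hcN : ∀ j : ℕ, j ≤ n → ((WL G j).card : ℝ) ≤ C * X * μ ^ j := fun j hj => hlog j hj 0
  have hS0 := Real.exp_pos (-S)
  obtain ⟨Y, hY⟩ : ∃ Y : ℝ, Y = 16 * B * C ^ 3 * X ^ 3 * Real.exp (-S) * μ ^ n := ⟨_, rfl⟩
  obtain ⟨P0, hP0⟩ : ∃ P0 : List (ℤ × ℤ) → Prop, ∀ l, P0 l := ⟨fun _ => True, fun _ => trivial⟩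
  -- the past
  have hA : (((WV G v n).filter (fun l => Exc G B k S i (l.take (i + k' + 1)))).card : ℝ) ≤ Y := by
    cases i with
    | zero =>
      rw [Finset.filter_eq_empty_iff.2 (fun l _ => exc_zero hS)]
      rw [hY]
      simp only [Finset.card_empty, Nat.cast_zero]
      positivity
    | succ i =>
      obtain ⟨j, rfl⟩ : ∃ j, n = (i + 1 + k') + j := ⟨n - (i + 1 + k'), by omega⟩
      have h1 := split_real G v (i + 1 + k') j (fun l => Exc G B k S (i + 1) l) P0 (C * X * μ ^ j)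
        (fun u => le_trans (by exact_mod_cast Finset.card_filter_le _ _) (hlog j (by omega) u))
      have h2 := exc_count hG v k hS i k'
      refine le_trans (Nat.cast_le.2 (Finset.card_le_card ?_)) (h1.trans
        ((mul_le_mul_of_nonneg_left h2 (by positivity)).trans ?_))
      · intro l hl
        rw [Finset.mem_filter] at hl ⊢
        exact ⟨hl.1, hl.2, hP0 _⟩
      · have h3 := hlog i (by omega) v
        have h4 := hcN k' (by omega)
        calc C * X * μ ^ j * (16 * B * (Real.exp (-S) * (WL G k').card) * (WV G v i).card) ≤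
              C * X * μ ^ j * (16 * B * (Real.exp (-S) * (C * X * μ ^ k')) * (C * X * μ ^ i)) := by
              gcongr
          _ = 16 * B * C ^ 3 * X ^ 3 * Real.exp (-S) * μ ^ (i + k' + j) := by
              rw [pow_add, pow_add]
              ring
          _ ≤ Y := by
              rw [hY]
              gcongr
              omega
  -- the future
  have hB : (((WV G v n).filter (fun l => Exc G B k S (k' + 1) (l.drop i))).card : ℝ) ≤ Y := by
    obtain ⟨j, rfl⟩ : ∃ j, n = i + j := ⟨n - i, by omega⟩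
    have h5 : ∀ u, (((WV G u j).filter (fun b => Exc G B k S (k' + 1) b)).card : ℝ) ≤
        16 * B * C ^ 2 * X ^ 2 * Real.exp (-S) * μ ^ j := by
      intro u
      rcases Nat.lt_or_ge j (k' + 1) with hj | hj
      · rw [Finset.filter_eq_empty_iff.2 (fun l hl => exc_nil hS (by
          have := ((mem_WV G).1 hl).2
          omega))]
        simp only [Finset.card_empty, Nat.cast_zero]
        positivity
      · obtain ⟨j', rfl⟩ : ∃ j', j = k' + 1 + j' := ⟨j - (k' + 1), by omega⟩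
        have h2 := exc_count hG u k hS k' j'
        have h3 := hlog k' (by omega) u
        have h4 := hcN j' (by omega)
        calc _ ≤ _ := h2
          _ ≤ 16 * B * (Real.exp (-S) * (C * X * μ ^ j')) * (C * X * μ ^ k') := by gcongr
          _ = 16 * B * C ^ 2 * X ^ 2 * Real.exp (-S) * μ ^ (k' + j') := by
              rw [pow_add]
              ring
          _ ≤ _ := by
              gcongr
              omega
    have h1 := split_real G v i j P0 (fun b => Exc G B k S (k' + 1) b) _ h5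
    refine le_trans (Nat.cast_le.2 (Finset.card_le_card ?_)) (h1.trans
      ((mul_le_mul_of_nonneg_left (le_trans (by exact_mod_cast Finset.card_filter_le _ _)
        (hlog i (by omega) v)) (by positivity)).trans ?_))
    · intro l hl
      rw [Finset.mem_filter] at hl ⊢
      exact ⟨hl.1, hP0 _, hl.2⟩
    · rw [hY]
      apply le_of_eq
      rw [pow_add]
      ring
  have hsub : (WV G v n).filter (fun l => Crowd G B k S i k' l) ⊆
      (WV G v n).filter (fun l => Exc G B k S i (l.take (i + k' + 1))) ∪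
      (WV G v n).filter (fun l => Exc G B k S (k' + 1) (l.drop i)) := by
    intro l hl
    rw [Finset.mem_filter] at hl
    rw [Finset.mem_union, Finset.mem_filter, Finset.mem_filter]
    rcases hl.2 with h1 | h1
    · exact Or.inl ⟨hl.1, h1⟩
    · exact Or.inr ⟨hl.1, h1⟩
  have h1 := (Nat.cast_le (α := ℝ)).2 ((Finset.card_le_card hsub).trans (Finset.card_union_le _ _))
  rw [Nat.cast_add] at h1
  have e1 : Real.exp (3 * K * Real.log (n + 2) ^ 2) = X ^ 3 := by
    rw [hX, ← Real.exp_nat_mul]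
    congr 1
    push_cast
    ring
  rw [e1]
  calc _ ≤ _ := h1
    _ ≤ Y + Y := add_le_add hA hB
    _ = _ := by rw [hY]; ring

end

end U443.GL
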