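import Pool.Agent.U443.GL.Exc
import Pool.Agent.U443.OS.Fin

/-!
# The whole walk seen from its pieces
-/

set_option autoImplicit false

namespace U443.GL

open Finset MeasureTheory Filter Topology U443.LG U443.OS
open scoped Classical ENNReal
open Pool.Agent.U372.HX (bx bx_card mem_bx cl)

noncomputable section

variable {G : Geo (ℤ × ℤ)} {μ : ℝ} {B : ℕ}

/-- the number of the different views -/
theorem dif_count (hG : Lat G μ B) {R : Finset (Sym2 (ℤ × ℤ))} {k : ℕ}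
    (hk : ∀ e ∈ R, ∀ a ∈ e, (∃ j, Within G j 0 a) → Within G k 0 a)
    {s β t : List (ℤ × ℤ)} (hβ : β ≠ []) (hc : (s ++ β ++ t).IsChain G.Adj) :
    (Dif G R (s ++ β ++ t) β).card ≤ nC G k s β + (2 * k + 1) ^ 2 * nC G k β t := by
  have hsub : Dif G R (s ++ β ++ t) β ⊆ β.toFinset.filter (fun x => ∃ u ∈ s, Within G k u x) ∪
      (t.toFinset.filter (fun u => ∃ x ∈ β, Within G k x u)).biUnion (fun u => bx k u) := by
    intro x hx
    obtain ⟨h1, u, h2, h3⟩ := dif_reason G hk hβ hc hx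
    rw [Finset.mem_union]
    rcases h2 with h2 | h2
    · left
      rw [Finset.mem_filter, List.mem_toFinset]
      exact ⟨h1, u, h2, within_symm G h3⟩
    · right
      rw [Finset.mem_biUnion]
      refine ⟨u, ?_, ?_⟩
      · rw [Finset.mem_filter, List.mem_toFinset]
        exact ⟨h2, x, h1, h3⟩
      · rw [mem_bx]
        exact hG.loc k x u h3
  refine (Finset.card_le_card hsub).trans ((Finset.card_union_le _ _).trans ?_)
  refine add_le_add le_rfl ?_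
  rw [mul_comm]
  refine Finset.card_biUnion_le_card_mul _ _ _ fun u _ => ?_
  rw [bx_card]
  apply le_of_eq
  congr 1

/-- not crowded pieces -/
theorem good_piece (hG : Lat G μ B) {x : ℝ} {κ : ℕ → ℕ → ℝ} {ε : ℝ} {R : Finset (Sym2 (ℤ × ℤ))}
    {k : ℕ} (hk : ∀ e ∈ R, ∀ a ∈ e, (∃ j, Within G j 0 a) → Within G k 0 a)
    {l : List (ℤ × ℤ)} (hc : l.IsChain G.Adj) (hn : l.Nodup) {i k' m : ℕ} (hik : i + k' + 1 ≤ l.length)
    (hm : m ≤ k') (hm1 : 1 ≤ m) {σ : ℝ}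
    (hσ : (1 + (2 * k + 1) ^ 2) * ((B : ℝ) ^ (k + 1) * σ) ≤ ε / 4)
    (h : Close G x κ (ε / 2) R ((l.drop i).take (k' + 1)))
    (h' : ¬ Crowd G B k (σ * m) i k' l) : CloseIn G x κ ε R l ((l.drop i).take (k' + 1)) := by
  obtain ⟨s, hs⟩ : ∃ s, s = l.take i := ⟨_, rfl⟩
  obtain ⟨β, hβ⟩ : ∃ β, β = (l.drop i).take (k' + 1) := ⟨_, rfl⟩
  obtain ⟨t, ht⟩ : ∃ t, t = (l.drop i).drop (k' + 1) := ⟨_, rfl⟩
  have hl : l = s ++ β ++ t := by
    rw [hs, hβ, ht, List.append_assoc, List.take_append_drop, List.take_append_drop]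
  have hβl : β.length = k' + 1 := by
    rw [hβ, List.length_take, List.length_drop]
    omega
  have hβ0 : β ≠ [] := by
    rintro h0
    rw [h0] at hβl
    simp at hβl
  unfold Crowd at h'
  rw [not_or] at h'
  obtain ⟨h1, h2⟩ := h'
  unfold Exc at h1 h2
  rw [not_lt] at h1 h2
  rw [List.take_take, min_eq_left (by omega), List.drop_take,
    show i + k' + 1 - i = k' + 1 by omega, ← hs, ← hβ] at h1
  rw [← hβ, ← ht] at h2
  rw [← hβ] at h ⊢
  have hTs : (k' : ℝ) ≤ 2 * (Ts G β).card := by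
    obtain ⟨b, r, hb⟩ : ∃ b r, β = b :: r := by
      rcases β with - | ⟨b, r⟩
      · exact absurd rfl hβ0
      · exact ⟨b, r, rfl⟩
    have hw : Walk G.Adj b β := by
      refine ⟨by rw [hb]; rfl, ?_, ?_⟩
      · rw [hβ]
        exact (List.take_sublist _ _).nodup ((List.drop_sublist _ _).nodup hn)
      · rw [hβ]
        exact (hc.drop _).take _
    have h3 := Ts_card G hw
    rw [hβl] at h3
    have : k' ≤ 2 * (Ts G β).card := by omega
    exact_mod_cast this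
  have hm' : (m : ℝ) ≤ k' := by exact_mod_cast hm
  have hm1' : (1 : ℝ) ≤ m := by exact_mod_cast hm1
  have hT0 : 0 < (Ts G β).card := by
    have : (0 : ℝ) < (Ts G β).card := by linarith
    exact_mod_cast this
  refine closeIn_of G h hT0 ?_
  have h3 := dif_count hG hk hβ0 (s := s) (t := t) (by rw [← hl]; exact hc)
  rw [← hl] at h3
  have h4 : ((Dif G R l β).card : ℝ) ≤ nC G k s β + (2 * k + 1) ^ 2 * nC G k β t := by
    exact_mod_cast h3
  have h5 : ((2 : ℝ) * k + 1) ^ 2 * nC G k β t ≤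
      (2 * k + 1) ^ 2 * ((B : ℝ) ^ (k + 1) * (σ * m)) := mul_le_mul_of_nonneg_left h2 (by positivity)
  have h6 : ((Dif G R l β).card : ℝ) ≤ ε / 4 * m := by
    calc ((Dif G R l β).card : ℝ) ≤ (B : ℝ) ^ (k + 1) * (σ * m) +
          (2 * k + 1) ^ 2 * ((B : ℝ) ^ (k + 1) * (σ * m)) := by linarith
      _ = (1 + (2 * k + 1) ^ 2) * ((B : ℝ) ^ (k + 1) * σ) * m := by ring
      _ ≤ _ := mul_le_mul_of_nonneg_right hσ (by positivity)
  have hε : 0 ≤ ε / 4 := by
    by_contra hcon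
    push Not at hcon
    have h7 : (0 : ℝ) ≤ (Dif G R l β).card := Nat.cast_nonneg _
    nlinarith
  nlinarith

/-- all the pieces of `l` with at least `m` steps are typical: `l`, seen from a uniformly chosen
vertex of the piece, is `ε`-close in the window `R` to a critical two-sided infinite walk -/
def TypG (G : Geo (ℤ × ℤ)) (x : ℝ) (κ : ℕ → ℕ → ℝ) (ε : ℝ) (R : Finset (Sym2 (ℤ × ℤ))) (m : ℕ)
    (l : List (ℤ × ℤ)) : Prop :=
  ∀ β, β <:+: l → m + 1 ≤ β.length → CloseIn G x κ ε R l β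

theorem pieces_in (hG : Lat G μ B) {K0 : ℕ} (hth : Thin G (kap K0)) {ε : ℝ} (hε : 0 < ε)
    (R : Finset (Sym2 (ℤ × ℤ))) : ∃ c K C : ℝ, 0 < c ∧ 0 ≤ K ∧ 1 ≤ C ∧ ∃ n0 : ℕ,
      ∀ n m : ℕ, n0 ≤ m → ∀ v : ℤ × ℤ,
      (((WV G v n).filter (fun l => ¬ TypG G (1 / μ) (kap K0) ε R m l)).card : ℝ) ≤
        C * Real.exp (K * Real.log (n + 2) ^ 2) * Real.exp (-(c * m)) * μ ^ n := by
  obtain ⟨c1, hc1, n1, h1⟩ := bad_all hG hth (half_pos hε) R
  obtain ⟨Ka, Ca, hKa, hCa, hPa⟩ := pieces_count hG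
    (E := fun l => ¬ Close G (1 / μ) (kap K0) (ε / 2) R l) hc1
    (fun n hn v => by convert h1 n hn v)
  obtain ⟨Kb, Cb, hKb, hCb, hw⟩ := all_count hG
  obtain ⟨k, hk⟩ := radius G R
  have hB0 : (0 : ℝ) < B := by exact_mod_cast hG.pos
  have hKW : (0 : ℝ) < (B : ℝ) ^ (k + 1) := by positivity
  obtain ⟨σ, hσ⟩ : ∃ σ : ℝ, σ = ε / (4 * (1 + (2 * k + 1) ^ 2) * (B : ℝ) ^ (k + 1)) := ⟨_, rfl⟩
  have hσ0 : 0 < σ := by rw [hσ]; positivity
  have hσ1 : (1 + (2 * (k : ℝ) + 1) ^ 2) * ((B : ℝ) ^ (k + 1) * σ) ≤ ε / 4 := by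
    rw [hσ]
    apply le_of_eq
    field_simp
  have hmu := hG.one
  have hmu0 : 0 < μ := lt_of_lt_of_le one_pos hmu
  have hl2 : 0 < Real.log 2 := Real.log_pos (by norm_num)
  obtain ⟨c, hc⟩ : ∃ c : ℝ, c = min c1 σ := ⟨_, rfl⟩
  have hcc1 : c ≤ c1 := by rw [hc]; exact min_le_left _ _
  have hcσ : c ≤ σ := by rw [hc]; exact min_le_right _ _
  refine ⟨c, Ka + 3 * Kb + 2 / Real.log 2, Ca + 32 * B * Cb ^ 3, by rw [hc]; exact lt_min hc1 hσ0,
    by positivity, by nlinarith [show (0 : ℝ) ≤ B * Cb ^ 3 by positivity],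
    max n1 (⌈1 / σ⌉₊ + 1), fun n m hm v => ?_⟩
  have hm1 : n1 ≤ m := le_trans (le_max_left _ _) hm
  have hm2 : ⌈1 / σ⌉₊ + 1 ≤ m := le_trans (le_max_right _ _) hm
  have hm3 : 1 ≤ m := by omega
  have hσm : 1 ≤ σ * m := by
    have h2 : 1 / σ ≤ (⌈1 / σ⌉₊ : ℝ) := Nat.le_ceil _
    have h3 : (⌈1 / σ⌉₊ : ℝ) ≤ m := by exact_mod_cast (show ⌈1 / σ⌉₊ ≤ m by omega)
    rw [mul_comm, ← div_le_iff₀ hσ0]
    linarith
  have hn0 : (0 : ℝ) ≤ n := Nat.cast_nonneg _
  have hm0 : (0 : ℝ) ≤ m := Nat.cast_nonneg _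
  obtain ⟨L, hL⟩ : ∃ L : ℝ, L = Real.log ((n : ℝ) + 2) ^ 2 := ⟨_, rfl⟩
  have hL0 : 0 ≤ L := by rw [hL]; positivity
  obtain ⟨T, hT⟩ : ∃ T : Finset (ℕ × ℕ), T = ((Finset.range (n + 1)) ×ˢ (Finset.range (n + 1))).filter
      (fun q => m ≤ q.2 ∧ q.1 + q.2 ≤ n) := ⟨_, rfl⟩
  have hsub : (WV G v n).filter (fun l => ¬ TypG G (1 / μ) (kap K0) ε R m l) ⊆
      (WV G v n).filter (fun l => HasP m
        (fun l => ¬ Close G (1 / μ) (kap K0) (ε / 2) R l) l) ∪
      T.biUnion (fun q => (WV G v n).filter (fun l => Crowd G B k (σ * m) q.1 q.2 l)) := by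
    intro l hl
    rw [Finset.mem_filter] at hl
    obtain ⟨hl1, hl2⟩ := hl
    have hl3 := (mem_WV G).1 hl1
    have hl4 : HasP m (fun β => ¬ CloseIn G (1 / μ) (kap K0) ε R l β) l := by
      unfold TypG at hl2
      push Not at hl2
      exact hl2
    obtain ⟨i, k', g1, g2, g3⟩ := hasP_iff (E := fun β => ¬ CloseIn G (1 / μ) (kap K0) ε R l β)
      hl3.2 hl4
    rw [Finset.mem_union]
    by_cases hcl : Close G (1 / μ) (kap K0) (ε / 2) R ((l.drop i).take (k' + 1))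
    · right
      rw [Finset.mem_biUnion]
      refine ⟨(i, k'), ?_, ?_⟩
      · rw [hT, Finset.mem_filter, Finset.mem_product, Finset.mem_range, Finset.mem_range]
        exact ⟨⟨by simp only; omega, by simp only; omega⟩, g1, g2⟩
      · rw [Finset.mem_filter]
        refine ⟨hl1, ?_⟩
        by_contra hcon
        exact g3 (good_piece hG hk hl3.1.2.2 hl3.1.2.1 (by omega) g1 hm3 hσ1 hcl hcon)
    · left
      rw [Finset.mem_filter]
      refine ⟨hl1, (l.drop i).take (k' + 1), ?_, ?_, hcl⟩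
      · exact (List.take_prefix _ _).isInfix.trans (List.drop_suffix _ _).isInfix
      · rw [List.length_take, List.length_drop]
        omega
  have hTc : (T.card : ℝ) ≤ (n + 1) ^ 2 := by
    have h1 : T.card ≤ (n + 1) ^ 2 := by
      rw [hT]
      refine (Finset.card_filter_le _ _).trans ?_
      rw [Finset.card_product, Finset.card_range, sq]
    exact_mod_cast h1
  have h2 : ((T.biUnion (fun q => (WV G v n).filter
      (fun l => Crowd G B k (σ * m) q.1 q.2 l))).card : ℝ) ≤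
      (n + 1) ^ 2 * (32 * B * Cb ^ 3 * Real.exp (3 * Kb * L) * Real.exp (-(σ * m)) * μ ^ n) := by
    have h3 : ((T.biUnion (fun q => (WV G v n).filter
        (fun l => Crowd G B k (σ * m) q.1 q.2 l))).card : ℝ) ≤
        ∑ q ∈ T, (((WV G v n).filter (fun l => Crowd G B k (σ * m) q.1 q.2 l)).card : ℝ) := by
      exact_mod_cast Finset.card_biUnion_le
    refine h3.trans ((Finset.sum_le_sum (g := fun _ => 32 * B * Cb ^ 3 * Real.exp (3 * Kb * L) *
      Real.exp (-(σ * m)) * μ ^ n) ?_).trans ?_)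
    · rintro ⟨i, k'⟩ hq
      rw [hT, Finset.mem_filter] at hq
      rw [hL]
      exact crowd_count hG hKb hCb hw v k hσm hq.2.2
    · rw [Finset.sum_const, nsmul_eq_mul]
      exact mul_le_mul_of_nonneg_right hTc (by positivity)
  have h3 := hPa n m hm1 v
  rw [← hL] at h3 ⊢
  have h4 := (Nat.cast_le (α := ℝ)).2 ((Finset.card_le_card hsub).trans (Finset.card_union_le _ _))
  rw [Nat.cast_add] at h4
  have h5 := poly_le n
  rw [← hL] at h5
  have e1 : Real.exp (Ka * L) ≤ Real.exp ((Ka + 3 * Kb + 2 / Real.log 2) * L) := by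
    rw [Real.exp_le_exp]
    have : 0 ≤ (3 * Kb + 2 / Real.log 2) * L := by positivity
    nlinarith
  have e2 : Real.exp (-(c1 * m)) ≤ Real.exp (-(c * m)) := by
    rw [Real.exp_le_exp]
    nlinarith
  have e3 : Real.exp (-(σ * m)) ≤ Real.exp (-(c * m)) := by
    rw [Real.exp_le_exp]
    nlinarith
  have e4 : ((n : ℝ) + 1) ^ 2 * Real.exp (3 * Kb * L) ≤
      Real.exp ((Ka + 3 * Kb + 2 / Real.log 2) * L) := by
    calc ((n : ℝ) + 1) ^ 2 * Real.exp (3 * Kb * L) ≤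
          Real.exp (2 / Real.log 2 * L) * Real.exp (3 * Kb * L) := by gcongr
      _ = Real.exp (2 / Real.log 2 * L + 3 * Kb * L) := by rw [Real.exp_add]
      _ ≤ _ := by
          rw [Real.exp_le_exp]
          have : 0 ≤ Ka * L := by positivity
          nlinarith
  calc _ ≤ _ := h4
    _ ≤ Ca * Real.exp (Ka * L) * Real.exp (-(c1 * m)) * μ ^ n + (n + 1) ^ 2 *
        (32 * B * Cb ^ 3 * Real.exp (3 * Kb * L) * Real.exp (-(σ * m)) * μ ^ n) := add_le_add h3 h2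
    _ = Ca * Real.exp (Ka * L) * Real.exp (-(c1 * m)) * μ ^ n +
        32 * B * Cb ^ 3 * (((n : ℝ) + 1) ^ 2 * Real.exp (3 * Kb * L)) * Real.exp (-(σ * m)) *
          μ ^ n := by
        ring
    _ ≤ Ca * Real.exp ((Ka + 3 * Kb + 2 / Real.log 2) * L) * Real.exp (-(c * m)) * μ ^ n +
        32 * B * Cb ^ 3 * Real.exp ((Ka + 3 * Kb + 2 / Real.log 2) * L) * Real.exp (-(c * m)) *
          μ ^ n := by gcongr
    _ = _ := by ring

end

end U443.GL
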