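import Pool.Agent.U443.GL.SqE

/-!
# The view of a truncated walk
-/

set_option autoImplicit false

namespace U443.GL

open Finset MeasureTheory Filter Topology U443.LG U443.OS
open scoped Classical ENNReal
open Pool.Agent.U372.HX (bx bx_card mem_bx cl)

noncomputable section

theorem tr_get {l : List (ℤ × ℤ)} {i : ℕ} {u v : ℤ × ℤ} (h1 : l[i]? = some u)
    (h2 : l[i + 1]? = some v) : s(u, v) ∈ tr l := by
  have hi : i + 1 < l.length := by
    by_contra hcon
    rw [List.getElem?_eq_none (by omega)] at h2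
    simp at h2
  rw [List.getElem?_eq_getElem (by omega), Option.some.injEq] at h1 h2
  rw [mem_tr]
  refine ⟨l.take i, u, v, l.drop (i + 2), ?_, rfl⟩
  conv_lhs => rw [← List.take_append_drop i l, List.drop_eq_getElem_cons (by omega),
    List.drop_eq_getElem_cons (by omega)]
  rw [h1, h2]

theorem tr_inv {l : List (ℤ × ℤ)} {e : Sym2 (ℤ × ℤ)} (h : e ∈ tr l) :
    ∃ i u v, l[i]? = some u ∧ l[i + 1]? = some v ∧ e = s(u, v) := by
  obtain ⟨p, a, b, q, rfl, rfl⟩ := mem_tr.1 h
  refine ⟨p.length, a, b, ?_, ?_, rfl⟩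
  · simp
  · rw [List.getElem?_append_right (by omega)]
    simp

theorem tr_infix {β l : List (ℤ × ℤ)} (h : β <:+: l) : tr β ⊆ tr l := by
  intro e he
  obtain ⟨s, t, rfl⟩ := h
  obtain ⟨p1, a, b, q1, rfl, rfl⟩ := mem_tr.1 he
  exact mem_tr.2 ⟨s ++ p1, a, b, q1 ++ t, by simp, rfl⟩

/-- the truncated walk shows the state `S` of the window `R` from the point at the position `L` of
the middle piece -/
def Phi (R S : Finset (Sym2 (ℤ × ℤ))) (L : ℕ) (l1 l2 l3 : List (ℤ × ℤ)) : Prop :=
  ∀ e ∈ R, (Sym2.map (l2.getD L 0 + ·) e ∈ tr l1 ∪ tr l2 ∪ tr l3 ↔ e ∈ S)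

/-- the walk shows the state `S` of the window `R` from the point at the time `t` -/
def VwAt (R S : Finset (Sym2 (ℤ × ℤ))) (t : ℕ) (l : List (ℤ × ℤ)) : Prop :=
  vw l (l.getD t 0) ∈ Cyl R S

/-- at a time in `I` the walk is within distance `d` of its place at the time `t` -/
def Ct (d t : ℕ) (I : ℕ → Prop) (l : List (ℤ × ℤ)) : Prop :=
  ∃ i, i < l.length ∧ I i ∧ Within sqG d (l.getD t 0) (l.getD i 0)

theorem getD_of {l : List (ℤ × ℤ)} {i : ℕ} {u : ℤ × ℤ} (h : l[i]? = some u) : l.getD i 0 = u := by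
  rw [List.getD_eq_getElem?_getD, h]
  rfl

theorem trunc_view {R S : Finset (Sym2 (ℤ × ℤ))} {d : ℕ}
    (hk : ∀ e ∈ R, ∀ a ∈ e, (∃ j, Within sqG j 0 a) → Within sqG d 0 a)
    {l : List (ℤ × ℤ)} (hc : l.IsChain sqG.Adj) {n a s L b : ℕ} (hl : l.length = n + 1)
    (h1 : a + 2 ≤ s) (h2 : s + 2 * L + 2 + b ≤ n)
    (hct : ¬ Ct d (s + L) (fun i => (a < i ∧ i < s) ∨ (s + 2 * L < i ∧ i + b < n)) l) :
    VwAt R S (s + L) l ↔ Phi R S L (l.take (a + 1)) ((l.drop s).take (2 * L + 1)) (l.drop (n - b)) := by
  obtain ⟨x, hx⟩ : ∃ x, l[s + L]? = some x := by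
    rw [List.getElem?_eq_getElem (by omega)]
    exact ⟨_, rfl⟩
  have hx1 := getD_of hx
  have hx2 : ((l.drop s).take (2 * L + 1)).getD L 0 = x := by
    apply getD_of
    rw [List.getElem?_take_of_lt (by omega), List.getElem?_drop]
    exact hx
  unfold VwAt Phi Cyl
  rw [hx1, hx2, Set.mem_setOf_eq]
  refine forall_congr' fun e => imp_congr_right fun he => ?_
  rw [vw_iff]
  have key : Sym2.map (x + ·) e ∈ tr l ↔ Sym2.map (x + ·) e ∈ tr (l.take (a + 1)) ∪
      tr ((l.drop s).take (2 * L + 1)) ∪ tr (l.drop (n - b)) := by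
    constructor
    · intro h
      obtain ⟨i, u, v, hu, hv, hev⟩ := tr_inv h
      have hi : i + 1 < l.length := by
        by_contra hcon
        rw [List.getElem?_eq_none (by omega)] at hv
        simp at hv
      by_contra hcon
      rw [Finset.mem_union, Finset.mem_union, not_or, not_or] at hcon
      obtain ⟨⟨c1, c2⟩, c3⟩ := hcon
      have d1 : a ≤ i := by
        by_contra hlt
        apply c1
        rw [hev]
        apply tr_get (i := i)
        · rw [List.getElem?_take_of_lt (by omega)]; exact hu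
        · rw [List.getElem?_take_of_lt (by omega)]; exact hv
      have d2 : ¬ (s ≤ i ∧ i + 1 ≤ s + 2 * L) := by
        rintro ⟨g1, g2⟩
        apply c2
        rw [hev]
        apply tr_get (i := i - s)
        · rw [List.getElem?_take_of_lt (by omega), List.getElem?_drop, show s + (i - s) = i by omega]
          exact hu
        · rw [List.getElem?_take_of_lt (by omega), List.getElem?_drop,
            show s + (i - s + 1) = i + 1 by omega]
          exact hv
      have d3 : i + b < n := by
        by_contra hlt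
        apply c3
        rw [hev]
        apply tr_get (i := i - (n - b))
        · rw [List.getElem?_drop, show n - b + (i - (n - b)) = i by omega]
          exact hu
        · rw [List.getElem?_drop, show n - b + (i - (n - b) + 1) = i + 1 by omega]
          exact hv
      -- an endpoint in the gaps
      have main : ∀ i' w, l[i']? = some w → w ∈ Sym2.map (x + ·) e →
          ((a < i' ∧ i' < s) ∨ (s + 2 * L < i' ∧ i' + b < n)) → False := by
        intro i' w hw hwe hi'
        apply hct
        have hi'l : i' < l.length := by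
          by_contra hcon
          rw [List.getElem?_eq_none (by omega)] at hw
          simp at hw
        refine ⟨i', hi'l, hi', ?_⟩
        rw [hx1, getD_of hw]
        rw [Sym2.mem_map] at hwe
        obtain ⟨y, hy, rfl⟩ := hwe
        obtain ⟨p, a1, a2, a3, a4⟩ := lnk_of_near sqG hc (show x ∈ sqG.T from trivial) hx hw
          (m := s + L + i') (by omega) (by omega)
        have h3 := hk e he y hy ⟨s + L + i', p, a1, a2, a3.imp fun a b h => h.1, a4⟩
        have h4 := within_shift sqG (show x ∈ sqG.T from trivial) h3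
        rwa [add_zero] at h4
      have hue : u ∈ Sym2.map (x + ·) e := by rw [hev]; exact Sym2.mem_mk_left _ _
      have hve : v ∈ Sym2.map (x + ·) e := by rw [hev]; exact Sym2.mem_mk_right _ _
      rcases Nat.lt_or_ge i s with g | g
      · rcases Nat.lt_or_ge a i with g' | g'
        · exact main i u hu hue (Or.inl ⟨g', g⟩)
        · exact main (i + 1) v hv hve (Or.inl ⟨by omega, by omega⟩)
      · rcases Nat.lt_or_ge (s + 2 * L) i with g' | g'
        · exact main i u hu hue (Or.inr ⟨g', d3⟩)
        · exact main (i + 1) v hv hve (Or.inr ⟨by omega, by omega⟩)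
    · intro h
      rw [Finset.mem_union, Finset.mem_union] at h
      rcases h with (h | h) | h
      · exact tr_infix (List.take_prefix _ _).isInfix h
      · exact tr_infix ((List.take_prefix _ _).isInfix.trans (List.drop_suffix _ _).isInfix) h
      · exact tr_infix (List.drop_suffix _ _).isInfix h
  rw [key]

/-- the zone number `q` around the time `k` -/
def Zn (k L w q : ℕ) (i : ℕ) : Prop :=
  (k + L + q * w < i ∧ i ≤ k + L + (q + 1) * w) ∨ (i + L + q * w < k ∧ k ≤ i + L + (q + 1) * w)

theorem zn_inj {k L w q q' i : ℕ} (h : Zn k L w q i) (h' : Zn k L w q' i) : q = q' := by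
  unfold Zn at h h'
  by_contra hne
  rcases Nat.lt_or_gt_of_ne hne with g | g
  · have g1 : (q + 1) * w ≤ q' * w := Nat.mul_le_mul_right _ g
    rcases h with h | h <;> rcases h' with h' | h' <;> omega
  · have g1 : (q' + 1) * w ≤ q * w := Nat.mul_le_mul_right _ g
    rcases h with h | h <;> rcases h' with h' | h' <;> omega

theorem zone_count {l : List (ℤ × ℤ)} (hn : l.Nodup) (d k L w Q : ℕ) :
    ((Finset.range Q).filter (fun q => Ct d k (Zn k L w q) l)).card ≤ (2 * d + 1) ^ 2 := by
  have hex : ∀ q, ∃ i, Ct d k (Zn k L w q) l → i < l.length ∧ Zn k L w q i ∧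
      Within sqG d (l.getD k 0) (l.getD i 0) := by
    intro q
    by_cases h : Ct d k (Zn k L w q) l
    · obtain ⟨i, hi⟩ := h
      exact ⟨i, fun _ => hi⟩
    · exact ⟨0, fun h' => absurd h' h⟩
  choose f hf using hex
  have hB : (bx (d : ℤ) (l.getD k 0)).card = (2 * d + 1) ^ 2 := by
    rw [bx_card]
    congr 1
  rw [← hB]
  refine Finset.card_le_card_of_injOn (fun q => l.getD (f q) 0) ?_ ?_
  · intro q hq
    rw [Finset.mem_coe, Finset.mem_filter] at hq
    rw [Finset.mem_coe, mem_bx]
    exact lat2.loc d _ _ (within_symm sqG (hf q hq.2).2.2)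
  · intro q hq q' hq' h
    rw [Finset.mem_coe, Finset.mem_filter] at hq hq'
    obtain ⟨h1, h2, -⟩ := hf q hq.2
    obtain ⟨h1', h2', -⟩ := hf q' hq'.2
    simp only at h
    have e1 : f q = f q' := by
      rw [List.getD_eq_getElem _ _ h1, List.getD_eq_getElem _ _ h1'] at h
      exact (List.Nodup.getElem_inj_iff hn).1 h
    rw [e1] at h2
    exact zn_inj h2 h2'

/-- a zone with few contacts -/
theorem good_zone (n d k L w Q : ℕ) (hQ : 1 ≤ Q) : ∃ q < Q,
    Q * ((WL sqE n).filter (fun l => Ct d k (Zn k L w q) l)).card ≤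
      (2 * d + 1) ^ 2 * (WL sqE n).card := by
  by_contra hcon
  push Not at hcon
  have h1 : ∑ q ∈ Finset.range Q, ((WL sqE n).filter (fun l => Ct d k (Zn k L w q) l)).card ≤
      (2 * d + 1) ^ 2 * (WL sqE n).card := by
    have h2 : ∑ q ∈ Finset.range Q, ((WL sqE n).filter (fun l => Ct d k (Zn k L w q) l)).card =
        ∑ l ∈ WL sqE n, ((Finset.range Q).filter (fun q => Ct d k (Zn k L w q) l)).card := by
      simp only [Finset.card_filter]
      exact Finset.sum_comm
    rw [h2]
    refine (Finset.sum_le_card_nsmul _ _ ((2 * d + 1) ^ 2) fun l hl => ?_).trans ?_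
    · rw [mem_WL] at hl
      exact zone_count hl.1.2.1 d k L w Q
    · rw [smul_eq_mul, mul_comm]
  have h3 : ∑ q ∈ Finset.range Q, ((2 * d + 1) ^ 2 * (WL sqE n).card) <
      ∑ q ∈ Finset.range Q, (Q * ((WL sqE n).filter (fun l => Ct d k (Zn k L w q) l)).card) :=
    Finset.sum_lt_sum_of_nonempty (by simp; omega) fun q hq => hcon q (Finset.mem_range.1 hq)
  have e1 : ∑ _q ∈ Finset.range Q, ((2 * d + 1) ^ 2 * (WL sqE n).card) =
      Q * ((2 * d + 1) ^ 2 * (WL sqE n).card) := by
    rw [Finset.sum_const, Finset.card_range, smul_eq_mul]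
  rw [e1, ← Finset.mul_sum] at h3
  exact absurd (Nat.mul_le_mul_left Q h1) (not_le.2 h3)

end

end U443.GL
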