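import Pool.Agent.U443.GL.Pairs

/-!
# Exponentially few walks have many close vertices with a large gap
-/

set_option autoImplicit false

namespace U443.GL

open scoped Classical
open Filter Topology U443.LG U443.OS

noncomputable section

variable {G : Geo (ℤ × ℤ)} {μ : ℝ} {B : ℕ}

theorem mem_co {n : ℕ} {l : List (ℤ × ℤ)} (h : l ∈ WL G n) : ∃ r, l = 0 :: r ∧ r ∈ co G [0] n := by
  rw [mem_WL] at h
  obtain ⟨⟨h1, h2, h3⟩, h4⟩ := h
  rcases l with - | ⟨a, r⟩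
  · simp at h1
  simp only [List.head?_cons, Option.some.injEq] at h1
  subst h1
  refine ⟨r, rfl, ?_, h2, h3⟩
  simpa using h4

theorem block_count (hG : Lat G μ B) : ∃ K1 : ℝ, 0 ≤ K1 ∧ ∀ m : ℕ, 2 ≤ m →
    ((3 * (B * (WL G (m - 1)).card) : ℕ) : ℝ) ≤ μ ^ m * Real.exp (K1 * Real.log m ^ 2) := by
  obtain ⟨K, hK0, hK⟩ := hG.up
  have hl2 : 0 < Real.log 2 := Real.log_pos (by norm_num)
  have hmu := hG.one
  obtain ⟨D, hD⟩ : ∃ D : ℝ, D = 3 * B * ((WL G 1).card + 1) := ⟨_, rfl⟩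
  have hB1 : (1 : ℝ) ≤ B := by exact_mod_cast hG.pos
  have hW0 : (0 : ℝ) ≤ (WL G 1).card := Nat.cast_nonneg _
  have hD1 : 1 ≤ D := by rw [hD]; nlinarith
  have hlD : 0 ≤ Real.log D := Real.log_nonneg hD1
  refine ⟨K + Real.log D / Real.log 2 ^ 2, by positivity, fun m hm => ?_⟩
  have hm' : (2 : ℝ) ≤ m := by exact_mod_cast hm
  have hlm : Real.log 2 ≤ Real.log m := Real.log_le_log (by norm_num) hm'
  have h1 : Real.log D ≤ Real.log D / Real.log 2 ^ 2 * Real.log m ^ 2 := by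
    rw [div_mul_eq_mul_div, le_div_iff₀ (by positivity)]
    apply mul_le_mul_of_nonneg_left _ hlD
    exact pow_le_pow_left₀ hl2.le hlm 2
  have hDe : D = Real.exp (Real.log D) := (Real.exp_log (by linarith)).symm
  push_cast
  rcases Nat.lt_or_ge m 3 with h | h
  · have hm2 : m = 2 := by omega
    subst hm2
    have h3 : (1 : ℝ) ≤ μ ^ 2 := one_le_pow₀ hmu
    calc 3 * ((B : ℝ) * ((WL G (2 - 1)).card : ℝ)) ≤ D := by
          rw [hD]
          have : (WL G (2 - 1)).card = (WL G 1).card := rfl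
          rw [this]
          nlinarith
      _ = 1 * Real.exp (Real.log D) := by rw [one_mul]; exact hDe
      _ ≤ μ ^ 2 * Real.exp ((K + Real.log D / Real.log 2 ^ 2) * Real.log (2 : ℕ) ^ 2) := by
          apply mul_le_mul h3 _ (Real.exp_pos _).le (by positivity)
          rw [Real.exp_le_exp]
          nlinarith [sq_nonneg (Real.log (2 : ℕ))]
  · have h2 := hK (m - 1) (by omega)
    have h3 : Real.log ((m - 1 : ℕ) : ℝ) ^ 2 ≤ Real.log m ^ 2 := by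
      have h4 : (1 : ℝ) ≤ ((m - 1 : ℕ) : ℝ) := by exact_mod_cast (show 1 ≤ m - 1 by omega)
      apply pow_le_pow_left₀ (Real.log_nonneg h4)
      apply Real.log_le_log (by linarith)
      exact_mod_cast Nat.sub_le m 1
    have h5 : μ ^ (m - 1) ≤ μ ^ m := pow_le_pow_right₀ hmu (Nat.sub_le m 1)
    have h8 : 3 * (B : ℝ) ≤ Real.exp (Real.log D) := by rw [← hDe, hD]; nlinarith
    calc 3 * ((B : ℝ) * ((WL G (m - 1)).card : ℝ)) = 3 * B * (WL G (m - 1)).card := by ring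
      _ ≤ Real.exp (Real.log D) *
          (μ ^ (m - 1) * Real.exp (K * Real.log ((m - 1 : ℕ) : ℝ) ^ 2)) :=
          mul_le_mul h8 h2 (Nat.cast_nonneg _) (Real.exp_pos _).le
      _ ≤ Real.exp (Real.log D) * (μ ^ m * Real.exp (K * Real.log m ^ 2)) := by gcongr
      _ = μ ^ m * Real.exp (Real.log D + K * Real.log m ^ 2) := by rw [Real.exp_add]; ring
      _ ≤ _ := by
          gcongr
          nlinarith

theorem apart_bound (hG : Lat G μ B) {k m N r A : ℕ} (hm : 1 ≤ m) (hr : r ≤ m) {a : ℤ × ℤ}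
    {l : List (ℤ × ℤ)} (hl : (a :: l).Nodup)
    (hlen : l.length = N * m + r) (hA : lvs G B m k N [a] l < A) :
    apart G k m (a :: l) ≤ 9 ^ k * (2 * B ^ (k + 1) * (A + N) + m) := by
  refine (apart_le hG hm (by omega) hl hlen).trans ?_
  have h1 := nbs_le hG m k N [a] l
  have h2 : B ^ (k + 1) * (lvs G B m k N [a] l + N) ≤ 2 * B ^ (k + 1) * (A + N) := by
    rw [show 2 * B ^ (k + 1) * (A + N) = B ^ (k + 1) * (2 * (A + N)) by ring]
    exact Nat.mul_le_mul_left _ (by omega)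
  exact Nat.mul_le_mul (nine k) (by omega)

/-- **near pairs** -/
theorem near_pairs (hG : Lat G μ B) : ∃ K : ℕ, 1 ≤ K ∧ ∀ k m : ℕ, 2 ≤ m → ∃ c : ℝ, 0 < c ∧ ∀ᶠ n : ℕ in atTop,
    (((WL G n).filter (fun l => (K : ℝ) ^ (k + 1) * Real.log m ^ 2 * n / m <
      apart G k m l)).card : ℝ) ≤ Real.exp (-(c * n)) * (WL G n).card := by
  obtain ⟨K1, hK10, hK1⟩ := block_count hG
  have hl2 : 0 < Real.log 2 := Real.log_pos (by norm_num)
  have hmu := hG.one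
  have hmu0 : 0 < μ := lt_of_lt_of_le one_pos hmu
  obtain ⟨K2, hK2⟩ : ∃ K2 : ℝ, K2 = (K1 + 1) / Real.log 2 := ⟨_, rfl⟩
  have hK20 : 0 < K2 := by rw [hK2]; positivity
  obtain ⟨D, hD⟩ : ∃ D : ℝ, D = 4 * (K2 + 2 / Real.log 2 ^ 2) + 1 := ⟨_, rfl⟩
  have hD1 : 1 ≤ D := by
    rw [hD]
    have : 0 < 4 * (K2 + 2 / Real.log 2 ^ 2) := by positivity
    linarith
  obtain ⟨D', hD'⟩ : ∃ D' : ℕ, D' = ⌈D⌉₊ := ⟨_, rfl⟩
  have hDD : D ≤ D' := by rw [hD']; exact Nat.le_ceil D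
  have hD'1 : 1 ≤ D' := by
    have : (1 : ℝ) ≤ D' := hD1.trans hDD
    exact_mod_cast this
  have hB1 : 1 ≤ B := hG.pos
  refine ⟨9 * B * D', by nlinarith [Nat.mul_le_mul hB1 hD'1], fun k m hm => ?_⟩
  have hm' : (2 : ℝ) ≤ m := by exact_mod_cast hm
  have hm0 : (0 : ℝ) < m := by linarith
  obtain ⟨L, hL⟩ : ∃ L : ℝ, L = Real.log m := ⟨_, rfl⟩
  have hL2 : Real.log 2 ≤ L := by rw [hL]; exact Real.log_le_log (by norm_num) hm'
  have hL0 : 0 < L := lt_of_lt_of_le hl2 hL2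
  rw [← hL]
  refine ⟨L ^ 2 / (2 * m), by positivity, ?_⟩
  have hlim1 : Tendsto (fun n : ℕ => (L ^ 2 / (2 * m)) * (n : ℝ)) atTop atTop :=
    tendsto_natCast_atTop_atTop.const_mul_atTop (by positivity)
  have hlim2 : Tendsto (fun n : ℕ => (L ^ 2 / m) * (n : ℝ)) atTop atTop :=
    tendsto_natCast_atTop_atTop.const_mul_atTop (by positivity)
  have hlog2 := hl2
  filter_upwards [hlim1.eventually_ge_atTop (Real.log ((B : ℝ) ^ m * μ * Real.exp (L ^ 2))),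
    hlim2.eventually_ge_atTop (m : ℝ), eventually_ge_atTop 1, eventually_ge_atTop m] with
    n hn1 hn2 hn3 hn4
  have hn3' : (1 : ℝ) ≤ n := by exact_mod_cast hn3
  obtain ⟨N, hN⟩ : ∃ N, N = n / m := ⟨_, rfl⟩
  obtain ⟨r, hr⟩ : ∃ r, r = n % m := ⟨_, rfl⟩
  have hdm : n = N * m + r := by
    rw [hN, hr, mul_comm]
    exact (Nat.div_add_mod n m).symm
  have hrm : r < m := by rw [hr]; exact Nat.mod_lt _ (by omega)
  have hN1 : 1 ≤ N := by
    rw [hN]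
    exact (Nat.one_le_div_iff (by omega)).2 (by omega)
  have hN1' : (1 : ℝ) ≤ N := by exact_mod_cast hN1
  obtain ⟨A, hA⟩ : ∃ A : ℕ, A = ⌈K2 * N * L ^ 2⌉₊ := ⟨_, rfl⟩
  have hA1 : K2 * N * L ^ 2 ≤ A := by rw [hA]; exact Nat.le_ceil _
  have hA2 : (A : ℝ) ≤ K2 * N * L ^ 2 + 1 := by
    rw [hA]
    exact (Nat.ceil_lt_add_one (by positivity)).le
  -- real facts on `N`
  have hNm : (N : ℝ) * m ≤ 2 * n := by
    have h1 : N * m ≤ n + 1 := by omega
    have h2 : ((N * m : ℕ) : ℝ) ≤ ((n + 1 : ℕ) : ℝ) := by exact_mod_cast h1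
    push_cast at h2
    linarith
  have hNm2 : (n : ℝ) ≤ (N : ℝ) * m + m := by
    have h1 : n ≤ N * m + m := by omega
    exact_mod_cast h1
  -- the inclusion
  have hsub : ∀ l ∈ (WL G n).filter (fun l => ((9 * B * D' : ℕ) : ℝ) ^ (k + 1) * L ^ 2 * n / m <
      apart G k m l), l.tail ∈
      {l | l ∈ co G [0] (N * (m - 1 + 1) + r) ∧ A ≤ lvs G B (m - 1 + 1) k N [0] l} := by
    intro l hl
    rw [Finset.mem_filter] at hl
    obtain ⟨hl1, hl2⟩ := hl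
    rw [Set.mem_setOf_eq]
    have e1 : m - 1 + 1 = m := by omega
    rw [e1]
    obtain ⟨q, rfl, h1⟩ := mem_co hl1
    rw [List.tail_cons]
    rw [hdm] at h1
    refine ⟨h1, ?_⟩
    by_contra hcon
    rw [not_le] at hcon
    have h2 := apart_bound hG (k := k) (by omega) hrm.le ((mem_WL _).1 hl1).1.2.1 h1.1 hcon
    have h3 : (apart G k m (0 :: q) : ℝ) ≤ 9 ^ k * (2 * (B : ℝ) ^ (k + 1) * (A + N) + m) := by
      exact_mod_cast h2
    apply absurd hl2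
    rw [not_lt]
    refine h3.trans ?_
    have hB1' : (1 : ℝ) ≤ (B : ℝ) ^ (k + 1) := one_le_pow₀ (by exact_mod_cast hB1)
    have hN2 : (N : ℝ) ≤ 1 / Real.log 2 ^ 2 * (N * L ^ 2) := by
      rw [one_div, inv_mul_eq_div, le_div_iff₀ (by positivity)]
      apply mul_le_mul_of_nonneg_left _ (Nat.cast_nonneg _)
      exact pow_le_pow_left₀ hlog2.le hL2 2
    have hAN : (A : ℝ) + N ≤ (K2 + 2 / Real.log 2 ^ 2) * (N * L ^ 2) := by
      have e2 : (K2 + 2 / Real.log 2 ^ 2) * (N * L ^ 2) = K2 * N * L ^ 2 +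
          2 * (1 / Real.log 2 ^ 2 * (N * L ^ 2)) := by ring
      rw [e2]
      linarith
    have hNn : (N : ℝ) * L ^ 2 ≤ 2 * (L ^ 2 * n / m) := by
      rw [show 2 * (L ^ 2 * (n : ℝ) / m) = (2 * n * L ^ 2) / m by ring, le_div_iff₀ hm0]
      nlinarith [sq_nonneg L]
    have hmn : (m : ℝ) ≤ L ^ 2 * n / m := by
      calc (m : ℝ) ≤ L ^ 2 / m * n := hn2
        _ = _ := by ring
    obtain ⟨Z, hZ⟩ : ∃ Z : ℝ, Z = L ^ 2 * n / m := ⟨_, rfl⟩
    have hZ0 : 0 ≤ Z := by rw [hZ]; positivity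
    have e3 : ((9 * B * D' : ℕ) : ℝ) ^ (k + 1) * L ^ 2 * n / m =
        ((9 * B * D' : ℕ) : ℝ) ^ (k + 1) * Z := by rw [hZ]; ring
    rw [e3]
    rw [← hZ] at hNn hmn
    have hq0 : 0 < K2 + 2 / Real.log 2 ^ 2 := by positivity
    have h5 : 2 * (B : ℝ) ^ (k + 1) * (A + N) + m ≤ (B : ℝ) ^ (k + 1) * (D * Z) := by
      have h6 : (A : ℝ) + N ≤ (K2 + 2 / Real.log 2 ^ 2) * (2 * Z) :=
        hAN.trans (mul_le_mul_of_nonneg_left hNn hq0.le)
      have h7 : D * Z = 2 * ((K2 + 2 / Real.log 2 ^ 2) * (2 * Z)) + Z := by rw [hD]; ring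
      rw [h7, mul_add]
      have h8 : (m : ℝ) ≤ (B : ℝ) ^ (k + 1) * Z := by nlinarith
      have h9 := mul_le_mul_of_nonneg_left h6 (show (0 : ℝ) ≤ (B : ℝ) ^ (k + 1) by positivity)
      linarith
    have h10 : (D' : ℝ) ≤ (D' : ℝ) ^ (k + 1) := by
      have : (1 : ℝ) ≤ (D' : ℝ) := by exact_mod_cast hD'1
      exact le_self_pow₀ this (by omega)
    calc (9 : ℝ) ^ k * (2 * (B : ℝ) ^ (k + 1) * (A + N) + m) ≤
        (9 : ℝ) ^ (k + 1) * ((B : ℝ) ^ (k + 1) * (D * Z)) := by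
          apply mul_le_mul _ h5 (by positivity) (by positivity)
          exact pow_le_pow_right₀ (by norm_num) (by omega)
      _ ≤ (9 : ℝ) ^ (k + 1) * ((B : ℝ) ^ (k + 1) * ((D' : ℝ) ^ (k + 1) * Z)) := by
          have := hDD.trans h10
          gcongr
      _ = _ := by
          push_cast
          rw [mul_pow, mul_pow]
          ring
  have hfin : {l | l ∈ co G [0] (N * (m - 1 + 1) + r) ∧ A ≤ lvs G B (m - 1 + 1) k N [0] l}.Finite :=
    (co_finite (by simp) _).subset fun l hl => hl.1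
  have hcard : ((WL G n).filter (fun l => ((9 * B * D' : ℕ) : ℝ) ^ (k + 1) * L ^ 2 * n / m <
      apart G k m l)).card ≤
      {l | l ∈ co G [0] (N * (m - 1 + 1) + r) ∧ A ≤ lvs G B (m - 1 + 1) k N [0] l}.ncard := by
    rw [← Set.ncard_coe_finset]
    refine Set.ncard_le_ncard_of_injOn List.tail (fun l hl => hsub l hl) ?_ hfin
    intro l hl l' hl' h
    rw [Finset.mem_coe, Finset.mem_filter] at hl hl'
    obtain ⟨q, rfl, -⟩ := mem_co hl.1
    obtain ⟨q', rfl, -⟩ := mem_co hl'.1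
    simp only [List.tail_cons] at h
    rw [h]
  have hcn := count_nat hG (m - 1) k N r A
  have h1 : (2 : ℝ) ^ A * (((WL G n).filter (fun l => ((9 * B * D' : ℕ) : ℝ) ^ (k + 1) *
      L ^ 2 * n / m < apart G k m l)).card : ℝ) ≤
      (((3 * (B * (WL G (m - 1)).card) : ℕ) : ℝ)) ^ N * (B : ℝ) ^ r := by
    have h2 := (Nat.mul_le_mul_left (2 ^ A) hcard).trans hcn
    exact_mod_cast h2
  have h2 : (((3 * (B * (WL G (m - 1)).card) : ℕ) : ℝ)) ^ N * (B : ℝ) ^ r ≤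
      μ ^ (n + 1) * Real.exp (K1 * L ^ 2 * N) * (B : ℝ) ^ m := by
    have h3 : (((3 * (B * (WL G (m - 1)).card) : ℕ) : ℝ)) ^ N ≤ (μ ^ m * Real.exp (K1 * L ^ 2)) ^ N := by
      apply pow_le_pow_left₀ (Nat.cast_nonneg _)
      rw [hL]
      exact hK1 m hm
    have h4 : (μ ^ m * Real.exp (K1 * L ^ 2)) ^ N ≤ μ ^ (n + 1) * Real.exp (K1 * L ^ 2 * N) := by
      rw [mul_pow, ← pow_mul, ← Real.exp_nat_mul]
      have h5 : μ ^ (m * N) ≤ μ ^ (n + 1) :=
        pow_le_pow_right₀ hmu (by rw [mul_comm]; omega)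
      have e2 : (N : ℝ) * (K1 * L ^ 2) = K1 * L ^ 2 * N := by ring
      rw [e2]
      gcongr
    have h5 : (B : ℝ) ^ r ≤ (B : ℝ) ^ m := pow_le_pow_right₀ (by exact_mod_cast hB1) hrm.le
    exact mul_le_mul (h3.trans h4) h5 (by positivity) (by positivity)
  have h3 : Real.exp ((K1 + 1) * L ^ 2 * N) ≤ (2 : ℝ) ^ A := by
    have e2 : (2 : ℝ) ^ A = Real.exp (Real.log 2 * A) := by
      rw [mul_comm, Real.exp_nat_mul, Real.exp_log (by norm_num)]
    rw [e2, Real.exp_le_exp]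
    have h4 := mul_le_mul_of_nonneg_left hA1 hlog2.le
    have e3 : Real.log 2 * (K2 * N * L ^ 2) = (K1 + 1) * L ^ 2 * N := by
      rw [hK2]
      field_simp
    linarith
  obtain ⟨Bd, hBd⟩ : ∃ Bd : ℝ, Bd = (((WL G n).filter (fun l => ((9 * B * D' : ℕ) : ℝ) ^ (k + 1) *
      L ^ 2 * n / m < apart G k m l)).card : ℝ) := ⟨_, rfl⟩
  rw [← hBd] at h1 ⊢
  have hBd0 : 0 ≤ Bd := by rw [hBd]; exact Nat.cast_nonneg _
  have h4 : Real.exp ((K1 + 1) * L ^ 2 * N) * Bd ≤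
      μ ^ (n + 1) * Real.exp (K1 * L ^ 2 * N) * (B : ℝ) ^ m :=
    ((mul_le_mul_of_nonneg_right h3 hBd0).trans h1).trans h2
  have h5 : Bd ≤ μ ^ (n + 1) * (B : ℝ) ^ m * Real.exp (-(L ^ 2 * N)) := by
    have e2 : Real.exp ((K1 + 1) * L ^ 2 * N) =
        Real.exp (K1 * L ^ 2 * N) * Real.exp (L ^ 2 * N) := by
      rw [← Real.exp_add]; congr 1; ring
    rw [e2] at h4
    rw [Real.exp_neg]
    rw [← div_eq_mul_inv, le_div_iff₀ (Real.exp_pos _)]
    have hp := Real.exp_pos (K1 * L ^ 2 * N)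
    have h6 : Real.exp (K1 * L ^ 2 * N) * (Bd * Real.exp (L ^ 2 * N)) ≤
        Real.exp (K1 * L ^ 2 * N) * (μ ^ (n + 1) * (B : ℝ) ^ m) := by linarith
    exact le_of_mul_le_mul_left h6 hp
  have h6 : Real.exp (-(L ^ 2 * N)) ≤ Real.exp (L ^ 2) * Real.exp (-(L ^ 2 / m * n)) := by
    rw [← Real.exp_add, Real.exp_le_exp]
    have h7 : L ^ 2 / m * n ≤ L ^ 2 * N + L ^ 2 := by
      rw [div_mul_eq_mul_div, div_le_iff₀ hm0]
      nlinarith [sq_nonneg L]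
    linarith
  have hB0 : (0 : ℝ) < B := by exact_mod_cast hB1
  have hX : 0 < (B : ℝ) ^ m * μ * Real.exp (L ^ 2) := by positivity
  have h7 : (B : ℝ) ^ m * μ * Real.exp (L ^ 2) * Real.exp (-(L ^ 2 / m * n)) ≤
      Real.exp (-(L ^ 2 / (2 * m) * n)) := by
    rw [← Real.exp_log hX, ← Real.exp_add, Real.exp_le_exp]
    have e2 : L ^ 2 / m * (n : ℝ) = L ^ 2 / (2 * m) * n + L ^ 2 / (2 * m) * n := by
      field_simp
      ring
    linarith
  calc Bd ≤ μ ^ (n + 1) * (B : ℝ) ^ m * Real.exp (-(L ^ 2 * N)) := h5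
    _ ≤ μ ^ (n + 1) * (B : ℝ) ^ m * (Real.exp (L ^ 2) * Real.exp (-(L ^ 2 / m * n))) := by gcongr
    _ = ((B : ℝ) ^ m * μ * Real.exp (L ^ 2) * Real.exp (-(L ^ 2 / m * n))) * μ ^ n := by ring
    _ ≤ Real.exp (-(L ^ 2 / (2 * m) * n)) * μ ^ n := by gcongr
    _ ≤ _ := by
        gcongr
        exact hG.low n

end

end U443.GL
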