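import Pool.Agent.U443.GL.Fin

/-!
# Summary for general lattices
-/

set_option autoImplicit false

namespace U443.GL

open Finset MeasureTheory Filter Topology U443.LG U443.OS
open scoped Classical ENNReal

noncomputable section

variable {G : Geo (ℤ × ℤ)} {μ : ℝ} {B : ℕ}

/-- the uniform walk -/
theorem uniform_pieces (hG : Lat G μ B) {Bm : ℕ → List (ℤ × ℤ) → Prop} {c K C : ℝ} (hc : 0 < c) (hK0 : 0 ≤ K)
    (hC : 1 ≤ C) {n0 : ℕ} (hP : ∀ n m : ℕ, n0 ≤ m → ∀ v : ℤ × ℤ,
      (((WV G v n).filter (fun l => Bm m l)).card : ℝ) ≤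
        C * Real.exp (K * Real.log (n + 2) ^ 2) * Real.exp (-(c * m)) * μ ^ n) :
    ∃ c' C : ℝ, 0 < c' ∧ ∀ n : ℕ, 2 ≤ n → ∀ m : ℕ, C * Real.log n ^ 2 ≤ m →
      (((WL G n).filter (fun l => Bm m l)).card : ℝ) ≤
        Real.exp (-(c' * m)) * (WL G n).card := by
  have hl2 : 0 < Real.log 2 := Real.log_pos (by norm_num)
  obtain ⟨A, hA⟩ : ∃ A : ℝ, A = 2 / c * (4 * K + Real.log C / Real.log 2 ^ 2) +
    n0 / Real.log 2 ^ 2 := ⟨_, rfl⟩
  refine ⟨c / 2, A, by positivity, fun n hn m hm => ?_⟩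
  have hn' : (2 : ℝ) ≤ n := by exact_mod_cast hn
  have hln : Real.log 2 ≤ Real.log n := Real.log_le_log (by norm_num) hn'
  have hln2 : Real.log 2 ^ 2 ≤ Real.log n ^ 2 := pow_le_pow_left₀ hl2.le hln 2
  have hlC : 0 ≤ Real.log C := Real.log_nonneg hC
  have hn0 : (0 : ℝ) ≤ n0 := Nat.cast_nonneg _
  have hu1 : (n0 : ℝ) ≤ n0 / Real.log 2 ^ 2 * Real.log n ^ 2 := by
    rw [div_mul_eq_mul_div, le_div_iff₀ (by positivity)]
    gcongr
  have hu2 : Real.log C ≤ Real.log C / Real.log 2 ^ 2 * Real.log n ^ 2 := by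
    rw [div_mul_eq_mul_div, le_div_iff₀ (by positivity)]
    gcongr
  have hm1 : 2 / c * ((4 * K) * Real.log n ^ 2 + Real.log C) + n0 ≤ m := by
    refine le_trans ?_ hm
    rw [hA]
    have e1 : (2 / c * (4 * K + Real.log C / Real.log 2 ^ 2) + n0 / Real.log 2 ^ 2) *
        Real.log n ^ 2 = 2 / c * ((4 * K) * Real.log n ^ 2 +
          Real.log C / Real.log 2 ^ 2 * Real.log n ^ 2) +
          n0 / Real.log 2 ^ 2 * Real.log n ^ 2 := by ring
    rw [e1]
    gcongr
  have hmn0 : n0 ≤ m := by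
    have h1 : 0 ≤ 2 / c * ((4 * K) * Real.log n ^ 2 + Real.log C) := by positivity
    have : (n0 : ℝ) ≤ m := by linarith
    exact_mod_cast this
  have h1 := hP n m hmn0 0
  have e0 : WV G 0 n = WL G n := rfl
  rw [e0] at h1
  refine h1.trans ?_
  have hlog : Real.log ((n : ℝ) + 2) ^ 2 ≤ 4 * Real.log n ^ 2 := by
    have h2 : Real.log ((n : ℝ) + 2) ≤ 2 * Real.log n := by
      have h3 : Real.log ((n : ℝ) + 2) ≤ Real.log (n * n) :=
        Real.log_le_log (by linarith) (by nlinarith)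
      rw [Real.log_mul (by linarith) (by linarith)] at h3
      linarith
    have h4 : 0 ≤ Real.log ((n : ℝ) + 2) := Real.log_nonneg (by linarith)
    have := pow_le_pow_left₀ h4 h2 2
    linarith
  have h2 : C * Real.exp (K * Real.log (n + 2) ^ 2) * Real.exp (-(c * m)) ≤
      Real.exp (-(c / 2 * m)) := by
    have e1 : C * Real.exp (K * Real.log (n + 2) ^ 2) * Real.exp (-(c * m)) =
        Real.exp (Real.log C + K * Real.log (n + 2) ^ 2 + -(c * m)) := by
      rw [Real.exp_add, Real.exp_add, Real.exp_log (by linarith)]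
    rw [e1, Real.exp_le_exp]
    have h3 : (4 * K) * Real.log n ^ 2 + Real.log C ≤ c / 2 * m := by
      have h4 : 2 / c * ((4 * K) * Real.log n ^ 2 + Real.log C) ≤ m := by linarith
      calc (4 * K) * Real.log n ^ 2 + Real.log C =
            c / 2 * (2 / c * ((4 * K) * Real.log n ^ 2 + Real.log C)) := by field_simp
        _ ≤ _ := by gcongr
    nlinarith
  calc C * Real.exp (K * Real.log (n + 2) ^ 2) * Real.exp (-(c * m)) * μ ^ n ≤
        Real.exp (-(c / 2 * m)) * μ ^ n := by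
        apply mul_le_mul_of_nonneg_right h2
        have := hG.one
        positivity
    _ ≤ _ := by
        gcongr
        exact hG.low n

theorem exists_inf (hG : Lat G μ B) {K : ℕ} (hth : Thin G (kap K)) :
    ∃ P : Measure (Cfg (ℤ × ℤ)), Inf G (1 / μ) (kap K) P := by
  obtain ⟨c, hc, h⟩ := quenched_inf G (growth hG) hth one_pos ∅
  obtain ⟨n, h1, h2⟩ := (h.and (eventually_ge_atTop 1)).exists
  by_contra hcon
  push Not at hcon
  have h3 : (WL G n).filter (fun l => ¬ Close G (1 / μ) (kap K) 1 ∅ l) = WL G n := by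
    apply Finset.filter_true_of_mem
    rintro l - ⟨P, hP, -⟩
    exact hcon P hP
  rw [h3] at h1
  have h4 : (0 : ℝ) < (WL G n).card := by
    have := hG.low n
    have h5 := hG.one
    have : 0 < μ ^ n := by positivity
    linarith
  have h6 : Real.exp (-(c * n)) < 1 := by
    rw [Real.exp_lt_one_iff]
    have : (1 : ℝ) ≤ n := by exact_mod_cast h2
    nlinarith
  nlinarith


/-- **all pieces of almost all walks** -/
theorem all_pieces (hG : Lat G μ B) {K : ℕ} (hth : Thin G (kap K)) (R : Finset (Sym2 (ℤ × ℤ)))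
    {ε : ℝ} (hε : 0 < ε) : ∃ c C : ℝ, 0 < c ∧ ∀ n : ℕ, 2 ≤ n → ∀ m : ℕ, C * Real.log n ^ 2 ≤ m →
      (((WL G n).filter (fun l => ¬ TypG G (1 / μ) (kap K) ε R m l)).card : ℝ) ≤
        Real.exp (-(c * m)) * (WL G n).card := by
  obtain ⟨c, K2, C, h1, h2, h3, n0, h⟩ := pieces_in hG hth hε R
  obtain ⟨c', C', h4, h5⟩ := uniform_pieces hG (Bm := fun m l => ¬ TypG G (1 / μ) (kap K) ε R m l)
    h1 h2 h3 (n0 := n0) (fun n m hm v => by convert h n m hm v)
  exact ⟨c', C', h4, fun n hn m hm => by convert h5 n hn m hm⟩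

end

end U443.GL
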