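import Pool.Agent.U443.GL.Blk

/-!
# Pairs of close vertices with a large gap
-/

set_option autoImplicit false

namespace U443.GL

open scoped ENNReal Classical
open Filter Topology U443.LG U443.OS
open Pool.Agent.U372.HX (bx bx_card mem_bx cl)

noncomputable section

variable {G : Geo (ℤ × ℤ)} {μ : ℝ} {B : ℕ}

/-- positions in the blocks, close to the past of the block -/
def JJ (G : Geo (ℤ × ℤ)) (M k N : ℕ) (s l : List (ℤ × ℤ)) : Set ℕ :=
  {j | j < N * M ∧ ∃ v, l[j]? = some v ∧ ∃ u ∈ s ++ l.take ((j / M) * M), Within G k u v}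

theorem JJ_finite (M k N : ℕ) (s l : List (ℤ × ℤ)) : (JJ G M k N s l).Finite :=
  (Set.finite_lt_nat (N * M)).subset fun _ h => h.1

theorem JJ_le (M k : ℕ) (hM : 1 ≤ M) (N : ℕ) : ∀ s l : List (ℤ × ℤ), l.Nodup →
    (JJ G M k N s l).ncard ≤ nbs G M k N s l := by
  induction N with
  | zero =>
    intro s l _
    have : JJ G M k 0 s l = ∅ := by
      ext j
      simp [JJ]
    rw [this]
    simp
  | succ N ih =>
    intro s l hl
    obtain ⟨F, hF⟩ : ∃ F : Set ℕ, F = {j | j < M ∧ ∃ v, l[j]? = some v ∧
      ∃ u ∈ s, Within G k u v} := ⟨_, rfl⟩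
    have hFf : F.Finite := by
      rw [hF]
      exact (Set.finite_lt_nat M).subset fun _ h => h.1
    have hsub : JJ G M k (N + 1) s l ⊆
        F ∪ (fun j => j + M) '' (JJ G M k N (s ++ l.take M) (l.drop M)) := by
      rintro j ⟨h1, v, h2, h3⟩
      by_cases hj : j < M
      · left
        rw [hF]
        rw [Nat.div_eq_of_lt hj] at h3
        simp only [zero_mul, List.take_zero, List.append_nil] at h3
        exact ⟨hj, v, h2, h3⟩
      · right
        refine ⟨j - M, ⟨?_, v, ?_, ?_⟩, by simp only; omega⟩
        · rw [Nat.add_mul, one_mul] at h1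
          omega
        · rw [List.getElem?_drop]
          rw [show M + (j - M) = j by omega]
          exact h2
        · have e1 : j / M = (j - M) / M + 1 := by
            rw [Nat.div_eq_sub_div (by omega) (by omega)]
          have e2 : s ++ l.take ((j / M) * M) =
              (s ++ l.take M) ++ (l.drop M).take (((j - M) / M) * M) := by
            rw [e1, Nat.add_mul, one_mul, Nat.add_comm, List.take_add, List.append_assoc]
          rw [e2] at h3
          exact h3
    have hfin2 : ((fun j => j + M) '' (JJ G M k N (s ++ l.take M) (l.drop M))).Finite :=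
      (JJ_finite _ _ _ _ _).image _
    refine (Set.ncard_le_ncard hsub (hFf.union hfin2)).trans ?_
    refine (Set.ncard_union_le _ _).trans ?_
    unfold nbs
    refine add_le_add ?_ ?_
    · unfold nC
      rw [← Set.ncard_coe_finset]
      refine Set.ncard_le_ncard_of_injOn (fun j => l.getD j 0) ?_ ?_ (Finset.finite_toSet _)
      · intro j hj
        rw [hF] at hj
        obtain ⟨h1, v, h2, h3⟩ := hj
        have h4 : l.getD j 0 = v := by
          rw [List.getD_eq_getElem?_getD, h2]
          rfl
        rw [Finset.mem_coe, Finset.mem_filter, List.mem_toFinset]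
        simp only [h4]
        refine ⟨?_, h3⟩
        have h5 : (l.take M)[j]? = some v := by
          rw [List.getElem?_take_of_lt h1]
          exact h2
        exact List.mem_of_getElem? h5
      · intro i hi j hj hij
        rw [hF] at hi hj
        obtain ⟨-, v, h2, -⟩ := hi
        obtain ⟨-, v', h2', -⟩ := hj
        simp only [List.getD_eq_getElem?_getD, h2, h2', Option.getD_some] at hij
        subst hij
        exact (List.nodup_iff_getElem?_ne_getElem?.1 hl |> fun h => by
          by_contra hne
          rcases Nat.lt_or_gt_of_ne hne with h6 | h6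
          · have h7 : j < l.length := by
              by_contra h8
              rw [List.getElem?_eq_none (by omega)] at h2'
              simp at h2'
            exact h i j h6 h7 (h2.trans h2'.symm)
          · have h7 : i < l.length := by
              by_contra h8
              rw [List.getElem?_eq_none (by omega)] at h2
              simp at h2
            exact h j i h6 h7 (h2'.trans h2.symm))
    · rw [Set.ncard_image_of_injective _ (add_left_injective M)]
      exact ih _ _ ((List.drop_sublist M l).nodup hl)

theorem apart_le (hG : Lat G μ B) {M k m N r : ℕ} (hM : 1 ≤ M) (hm : M ≤ m + 1) {a : ℤ × ℤ}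
    {l : List (ℤ × ℤ)} (hl : (a :: l).Nodup) (hlen : l.length = N * M + r) :
    apart G k m (a :: l) ≤ (2 * k + 1) ^ 2 * (nbs G M k N [a] l + r) := by
  obtain ⟨J, hJ⟩ : ∃ J : Set ℕ, J = JJ G M k N [a] l ∪ {j | N * M ≤ j ∧ j < N * M + r} := ⟨_, rfl⟩
  have hRf : ({j | N * M ≤ j ∧ j < N * M + r} : Set ℕ).Finite :=
    (Set.finite_lt_nat (N * M + r)).subset fun _ h => h.2
  have hJf : J.Finite := by
    rw [hJ]
    exact (JJ_finite _ _ _ _ _).union hRf
  have hJc : J.ncard ≤ nbs G M k N [a] l + r := by
    rw [hJ]
    refine (Set.ncard_union_le _ _).trans (add_le_add (JJ_le M k hM N [a] l (List.nodup_cons.1 hl).2) ?_)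
    have e : ({j | N * M ≤ j ∧ j < N * M + r} : Set ℕ) = ((Finset.Ico (N * M) (N * M + r) : Finset ℕ) : Set ℕ) := by
      ext j
      simp
    rw [e, Set.ncard_coe_finset]
    simp
  obtain ⟨Bx, hB⟩ : ∃ Bx : Finset (ℤ × ℤ), Bx = bx (k : ℤ) 0 := ⟨_, rfl⟩
  have hBc : Bx.card = (2 * k + 1) ^ 2 := by
    rw [hB, bx_card]
    congr 1
  unfold apart
  have h1 : (J ×ˢ (Bx : Set (ℤ × ℤ))).ncard = J.ncard * (2 * k + 1) ^ 2 := by
    rw [Set.ncard_prod, Set.ncard_coe_finset, hBc]
  refine le_trans (Set.ncard_le_ncard_of_injOn (t := J ×ˢ (Bx : Set (ℤ × ℤ)))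
    (fun q => (q.2 - 1, (a :: l).getD q.1 0 - (a :: l).getD q.2 0)) ?_ ?_
      (hJf.prod (Finset.finite_toSet _))) ?_
  · rintro ⟨i, j⟩ ⟨h2, x, y, h3, h4, h5⟩
    simp only at h2 h3 h4
    have hx : (a :: l).getD i 0 = x := by rw [List.getD_eq_getElem?_getD, h3]; rfl
    have hy : (a :: l).getD j 0 = y := by rw [List.getD_eq_getElem?_getD, h4]; rfl
    have hj : j < (a :: l).length := by
      by_contra h8
      rw [List.getElem?_eq_none (by omega)] at h4
      simp at h4
    obtain ⟨j', rfl⟩ : ∃ j', j = j' + 1 := ⟨j - 1, by omega⟩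
    rw [List.getElem?_cons_succ] at h4
    rw [List.length_cons] at hj
    refine ⟨?_, ?_⟩
    · simp only
      rw [Nat.add_sub_cancel, hJ]
      by_cases h7 : j' < N * M
      · left
        refine ⟨h7, y, h4, x, ?_, h5⟩
        have h8 : i < 1 + (j' / M) * M := by
          have h9 := Nat.div_add_mod j' M
          have h10 := Nat.mod_lt j' (show M > 0 by omega)
          rw [mul_comm] at h9
          omega
        rcases Nat.eq_zero_or_pos i with h9 | h9
        · subst h9
          rw [List.getElem?_cons_zero, Option.some.injEq] at h3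
          rw [← h3]
          simp
        · obtain ⟨i', rfl⟩ : ∃ i', i = i' + 1 := ⟨i - 1, by omega⟩
          rw [List.getElem?_cons_succ] at h3
          have h9 : (l.take ((j' / M) * M))[i']? = some x := by
            rw [List.getElem?_take_of_lt (by omega)]
            exact h3
          exact List.mem_append_right _ (List.mem_of_getElem? h9)
      · right
        exact ⟨by omega, by omega⟩
    · simp only
      rw [hx, hy, hB, Finset.mem_coe, mem_bx]
      obtain ⟨h7, h8⟩ := hG.loc k x y h5
      unfold cl
      simp only [Prod.fst_sub, Prod.snd_sub, Prod.fst_zero, Prod.snd_zero, sub_zero]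
      exact ⟨h7, h8⟩
  · rintro ⟨i, j⟩ ⟨h2, x, y, h3, h4, h5⟩ ⟨i', j'⟩ ⟨h2', x', y', h3', h4', h5'⟩ he
    simp only [Prod.mk.injEq] at h2 h3 h4 h2' h3' h4' he
    obtain ⟨hjj, he⟩ := he
    have hjj' : j = j' := by omega
    subst hjj'
    have hx : (a :: l).getD i 0 = x := by rw [List.getD_eq_getElem?_getD, h3]; rfl
    have hx' : (a :: l).getD i' 0 = x' := by rw [List.getD_eq_getElem?_getD, h3']; rfl
    rw [sub_left_inj, hx, hx'] at he
    subst he
    rw [Prod.mk.injEq]
    refine ⟨?_, rfl⟩
    have h := List.nodup_iff_getElem?_ne_getElem?.1 hl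
    by_contra hne
    rcases Nat.lt_or_gt_of_ne hne with h6 | h6
    · have h7 : i' < (a :: l).length := by
        by_contra h8
        rw [List.getElem?_eq_none (by omega)] at h3'
        simp at h3'
      exact h i i' h6 h7 (h3.trans h3'.symm)
    · have h7 : i < (a :: l).length := by
        by_contra h8
        rw [List.getElem?_eq_none (by omega)] at h3
        simp at h3
      exact h i' i h6 h7 (h3'.trans h3.symm)
  · rw [h1, mul_comm]
    exact Nat.mul_le_mul_left _ hJc

end

end U443.GL
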