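import Pool.Agent.U443.GL.Fx

/-!
# Pieces around a time
-/

set_option autoImplicit false

namespace U443.GL

open Finset MeasureTheory Filter Topology U443.LG U443.OS
open scoped Classical ENNReal
open Pool.Agent.U372.HX (bx bx_card mem_bx cl)

noncomputable section

theorem mem_Ts {V : Type} [AddCommGroup V] (G : Geo V) {l : List V} {x : V} :
    x ∈ Ts G l ↔ x ∈ l ∧ x ∈ G.T := by
  unfold Ts
  rw [Finset.mem_filter, List.mem_toFinset]

theorem parity_at {v : ℤ × ℤ} {l : List (ℤ × ℤ)} (h : Walk sqE.Adj v l) : ∀ (t : ℕ) (u : ℤ × ℤ),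
    l[t]? = some u → (u.1 + u.2 - v.1 - v.2 - t) % 2 = 0 := by
  intro t
  induction t with
  | zero =>
    intro u hu
    have h1 := h.1
    rw [List.head?_eq_getElem?, hu, Option.some.injEq] at h1
    subst h1
    simp
  | succ t ih =>
    intro u hu
    have hi : t + 1 < l.length := by
      by_contra hcon
      rw [List.getElem?_eq_none (by omega)] at hu
      simp at hu
    have h1 : l[t]? = some l[t] := List.getElem?_eq_getElem (by omega)
    have h2 := ih _ h1
    rw [List.getElem?_eq_getElem hi, Option.some.injEq] at hu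
    have h3 : Adj2 l[t] l[t + 1] := List.isChain_iff_getElem.1 h.2.2 t hi
    rw [hu] at h3
    unfold Adj2 at h3
    have h4 := abs_nonneg (u.1 - l[t].1)
    have h5 := abs_nonneg (u.2 - l[t].2)
    push_cast
    rcases abs_cases (u.1 - l[t].1) with h6 | h6 <;> rcases abs_cases (u.2 - l[t].2) with h7 | h7 <;>
      omega

/-- the points in `T` of a piece -/
theorem Ts_piece {v : ℤ × ℤ} {l : List (ℤ × ℤ)} (h : Walk sqE.Adj v l) {i J : ℕ}
    (hl : i + 4 * J + 1 ≤ l.length) (hp : (v.1 + v.2 + i) % 2 = 0) (p : ℤ × ℤ → Prop) :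
    ((Ts sqE ((l.drop i).take (4 * J + 1))).filter p).card =
      ((Finset.range (2 * J + 1)).filter (fun j => p (l.getD (i + 2 * j) 0))).card := by
  symm
  refine Finset.card_nbij (fun j => l.getD (i + 2 * j) 0) ?_ ?_ ?_
  · intro j hj
    rw [Finset.mem_coe, Finset.mem_filter, Finset.mem_range] at hj
    obtain ⟨h1, h2⟩ := hj
    obtain ⟨u, hu⟩ : ∃ u, l[i + 2 * j]? = some u := by
      rw [List.getElem?_eq_getElem (by omega)]
      exact ⟨_, rfl⟩
    simp only
    rw [getD_of hu] at h2 ⊢
    rw [Finset.mem_coe, Finset.mem_filter, mem_Ts]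
    refine ⟨⟨?_, ?_⟩, h2⟩
    · apply List.mem_of_getElem? (i := 2 * j)
      rw [List.getElem?_take_of_lt (by omega), List.getElem?_drop]
      exact hu
    · rw [mem_T]
      have h4 := parity_at h _ _ hu
      push_cast at h4
      omega
  · intro j hj j' hj' hjj
    rw [Finset.mem_coe, Finset.mem_filter, Finset.mem_range] at hj hj'
    simp only at hjj
    rw [List.getD_eq_getElem _ _ (by omega), List.getD_eq_getElem _ _ (by omega)] at hjj
    have := (List.Nodup.getElem_inj_iff h.2.1).1 hjj
    omega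
  · intro x hx
    rw [Finset.mem_coe, Finset.mem_filter, mem_Ts] at hx
    obtain ⟨⟨h1, h2⟩, h3⟩ := hx
    obtain ⟨q, hq⟩ := List.mem_iff_getElem?.1 h1
    have hq1 : q < 4 * J + 1 := by
      by_contra hcon
      rw [List.getElem?_eq_none (by rw [List.length_take]; omega)] at hq
      simp at hq
    rw [List.getElem?_take_of_lt hq1, List.getElem?_drop] at hq
    have h4 := parity_at h _ _ hq
    have h5 : (x.1 + x.2) % 2 = 0 := mem_T.1 h2
    obtain ⟨j, hj⟩ : ∃ j, q = 2 * j := ⟨q / 2, by push_cast at h4; omega⟩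
    subst hj
    refine ⟨j, ?_, getD_of hq⟩
    rw [Finset.mem_coe, Finset.mem_filter, Finset.mem_range, getD_of hq]
    exact ⟨by omega, h3⟩

theorem Ts_piece_card {v : ℤ × ℤ} {l : List (ℤ × ℤ)} (h : Walk sqE.Adj v l) {i J : ℕ}
    (hl : i + 4 * J + 1 ≤ l.length) (hp : (v.1 + v.2 + i) % 2 = 0) :
    (Ts sqE ((l.drop i).take (4 * J + 1))).card = 2 * J + 1 := by
  have h1 := Ts_piece h hl hp (fun _ => True)
  simpa using h1

/-- the view from the points of the piece, for the walk moved by `v` -/
theorem view_piece {v : ℤ × ℤ} {l : List (ℤ × ℤ)} (h : Walk sqE.Adj 0 l) {i J : ℕ}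
    (hl : i + 4 * J + 1 ≤ l.length) (hp : (v.1 + v.2 + i) % 2 = 0)
    (R S : Finset (Sym2 (ℤ × ℤ))) :
    (empIn sqE (l.map (v + ·)) (((l.map (v + ·)).drop i).take (4 * J + 1))).real (Cyl R S) =
      (((Finset.range (2 * J + 1)).filter (fun j => VwAt R S (i + 2 * j) l)).card : ℝ) /
        (2 * J + 1) := by
  have hw : Walk sqE.Adj v (l.map (v + ·)) := by
    have h1 := walk_map sqG (show v ∈ sqG.T from trivial) (v := 0) (l := l) h
    rw [add_zero] at h1
    exact h1
  have hl' : i + 4 * J + 1 ≤ (l.map (v + ·)).length := by rw [List.length_map]; exact hl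
  rw [empIn_real sqE (dep_cyl R S).meas, Ts_piece hw hl' hp, Ts_piece_card hw hl' hp]
  push_cast
  congr 2
  congr 1
  apply Finset.filter_congr
  intro j hj
  rw [Finset.mem_range] at hj
  obtain ⟨u, hu⟩ : ∃ u, l[i + 2 * j]? = some u := by
    rw [List.getElem?_eq_getElem (by omega)]
    exact ⟨_, rfl⟩
  have hu' : (l.map (v + ·))[i + 2 * j]? = some (v + u) := by
    rw [List.getElem?_map, hu]
    rfl
  unfold VwAt
  rw [getD_of hu, getD_of hu', vw_map]

/-- contacts of a piece with the rest -/
theorem contact_count {l : List (ℤ × ℤ)} (hn : l.Nodup) {i J d : ℕ}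
    (hl : i + 4 * J + 1 ≤ l.length) :
    ((Finset.range (2 * J + 1)).filter (fun j => Ct d (i + 2 * j)
      (fun q => q < i ∨ i + 4 * J < q) l)).card ≤
      nC sqE d (l.take i) ((l.drop i).take (4 * J + 1)) +
      (2 * d + 1) ^ 2 * nC sqE d ((l.drop i).take (4 * J + 1)) ((l.drop i).drop (4 * J + 1)) := by
  obtain ⟨β, hβ⟩ : ∃ β, β = (l.drop i).take (4 * J + 1) := ⟨_, rfl⟩
  obtain ⟨s, hs⟩ : ∃ s, s = l.take i := ⟨_, rfl⟩
  obtain ⟨t, ht⟩ : ∃ t, t = (l.drop i).drop (4 * J + 1) := ⟨_, rfl⟩
  rw [← hβ, ← hs, ← ht]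
  have h1 : ((Finset.range (2 * J + 1)).filter (fun j => Ct d (i + 2 * j)
      (fun q => q < i ∨ i + 4 * J < q) l)).card ≤
      (β.toFinset.filter (fun x => ∃ u ∈ s, Within sqE d u x) ∪
      (t.toFinset.filter (fun u => ∃ x ∈ β, Within sqE d x u)).biUnion (fun u => bx d u)).card := by
    refine Finset.card_le_card_of_injOn (fun j => l.getD (i + 2 * j) 0) ?_ ?_
    · intro j hj
      rw [Finset.mem_coe, Finset.mem_filter, Finset.mem_range] at hj
      obtain ⟨hj1, q, hq1, hq2, hq3⟩ := hj
      obtain ⟨x, hx⟩ : ∃ x, l[i + 2 * j]? = some x := by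
        rw [List.getElem?_eq_getElem (by omega)]
        exact ⟨_, rfl⟩
      obtain ⟨u, hu⟩ : ∃ u, l[q]? = some u := by
        rw [List.getElem?_eq_getElem (by omega)]
        exact ⟨_, rfl⟩
      rw [getD_of hx, getD_of hu] at hq3
      have hxβ : x ∈ β := by
        rw [hβ]
        apply List.mem_of_getElem? (i := 2 * j)
        rw [List.getElem?_take_of_lt (by omega), List.getElem?_drop]
        exact hx
      rw [Finset.mem_coe, Finset.mem_union]
      simp only
      rw [getD_of hx]
      rcases hq2 with hq2 | hq2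
      · left
        rw [Finset.mem_filter, List.mem_toFinset]
        refine ⟨hxβ, u, ?_, within_symm sqE hq3⟩
        rw [hs]
        apply List.mem_of_getElem? (i := q)
        rw [List.getElem?_take_of_lt hq2]
        exact hu
      · right
        rw [Finset.mem_biUnion]
        refine ⟨u, ?_, ?_⟩
        · rw [Finset.mem_filter, List.mem_toFinset]
          refine ⟨?_, x, hxβ, hq3⟩
          rw [ht]
          apply List.mem_of_getElem? (i := q - (i + (4 * J + 1)))
          rw [List.getElem?_drop, List.getElem?_drop,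
            show i + (4 * J + 1 + (q - (i + (4 * J + 1)))) = q by omega]
          exact hu
        · rw [mem_bx]
          exact latE.loc d x u hq3
    · intro j hj j' hj' hjj
      rw [Finset.mem_coe, Finset.mem_filter, Finset.mem_range] at hj hj'
      simp only at hjj
      rw [List.getD_eq_getElem _ _ (by omega), List.getD_eq_getElem _ _ (by omega)] at hjj
      have := (List.Nodup.getElem_inj_iff hn).1 hjj
      omega
  refine h1.trans ((Finset.card_union_le _ _).trans ?_)
  refine add_le_add le_rfl ?_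
  rw [mul_comm]
  refine Finset.card_biUnion_le_card_mul _ _ _ fun u _ => ?_
  rw [bx_card]
  apply le_of_eq
  congr 1

/-- contacts of a piece which is not crowded -/
theorem contact_real {l : List (ℤ × ℤ)} (hn : l.Nodup) {i J d : ℕ}
    (hl : i + 4 * J + 1 ≤ l.length) {S : ℝ} (h : ¬ Crowd sqE 1000000000 d S i (4 * J) l) :
    (((Finset.range (2 * J + 1)).filter (fun j => Ct d (i + 2 * j)
      (fun q => q < i ∨ i + 4 * J < q) l)).card : ℝ) ≤
      (1 + (2 * d + 1) ^ 2) * (1000000000 ^ (d + 1) * S) := by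
  have h1 := contact_count (d := d) hn hl
  unfold Crowd at h
  rw [not_or] at h
  obtain ⟨h2, h3⟩ := h
  unfold Exc at h2 h3
  rw [not_lt] at h2 h3
  rw [List.take_take, min_eq_left (by omega), List.drop_take,
    show i + 4 * J + 1 - i = 4 * J + 1 by omega] at h2
  have h4 : (((Finset.range (2 * J + 1)).filter (fun j => Ct d (i + 2 * j)
      (fun q => q < i ∨ i + 4 * J < q) l)).card : ℝ) ≤
      (nC sqE d (l.take i) ((l.drop i).take (4 * J + 1)) : ℝ) +
      (2 * d + 1) ^ 2 *
        (nC sqE d ((l.drop i).take (4 * J + 1)) ((l.drop i).drop (4 * J + 1)) : ℝ) := by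
    exact_mod_cast h1
  have h5 := mul_le_mul_of_nonneg_left h3 (show (0 : ℝ) ≤ (2 * d + 1) ^ 2 by positivity)
  push_cast at h2 h5
  linarith

end

end U443.GL
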