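import Pool.Agent.U443.GL.Wt

/-!
# All pieces of the walk
-/

set_option autoImplicit false

namespace U443.GL

open Finset MeasureTheory Filter Topology U443.LG U443.OS
open scoped Classical ENNReal

noncomputable section

variable {G : Geo (ℤ × ℤ)} {μ : ℝ} {B : ℕ}

/-- number of the walks from any point -/
theorem all_count (hG : Lat G μ B) : ∃ K C : ℝ, 0 ≤ K ∧ 1 ≤ C ∧ ∀ n : ℕ, ∀ v : ℤ × ℤ,
    ((WV G v n).card : ℝ) ≤ C * Real.exp (K * Real.log (n + 2) ^ 2) * μ ^ n := by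
  obtain ⟨K, hK0, hK⟩ := hG.up
  obtain ⟨C, hC⟩ : ∃ C : ℝ, C = 1 + (WL G 0).card + (WL G 1).card := ⟨_, rfl⟩
  have h0 : (0 : ℝ) ≤ (WL G 0).card := Nat.cast_nonneg _
  have h1 : (0 : ℝ) ≤ (WL G 1).card := Nat.cast_nonneg _
  have hC1 : 1 ≤ C := by linarith
  have hmu := hG.one
  have hmu0 : 0 < μ := lt_of_lt_of_le one_pos hmu
  have key : ∀ n : ℕ, ((WL G n).card : ℝ) ≤ C * Real.exp (K * Real.log (n + 2) ^ 2) * μ ^ n := by
    intro n
    have hm : (1 : ℝ) ≤ μ ^ n := one_le_pow₀ hmu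
    have he : (1 : ℝ) ≤ Real.exp (K * Real.log (n + 2) ^ 2) := Real.one_le_exp (by positivity)
    rcases Nat.lt_or_ge n 2 with h | h
    · have h2 : ((WL G n).card : ℝ) ≤ C := by
        interval_cases n
        · linarith
        · linarith
      calc ((WL G n).card : ℝ) ≤ C * 1 * 1 := by linarith
        _ ≤ _ := by gcongr
    · have hn : (2 : ℝ) ≤ n := by exact_mod_cast h
      have h3 : Real.log n ≤ Real.log (n + 2) := Real.log_le_log (by linarith) (by linarith)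
      have h4 : 0 ≤ Real.log n := Real.log_nonneg (by linarith)
      calc ((WL G n).card : ℝ) ≤ μ ^ n * Real.exp (K * (Real.log n) ^ 2) := hK n h
        _ ≤ μ ^ n * Real.exp (K * Real.log (n + 2) ^ 2) := by gcongr
        _ = 1 * Real.exp (K * Real.log (n + 2) ^ 2) * μ ^ n := by ring
        _ ≤ _ := by gcongr
  exact ⟨K, C, hK0, hC1, fun n v => le_trans (by exact_mod_cast WV_le hG v n) (key n)⟩

/-- **walks with a long exceptional piece** -/
theorem pieces_count (hG : Lat G μ B) {E : List (ℤ × ℤ) → Prop} {c : ℝ} (hc : 0 < c) {n0 : ℕ}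
    (h : ∀ n : ℕ, n0 ≤ n → ∀ v : ℤ × ℤ,
      (((WV G v n).filter (fun l => E l)).card : ℝ) ≤ Real.exp (-(c * n)) * μ ^ n) :
    ∃ K C : ℝ, 0 ≤ K ∧ 1 ≤ C ∧ ∀ n m : ℕ, n0 ≤ m → ∀ v : ℤ × ℤ,
      (((WV G v n).filter (fun l => HasP m E l)).card : ℝ) ≤
        C * Real.exp (K * Real.log (n + 2) ^ 2) * Real.exp (-(c * m)) * μ ^ n := by
  obtain ⟨K, C, hK0, hC, hw⟩ := all_count hG
  have hmu := hG.one
  have hmu0 : 0 < μ := lt_of_lt_of_le one_pos hmu
  have hl2 : 0 < Real.log 2 := Real.log_pos (by norm_num)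
  refine ⟨2 * K + 2 / Real.log 2, C ^ 2, by positivity, one_le_pow₀ hC, fun n m hm v => ?_⟩
  have hn0 : (0 : ℝ) ≤ n := Nat.cast_nonneg _
  have hlog : ∀ k : ℕ, k ≤ n → Real.exp (K * Real.log (k + 2) ^ 2) ≤
      Real.exp (K * Real.log (n + 2) ^ 2) := by
    intro k hk
    rw [Real.exp_le_exp]
    have hk' : (k : ℝ) ≤ n := by exact_mod_cast hk
    have hk0 : (0 : ℝ) ≤ k := Nat.cast_nonneg _
    have h2 : 0 ≤ Real.log ((k : ℝ) + 2) := Real.log_nonneg (by linarith)
    have h3 : Real.log ((k : ℝ) + 2) ≤ Real.log (n + 2) := Real.log_le_log (by linarith) (by linarith)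
    gcongr
  obtain ⟨X, hX⟩ : ∃ X : ℝ, X = Real.exp (K * Real.log (n + 2) ^ 2) := ⟨_, rfl⟩
  have hX0 : 0 < X := by rw [hX]; exact Real.exp_pos _
  rw [← hX] at hlog
  obtain ⟨T, hT⟩ : ∃ T : Finset (ℕ × ℕ), T = ((Finset.range (n + 1)) ×ˢ (Finset.range (n + 1))).filter
      (fun q => m ≤ q.2 ∧ q.1 + q.2 ≤ n) := ⟨_, rfl⟩
  have hsub : (WV G v n).filter (fun l => HasP m E l) ⊆ T.biUnion (fun q =>
      (WV G v n).filter (fun l => E ((l.drop q.1).take (q.2 + 1)))) := by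
    intro l hl
    rw [Finset.mem_filter] at hl
    obtain ⟨i, k, h1, h2, h3⟩ := hasP_iff ((mem_WV G).1 hl.1).2 hl.2
    rw [Finset.mem_biUnion]
    refine ⟨(i, k), ?_, ?_⟩
    · rw [hT, Finset.mem_filter, Finset.mem_product, Finset.mem_range, Finset.mem_range]
      exact ⟨⟨by simp only; omega, by simp only; omega⟩, h1, h2⟩
    · rw [Finset.mem_filter]
      exact ⟨hl.1, h3⟩
  have hterm : ∀ q ∈ T, (((WV G v n).filter
      (fun l => E ((l.drop q.1).take (q.2 + 1)))).card : ℝ) ≤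
      C ^ 2 * X ^ 2 * Real.exp (-(c * m)) * μ ^ n := by
    rintro ⟨i, k⟩ hq
    rw [hT, Finset.mem_filter] at hq
    obtain ⟨-, h1, h2⟩ := hq
    simp only at h1 h2 ⊢
    obtain ⟨j, hj⟩ : ∃ j, n = i + (k + j) := ⟨n - i - k, by omega⟩
    have h3 := piece_real G v i k j E (wi := C * X * μ ^ i)
      (β := Real.exp (-(c * m)) * μ ^ k) (wj := C * X * μ ^ j)
      ((hw i v).trans (by
        have := hlog i (by omega)
        gcongr)) (fun u => (h k (by omega) u).trans (by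
        have : (m : ℝ) ≤ k := by exact_mod_cast h1
        gcongr)) (fun u => (hw j u).trans (by
        have := hlog j (by omega)
        gcongr))
    rw [← hj] at h3
    refine h3.trans (le_of_eq ?_)
    have e1 : μ ^ n = μ ^ i * μ ^ k * μ ^ j := by rw [hj, pow_add, pow_add]; ring
    rw [e1]
    ring
  have hTc : (T.card : ℝ) ≤ (n + 1) ^ 2 := by
    have h1 : T.card ≤ (n + 1) ^ 2 := by
      rw [hT]
      refine (Finset.card_filter_le _ _).trans ?_
      rw [Finset.card_product, Finset.card_range, sq]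
    exact_mod_cast h1
  have h1 : (((WV G v n).filter (fun l => HasP m E l)).card : ℝ) ≤
      ∑ q ∈ T, (((WV G v n).filter (fun l => E ((l.drop q.1).take (q.2 + 1)))).card : ℝ) := by
    have h2 := (Finset.card_le_card hsub).trans Finset.card_biUnion_le
    exact_mod_cast h2
  have hY0 : 0 ≤ C ^ 2 * X ^ 2 * Real.exp (-(c * m)) * μ ^ n := by positivity
  have h2 : (((WV G v n).filter (fun l => HasP m E l)).card : ℝ) ≤
      (n + 1) ^ 2 * (C ^ 2 * X ^ 2 * Real.exp (-(c * m)) * μ ^ n) := by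
    refine h1.trans ((Finset.sum_le_sum hterm).trans ?_)
    rw [Finset.sum_const, nsmul_eq_mul]
    exact mul_le_mul_of_nonneg_right hTc hY0
  refine h2.trans ?_
  have h3 : ((n : ℝ) + 1) ^ 2 * X ^ 2 ≤
      Real.exp ((2 * K + 2 / Real.log 2) * Real.log (n + 2) ^ 2) := by
    have hL : Real.log 2 ≤ Real.log ((n : ℝ) + 2) := Real.log_le_log (by norm_num) (by linarith)
    have e1 : ((n : ℝ) + 1) ^ 2 ≤ Real.exp (2 * Real.log (n + 2)) := by
      have e2 : Real.exp (2 * Real.log ((n : ℝ) + 2)) = (n + 2) ^ 2 := by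
        have : 2 * Real.log ((n : ℝ) + 2) = ((2 : ℕ) : ℝ) * Real.log (n + 2) := by norm_num
        rw [this, Real.exp_nat_mul, Real.exp_log (by linarith)]
      rw [e2]
      gcongr
      norm_num
    have e3 : X ^ 2 = Real.exp (2 * (K * Real.log (n + 2) ^ 2)) := by
      rw [hX, ← Real.exp_nat_mul]
      norm_num
    rw [e3]
    calc ((n : ℝ) + 1) ^ 2 * Real.exp (2 * (K * Real.log (n + 2) ^ 2)) ≤
          Real.exp (2 * Real.log (n + 2)) * Real.exp (2 * (K * Real.log (n + 2) ^ 2)) := by gcongr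
      _ = Real.exp (2 * Real.log (n + 2) + 2 * (K * Real.log (n + 2) ^ 2)) := by
          rw [Real.exp_add]
      _ ≤ _ := by
          rw [Real.exp_le_exp]
          have e4 : 2 * Real.log ((n : ℝ) + 2) ≤ 2 / Real.log 2 * Real.log (n + 2) ^ 2 := by
            rw [div_mul_eq_mul_div, le_div_iff₀ hl2]
            nlinarith
          nlinarith
  calc ((n : ℝ) + 1) ^ 2 * (C ^ 2 * X ^ 2 * Real.exp (-(c * m)) * μ ^ n) =
        C ^ 2 * (((n : ℝ) + 1) ^ 2 * X ^ 2) * Real.exp (-(c * m)) * μ ^ n := by ring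
    _ ≤ _ := by gcongr

end

end U443.GL
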