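import Pool.Agent.U443.GL.Par

/-!
# Constants, and the averages over a piece
-/

set_option autoImplicit false

namespace U443.GL

open Finset MeasureTheory Filter Topology U443.LG U443.OS
open scoped Classical ENNReal

noncomputable section

theorem small_exp {C K c δ : ℝ} (hC : 0 < C) (hK : 0 ≤ K) (hc : 0 < c) (hδ : 0 < δ) :
    ∃ D : ℝ, 0 ≤ D ∧ ∀ n : ℕ, 2 ≤ n → ∀ m : ℕ, D * Real.log n ^ 2 ≤ m →
      C * Real.exp (K * Real.log (n + 2) ^ 2) * Real.exp (-(c * m)) ≤ δ := by
  have hl2 : 0 < Real.log 2 := Real.log_pos (by norm_num)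
  obtain ⟨E, hE⟩ : ∃ E : ℝ, E = |Real.log (C / δ)| := ⟨_, rfl⟩
  have hE0 : 0 ≤ E := by rw [hE]; exact abs_nonneg _
  refine ⟨(4 * K + E / Real.log 2 ^ 2) / c, by positivity, fun n hn m hm => ?_⟩
  have hn' : (2 : ℝ) ≤ n := by exact_mod_cast hn
  have hln : Real.log 2 ≤ Real.log n := Real.log_le_log (by norm_num) hn'
  have hln2 : Real.log 2 ^ 2 ≤ Real.log n ^ 2 := pow_le_pow_left₀ hl2.le hln 2
  have hlog : Real.log ((n : ℝ) + 2) ^ 2 ≤ 4 * Real.log n ^ 2 := by
    have h2 : Real.log ((n : ℝ) + 2) ≤ 2 * Real.log n := by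
      have h3 : Real.log ((n : ℝ) + 2) ≤ Real.log (n * n) :=
        Real.log_le_log (by linarith) (by nlinarith)
      rw [Real.log_mul (by linarith) (by linarith)] at h3
      linarith
    have h4 : 0 ≤ Real.log ((n : ℝ) + 2) := Real.log_nonneg (by linarith)
    have := pow_le_pow_left₀ h4 h2 2
    linarith
  have h1 : (4 * K + E / Real.log 2 ^ 2) * Real.log n ^ 2 ≤ c * m := by
    have h2 : c * ((4 * K + E / Real.log 2 ^ 2) / c * Real.log n ^ 2) ≤ c * m :=
      mul_le_mul_of_nonneg_left hm hc.le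
    calc _ = c * ((4 * K + E / Real.log 2 ^ 2) / c * Real.log n ^ 2) := by field_simp
      _ ≤ _ := h2
  have h2 : E ≤ E / Real.log 2 ^ 2 * Real.log n ^ 2 := by
    rw [div_mul_eq_mul_div, le_div_iff₀ (by positivity)]
    gcongr
  have h3 : Real.log (C / δ) ≤ E := by rw [hE]; exact le_abs_self _
  have h4 : K * Real.log ((n : ℝ) + 2) ^ 2 + Real.log (C / δ) ≤ c * m := by
    have := mul_le_mul_of_nonneg_left hlog hK
    nlinarith
  have e1 : C = Real.exp (Real.log (C / δ)) * δ := by
    rw [Real.exp_log (by positivity)]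
    field_simp
  calc C * Real.exp (K * Real.log (n + 2) ^ 2) * Real.exp (-(c * m)) =
        δ * Real.exp (K * Real.log (n + 2) ^ 2 + Real.log (C / δ) + -(c * m)) := by
        rw [Real.exp_add, Real.exp_add]
        conv_lhs => rw [e1]
        ring
    _ ≤ δ * 1 := by
        gcongr
        rw [Real.exp_le_one_iff]
        linarith
    _ = δ := mul_one _

theorem ct_mono {d t : ℕ} {I I' : ℕ → Prop} {l : List (ℤ × ℤ)} (h : ∀ i, I i → I' i)
    (hc : Ct d t I l) : Ct d t I' l := by
  obtain ⟨i, h1, h2, h3⟩ := hc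
  exact ⟨i, h1, h _ h2, h3⟩

/-- two properties which agree outside of an exceptional set -/
theorem card_diff {s : Finset (List (ℤ × ℤ))} {P Q E : List (ℤ × ℤ) → Prop}
    (h : ∀ l ∈ s, ¬ E l → (P l ↔ Q l)) :
    |((s.filter P).card : ℝ) - ((s.filter Q).card : ℝ)| ≤ ((s.filter E).card : ℝ) := by
  have h1 : (s.filter P).card ≤ (s.filter Q).card + (s.filter E).card := by
    refine (Finset.card_le_card (t := s.filter Q ∪ s.filter E) ?_).trans (Finset.card_union_le _ _)
    intro l hl
    rw [Finset.mem_filter] at hl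
    rw [Finset.mem_union, Finset.mem_filter, Finset.mem_filter]
    by_cases hE : E l
    · exact Or.inr ⟨hl.1, hE⟩
    · exact Or.inl ⟨hl.1, (h l hl.1 hE).1 hl.2⟩
  have h2 : (s.filter Q).card ≤ (s.filter P).card + (s.filter E).card := by
    refine (Finset.card_le_card (t := s.filter P ∪ s.filter E) ?_).trans (Finset.card_union_le _ _)
    intro l hl
    rw [Finset.mem_filter] at hl
    rw [Finset.mem_union, Finset.mem_filter, Finset.mem_filter]
    by_cases hE : E l
    · exact Or.inr ⟨hl.1, hE⟩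
    · exact Or.inl ⟨hl.1, (h l hl.1 hE).2 hl.2⟩
  have h1' : ((s.filter P).card : ℝ) ≤ (s.filter Q).card + (s.filter E).card := by exact_mod_cast h1
  have h2' : ((s.filter Q).card : ℝ) ≤ (s.filter P).card + (s.filter E).card := by exact_mod_cast h2
  rw [abs_le]
  constructor <;> linarith

/-- contacts, summed over the times of a piece -/
theorem sum_contacts {n i J d : ℕ} (hi : i + 4 * J ≤ n) {S : ℝ} (hS : 0 ≤ S) :
    ∑ j ∈ Finset.range (2 * J + 1), (((WL sqE n).filter (fun l => Ct d (i + 2 * j)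
      (fun q => q < i ∨ i + 4 * J < q) l)).card : ℝ) ≤
      (2 * J + 1) * ((WL sqE n).filter (fun l => Crowd sqE 1000000000 d S i (4 * J) l)).card +
      (1 + (2 * d + 1) ^ 2) * (1000000000 ^ (d + 1) * S) * (WL sqE n).card := by
  have h1 : ∑ j ∈ Finset.range (2 * J + 1), (((WL sqE n).filter (fun l => Ct d (i + 2 * j)
      (fun q => q < i ∨ i + 4 * J < q) l)).card : ℝ) =
      ∑ l ∈ WL sqE n, (((Finset.range (2 * J + 1)).filter (fun j => Ct d (i + 2 * j)
        (fun q => q < i ∨ i + 4 * J < q) l)).card : ℝ) := by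
    simp only [Finset.card_filter, Nat.cast_sum]
    exact Finset.sum_comm
  rw [h1]
  have h2 : ∀ l ∈ WL sqE n, (((Finset.range (2 * J + 1)).filter (fun j => Ct d (i + 2 * j)
        (fun q => q < i ∨ i + 4 * J < q) l)).card : ℝ) ≤
      (if Crowd sqE 1000000000 d S i (4 * J) l then (2 * (J : ℝ) + 1) else 0) +
      (1 + (2 * d + 1) ^ 2) * (1000000000 ^ (d + 1) * S) := by
    intro l hl
    rw [mem_WL] at hl
    split_ifs with hcr
    · have h3 : ((Finset.range (2 * J + 1)).filter (fun j => Ct d (i + 2 * j)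
        (fun q => q < i ∨ i + 4 * J < q) l)).card ≤ 2 * J + 1 :=
        (Finset.card_filter_le _ _).trans (by rw [Finset.card_range])
      have h4 : (((Finset.range (2 * J + 1)).filter (fun j => Ct d (i + 2 * j)
        (fun q => q < i ∨ i + 4 * J < q) l)).card : ℝ) ≤ 2 * J + 1 := by exact_mod_cast h3
      have h5 : 0 ≤ (1 + (2 * (d : ℝ) + 1) ^ 2) * (1000000000 ^ (d + 1) * S) := by positivity
      linarith
    · rw [zero_add]
      exact contact_real hl.1.2.1 (by omega) hcr
  refine (Finset.sum_le_sum h2).trans ?_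
  rw [Finset.sum_add_distrib, Finset.sum_const, nsmul_eq_mul, ← Finset.sum_filter, Finset.sum_const,
    nsmul_eq_mul]
  apply le_of_eq
  ring

end

end U443.GL
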