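import Pool.Agent.U443.GL.PoD
import Pool.Agent.U443.GL.Sml
import Pool.Agent.U443.GL.Cvx
import Pool.Agent.TH546.SG.Inst2

/-!
# Self-avoiding polygons: loops as lists, and their views
-/

set_option autoImplicit false

namespace U443.GL

open Finset MeasureTheory Filter Topology U443.LG U443.OS
open scoped Classical ENNReal
open Pool.Agent.TH546.SAW (IsL PL mem_PL rt rt_mem sum_rt cast_inj)

noncomputable section

/-- the sites of the loop -/
def lst (N : ℕ) (f : ZMod (2 * N) → ℤ × ℤ) : List (ℤ × ℤ) :=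
  (List.range (2 * N)).map (fun i : ℕ => f (i : ZMod (2 * N)))

theorem lst_length (N : ℕ) (f : ZMod (2 * N) → ℤ × ℤ) : (lst N f).length = 2 * N := by
  unfold lst
  rw [List.length_map, List.length_range]

theorem lst_get {N : ℕ} (f : ZMod (2 * N) → ℤ × ℤ) {i : ℕ} (hi : i < 2 * N) :
    (lst N f)[i]? = some (f (i : ZMod (2 * N))) := by
  unfold lst
  rw [List.getElem?_map, List.getElem?_range hi]
  rfl

theorem lst_inv {N : ℕ} {f : ZMod (2 * N) → ℤ × ℤ} {i : ℕ} {u : ℤ × ℤ}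
    (h : (lst N f)[i]? = some u) : i < 2 * N ∧ u = f (i : ZMod (2 * N)) := by
  have hi : i < 2 * N := by
    by_contra hcon
    rw [List.getElem?_eq_none (by rw [lst_length]; omega)] at h
    simp at h
  rw [lst_get f hi, Option.some.injEq] at h
  exact ⟨hi, h.symm⟩

theorem lst_mem_WL {N : ℕ} (hN : 1 ≤ N) {f : ZMod (2 * N) → ℤ × ℤ} (hf : IsL N f) :
    lst N f ∈ WL sqG (2 * N - 1) := by
  obtain ⟨h0, h1, h2⟩ := hf
  rw [mem_WL]
  refine ⟨⟨?_, ?_, ?_⟩, by rw [lst_length]; omega⟩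
  · rw [List.head?_eq_getElem?, lst_get f (by omega), Nat.cast_zero, h0]
  · unfold lst
    refine List.Nodup.map_on ?_ List.nodup_range
    intro i hi j hj hij
    rw [List.mem_range] at hi hj
    exact cast_inj hi hj (h1 hij)
  · rw [List.isChain_iff_getElem]
    intro i hi
    have hi' : i + 1 < 2 * N := by
      rw [lst_length] at hi
      omega
    have e1 : (lst N f)[i] = f (i : ZMod (2 * N)) := by
      have := lst_get f (show i < 2 * N by omega)
      rwa [List.getElem?_eq_getElem (by rw [lst_length]; omega), Option.some.injEq] at this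
    have e2 : (lst N f)[i + 1] = f ((i + 1 : ℕ) : ZMod (2 * N)) := by
      have := lst_get f hi'
      rwa [List.getElem?_eq_getElem (by rw [lst_length]; omega), Option.some.injEq] at this
    rw [e1, e2]
    have := h2 (i : ZMod (2 * N))
    push_cast
    exact this

theorem lst_inj {N : ℕ} (hN : 1 ≤ N) {f f' : ZMod (2 * N) → ℤ × ℤ} (h : lst N f = lst N f') :
    f = f' := by
  have : NeZero (2 * N) := ⟨by omega⟩
  funext i
  have h1 := lst_get f (ZMod.val_lt i)
  have h2 := lst_get f' (ZMod.val_lt i)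
  rw [h, h2, ZMod.natCast_zmod_val, Option.some.injEq] at h1
  exact h1.symm

theorem pvw_iff {N : ℕ} {f : ZMod (2 * N) → ℤ × ℤ} {x : ℤ × ℤ} {e : Sym2 (ℤ × ℤ)} :
    pvw f x e = true ↔ Sym2.map (x + ·) e ∈ pe f := by
  unfold pvw
  rw [decide_eq_true_iff]

theorem pe_rt {N : ℕ} {f : ZMod (2 * N) → ℤ × ℤ} {i : ZMod (2 * N)} {e : Sym2 (ℤ × ℤ)} :
    e ∈ pe (rt i f) ↔ Sym2.map (f i + ·) e ∈ pe f := by
  unfold pe rt
  constructor
  · rintro ⟨k, rfl⟩
    refine ⟨i + k, ?_⟩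
    rw [Sym2.map_mk, add_assoc]
    simp
  · rintro ⟨k, hk⟩
    refine ⟨k - i, ?_⟩
    have h1 := congrArg (Sym2.map (-f i + ·)) hk
    rw [LG.map_neg'] at h1
    rw [h1, Sym2.map_mk, show i + (k - i) = k by ring, show i + (k - i + 1) = k + 1 by ring,
      neg_add_eq_sub, neg_add_eq_sub]

theorem pvw_rt {N : ℕ} {f : ZMod (2 * N) → ℤ × ℤ} {i j : ZMod (2 * N)} :
    pvw (rt i f) (rt i f j) = pvw f (f (i + j)) := by
  funext e
  have h : Sym2.map (rt i f j + ·) e ∈ pe (rt i f) ↔ Sym2.map (f (i + j) + ·) e ∈ pe f := by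
    rw [pe_rt, map_comp]
    unfold rt
    rw [add_sub_cancel]
  unfold pvw
  rw [decide_eq_decide]
  exact h

theorem pe_lst {N : ℕ} (hN : 1 ≤ N) {f : ZMod (2 * N) → ℤ × ℤ} {e : Sym2 (ℤ × ℤ)} :
    e ∈ pe f ↔ e ∈ tr (lst N f) ∨ e = s(f (-1), f 0) := by
  have : NeZero (2 * N) := ⟨by omega⟩
  constructor
  · rintro ⟨i, rfl⟩
    have hi := ZMod.val_lt i
    have e1 := lst_get f hi
    rw [ZMod.natCast_zmod_val] at e1
    by_cases h : i.val + 1 < 2 * N
    · left
      have e2 := lst_get f h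
      push_cast at e2
      rw [ZMod.natCast_zmod_val] at e2
      exact tr_get e1 e2
    · right
      have h1 : i.val + 1 = 2 * N := by omega
      have h2 : i + 1 = 0 := by
        have h3 := congrArg (fun k : ℕ => (k : ZMod (2 * N))) h1
        simp only [Nat.cast_add, ZMod.natCast_zmod_val, Nat.cast_one, ZMod.natCast_self] at h3
        exact h3
      rw [h2, ← eq_neg_of_add_eq_zero_left h2]
  · rintro (h | rfl)
    · obtain ⟨i, u, v, h1, h2, rfl⟩ := tr_inv h
      obtain ⟨h3, rfl⟩ := lst_inv h1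
      obtain ⟨h4, rfl⟩ := lst_inv h2
      exact ⟨i, by push_cast; rfl⟩
    · exact ⟨-1, by rw [neg_add_cancel]⟩

/-- the vertices from which the edge `u, v` lies in the window -/
def Sp (R : Finset (Sym2 (ℤ × ℤ))) (u v : ℤ × ℤ) : Finset (ℤ × ℤ) :=
  R.biUnion (fun e => {u - (Quot.out e).1, v - (Quot.out e).1})

theorem card_Sp (R : Finset (Sym2 (ℤ × ℤ))) (u v : ℤ × ℤ) : (Sp R u v).card ≤ 2 * R.card := by
  unfold Sp
  rw [mul_comm]
  exact Finset.card_biUnion_le_card_mul _ _ _ fun e _ => Finset.card_le_two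

theorem mem_Sp {R : Finset (Sym2 (ℤ × ℤ))} {u v x : ℤ × ℤ} {e : Sym2 (ℤ × ℤ)} (he : e ∈ R)
    (h : Sym2.map (x + ·) e = s(u, v)) : x ∈ Sp R u v := by
  unfold Sp
  rw [Finset.mem_biUnion]
  refine ⟨e, he, ?_⟩
  have h1 : (Quot.out e).1 ∈ e := Sym2.out_fst_mem e
  have h2 : x + (Quot.out e).1 ∈ Sym2.map (x + ·) e := Sym2.mem_map.2 ⟨_, h1, rfl⟩
  rw [h, Sym2.mem_iff] at h2
  rw [Finset.mem_insert, Finset.mem_singleton]
  rcases h2 with h2 | h2
  · left
    rw [← h2, add_sub_cancel_right]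
  · right
    rw [← h2, add_sub_cancel_right]

theorem pvw_cyl {N : ℕ} (hN : 1 ≤ N) {f : ZMod (2 * N) → ℤ × ℤ} {R S : Finset (Sym2 (ℤ × ℤ))}
    {x : ℤ × ℤ} (hx : x ∉ Sp R (f (-1)) (f 0)) : pvw f x ∈ Cyl R S ↔ vw (lst N f) x ∈ Cyl R S := by
  have key : ∀ e ∈ R, (pvw f x e = true ↔ vw (lst N f) x e = true) := by
    intro e he
    rw [pvw_iff, vw_iff, pe_lst hN]
    constructor
    · rintro (h | h)
      · exact h
      · exact absurd (mem_Sp he h) hx
    · exact Or.inl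
  constructor
  · intro h1 e he
    rw [← key e he]
    exact h1 e he
  · intro h1 e he
    rw [key e he]
    exact h1 e he

theorem mem_TsG {l : List (ℤ × ℤ)} {x : ℤ × ℤ} : x ∈ Ts sqG l ↔ x ∈ l :=
  (mem_Ts sqG).trans ⟨fun h => h.1, fun h => ⟨h, trivial⟩⟩

theorem arc_zero {x : ℝ} {κ : ℕ → ℕ → ℝ} {ε : ℝ} {R : Finset (Sym2 (ℤ × ℤ))} {N k : ℕ}
    (hN : 1 ≤ N) (hk : k + 1 ≤ 2 * N) {f : ZMod (2 * N) → ℤ × ℤ} (hf : IsL N f)
    (hk2 : 4 * (R.card : ℝ) ≤ ε * (k + 1 : ℕ))
    (h : CloseIn sqG x κ (ε / 2) R (lst N f) ((lst N f).take (k + 1))) :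
    ArcClose x κ ε R f 0 k := by
  obtain ⟨P, hP, h1⟩ := h
  refine ⟨P, hP, fun S hS => ?_⟩
  have h2 := h1 S hS
  rw [empIn_real sqG (dep_cyl R S).meas] at h2
  have hw := (mem_WL sqG).1 (lst_mem_WL hN hf)
  have hT : Ts sqG ((lst N f).take (k + 1)) =
      (Finset.range (k + 1)).image (fun j : ℕ => f (j : ZMod (2 * N))) := by
    ext y
    rw [mem_TsG, Finset.mem_image]
    constructor
    · intro hy
      obtain ⟨j, hj⟩ := List.mem_iff_getElem?.1 hy
      have hjk : j < k + 1 := by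
        by_contra hcon
        rw [List.getElem?_eq_none (by rw [List.length_take, lst_length]; omega)] at hj
        simp at hj
      rw [List.getElem?_take_of_lt hjk] at hj
      exact ⟨j, Finset.mem_range.2 hjk, (lst_inv hj).2.symm⟩
    · rintro ⟨j, hj, rfl⟩
      rw [Finset.mem_range] at hj
      apply List.mem_of_getElem? (i := j)
      rw [List.getElem?_take_of_lt hj]
      exact lst_get f (by omega)
  have hinj : Set.InjOn (fun j : ℕ => f (j : ZMod (2 * N))) (Finset.range (k + 1) : Set ℕ) := by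
    intro a ha b hb hab
    rw [Finset.mem_coe, Finset.mem_range] at ha hb
    exact cast_inj (by omega) (by omega) (hf.2.1 hab)
  have hTc : (Ts sqG ((lst N f).take (k + 1))).card = k + 1 := by
    rw [hT, Finset.card_image_of_injOn hinj, Finset.card_range]
  have hTf : ((Ts sqG ((lst N f).take (k + 1))).filter (fun y => vw (lst N f) y ∈ Cyl R S)).card =
      ((Finset.range (k + 1)).filter
        (fun j : ℕ => vw (lst N f) (f (j : ZMod (2 * N))) ∈ Cyl R S)).card := by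
    rw [hT, Finset.filter_image, Finset.card_image_of_injOn]
    exact hinj.mono (by
      rw [Finset.coe_subset]
      exact Finset.filter_subset _ _)
  rw [hTf, hTc] at h2
  simp only [zero_add]
  obtain ⟨A, hA⟩ : ∃ A, A = (Finset.range (k + 1)).filter
      (fun j : ℕ => pvw f (f (j : ZMod (2 * N))) ∈ Cyl R S) := ⟨_, rfl⟩
  obtain ⟨B, hB⟩ : ∃ B, B = (Finset.range (k + 1)).filter
      (fun j : ℕ => vw (lst N f) (f (j : ZMod (2 * N))) ∈ Cyl R S) := ⟨_, rfl⟩
  obtain ⟨D, hD⟩ : ∃ D, D = (Finset.range (k + 1)).filter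
      (fun j : ℕ => f (j : ZMod (2 * N)) ∈ Sp R (f (-1)) (f 0)) := ⟨_, rfl⟩
  rw [← hA]
  rw [← hB] at h2
  have hDc : D.card ≤ 2 * R.card := by
    refine le_trans ?_ (card_Sp R (f (-1)) (f 0))
    rw [hD]
    refine Finset.card_le_card_of_injOn (fun j : ℕ => f (j : ZMod (2 * N))) ?_ ?_
    · intro j hj
      exact (Finset.mem_filter.1 hj).2
    · exact hinj.mono (by
        rw [Finset.coe_subset]
        exact Finset.filter_subset _ _)
  have hAB : A.card ≤ B.card + D.card := by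
    refine (Finset.card_le_card (t := B ∪ D) ?_).trans (Finset.card_union_le _ _)
    intro j hj
    rw [hA, Finset.mem_filter] at hj
    rw [Finset.mem_union, hB, hD, Finset.mem_filter, Finset.mem_filter]
    by_cases hs : f (j : ZMod (2 * N)) ∈ Sp R (f (-1)) (f 0)
    · exact Or.inr ⟨hj.1, hs⟩
    · exact Or.inl ⟨hj.1, (pvw_cyl hN hs).1 hj.2⟩
  have hBA : B.card ≤ A.card + D.card := by
    refine (Finset.card_le_card (t := A ∪ D) ?_).trans (Finset.card_union_le _ _)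
    intro j hj
    rw [hB, Finset.mem_filter] at hj
    rw [Finset.mem_union, hA, hD, Finset.mem_filter, Finset.mem_filter]
    by_cases hs : f (j : ZMod (2 * N)) ∈ Sp R (f (-1)) (f 0)
    · exact Or.inr ⟨hj.1, hs⟩
    · exact Or.inl ⟨hj.1, (pvw_cyl hN hs).2 hj.2⟩
  have hAB' : (A.card : ℝ) ≤ B.card + D.card := by exact_mod_cast hAB
  have hBA' : (B.card : ℝ) ≤ A.card + D.card := by exact_mod_cast hBA
  have hDc' : (D.card : ℝ) ≤ 2 * R.card := by exact_mod_cast hDc
  have hk0 : (0 : ℝ) < ((k + 1 : ℕ) : ℝ) := by positivity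
  have h3 : |(A.card : ℝ) / (k + 1 : ℕ) - B.card / (k + 1 : ℕ)| ≤ ε / 2 := by
    rw [← sub_div, abs_div, abs_of_pos hk0, div_le_iff₀ hk0, abs_le]
    constructor <;> linarith
  rw [abs_le] at h2 h3 ⊢
  constructor <;> linarith [h2.1, h2.2, h3.1, h3.2]

theorem arc_rt {x : ℝ} {κ : ℕ → ℕ → ℝ} {ε : ℝ} {R : Finset (Sym2 (ℤ × ℤ))} {N k : ℕ}
    {f : ZMod (2 * N) → ℤ × ℤ} {i : ZMod (2 * N)} (h : ArcClose x κ ε R (rt i f) 0 k) :
    ArcClose x κ ε R f i k := by
  obtain ⟨P, hP, h1⟩ := h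
  refine ⟨P, hP, fun S hS => ?_⟩
  have h2 := h1 S hS
  simp only [zero_add, pvw_rt] at h2
  exact h2

end

end U443.GL
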