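import Pool.Agent.U443.GL.Po
import Pool.Agent.U443.GL.Sml

/-!
# Local limits of self-avoiding polygons
-/

set_option autoImplicit false

namespace U443.GL

open Finset MeasureTheory Filter Topology U443.LG U443.OS
open scoped Classical ENNReal
open Pool.Agent.TH546.SAW (IsL PL mem_PL rt rt_mem sum_rt cast_inj)

noncomputable section

/-- invariance under rerooting -/
theorem card_rt {N : ℕ} (hN : 1 ≤ N) (i : ZMod (2 * N)) (Q : (ZMod (2 * N) → ℤ × ℤ) → Prop) :
    (((PL N).filter (fun f => Q (rt i f))).card : ℝ) = ((PL N).filter Q).card := by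
  have h := sum_rt hN i (fun f => if Q f then (1 : ℝ) else 0)
  simp only [Finset.sum_boole] at h
  exact h

/-- the exceptional loops as walks -/
theorem bad_lst {N : ℕ} (hN : 1 ≤ N) (Q : List (ℤ × ℤ) → Prop) :
    (((PL N).filter (fun f => Q (lst N f))).card : ℝ) ≤ ((WL sqG (2 * N - 1)).filter Q).card := by
  have h : ((PL N).filter (fun f => Q (lst N f))).card ≤ ((WL sqG (2 * N - 1)).filter Q).card := by
    refine Finset.card_le_card_of_injOn (lst N) ?_ (fun f _ f' _ h => lst_inj hN h)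
    intro f hf
    rw [Finset.mem_coe, Finset.mem_filter, mem_PL hN] at hf
    rw [Finset.mem_coe, Finset.mem_filter]
    exact ⟨lst_mem_WL hN hf.1, hf.2⟩
  exact_mod_cast h

theorem take_len {l : List (ℤ × ℤ)} {k : ℕ} (h : k + 1 ≤ l.length) :
    k + 1 ≤ (l.take (k + 1)).length := by
  rw [List.length_take]
  omega

theorem typP_of {x : ℝ} {κ : ℕ → ℕ → ℝ} {ε : ℝ} {R : Finset (Sym2 (ℤ × ℤ))} {N m : ℕ}
    (hN : 1 ≤ N) {f : ZMod (2 * N) → ℤ × ℤ} (hf : IsL N f) (hε : 0 < ε)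
    (hm : 4 * (R.card : ℝ) ≤ ε * m)
    (h : ∀ i : ZMod (2 * N), TypG sqG x κ (ε / 2) R m (lst N (rt i f))) :
    TypP x κ ε R m f := by
  intro i k hk hkN
  apply arc_rt
  refine arc_zero hN hkN (rt_mem hf) ?_ ?_
  · refine hm.trans ?_
    apply mul_le_mul_of_nonneg_left _ hε.le
    exact_mod_cast (show m ≤ k + 1 by omega)
  · refine h i _ (List.take_prefix _ _).isInfix ?_
    rw [List.length_take, lst_length]
    omega

/-- **all arcs of almost all polygons** -/
theorem poly_pieces {K0 : ℕ} (hth : Thin sqG (kap K0)) (R : Finset (Sym2 (ℤ × ℤ))) {ε : ℝ}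
    (hε : 0 < ε) : ∃ c C : ℝ, 0 < c ∧ ∀ N : ℕ, 2 ≤ N → ∀ m : ℕ, C * Real.log N ^ 2 ≤ m →
      (((PL N).filter (fun f => ¬ TypP (1 / H981.mu) (kap K0) ε R m f)).card : ℝ) ≤
        Real.exp (-(c * m)) * (PL N).card := by
  obtain ⟨c, K, C, hc, hK, hC, n0, h⟩ := pieces_in lat2 hth (half_pos hε) R
  obtain ⟨K', hK', hlo⟩ := Pool.Agent.TH546.SG.PL_lower Pool.Agent.TH546.SG.PLo2
  have hl2 : 0 < Real.log 2 := Real.log_pos (by norm_num)
  obtain ⟨D, hD0, hD⟩ := small_exp (C := C) (K := 4 * K + K' + 2 / Real.log 2) (c := c / 2) (δ := 1)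
    (by linarith) (by positivity) (by positivity) one_pos
  refine ⟨c / 2, D + (n0 + 4 * R.card / ε) / Real.log 2 ^ 2, by positivity, fun N hN m hm => ?_⟩
  have hN1 : 1 ≤ N := by omega
  have hN' : (2 : ℝ) ≤ N := by exact_mod_cast hN
  have hmu := H981.one_le_mu
  have hmu0 := H981.mu_pos
  have hln : Real.log 2 ≤ Real.log N := Real.log_le_log (by norm_num) hN'
  have hln2 : Real.log 2 ^ 2 ≤ Real.log N ^ 2 := pow_le_pow_left₀ hl2.le hln 2
  have hE : (n0 : ℝ) + 4 * R.card / ε ≤ (n0 + 4 * R.card / ε) / Real.log 2 ^ 2 * Real.log N ^ 2 := by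
    rw [div_mul_eq_mul_div, le_div_iff₀ (by positivity)]
    gcongr
  have hm' : D * Real.log N ^ 2 + (n0 + 4 * R.card / ε) ≤ m := by
    rw [add_mul] at hm
    linarith
  have hm1 : D * Real.log N ^ 2 ≤ m := by
    have : 0 ≤ (n0 : ℝ) + 4 * R.card / ε := by positivity
    linarith
  have hD1 : 0 ≤ D * Real.log N ^ 2 := by positivity
  have hR0 : (0 : ℝ) ≤ 4 * R.card / ε := by positivity
  have hn00 : (0 : ℝ) ≤ n0 := Nat.cast_nonneg _
  have hm2 : n0 ≤ m := by
    have : (n0 : ℝ) ≤ m := by linarith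
    exact_mod_cast this
  have hm3 : 4 * (R.card : ℝ) ≤ ε * m := by
    have h1 : 4 * R.card / ε ≤ (m : ℝ) := by linarith
    rw [div_le_iff₀ hε] at h1
    linarith
  have : NeZero (2 * N) := ⟨by omega⟩
  obtain ⟨b, hb⟩ : ∃ b : ℝ, b = (((PL N).filter
    (fun f => ¬ TypG sqG (1 / H981.mu) (kap K0) (ε / 2) R m (lst N f))).card : ℝ) := ⟨_, rfl⟩
  have h1 : (((PL N).filter (fun f => ¬ TypP (1 / H981.mu) (kap K0) ε R m f)).card : ℝ) ≤
      2 * N * b := by
    have hsub : (PL N).filter (fun f => ¬ TypP (1 / H981.mu) (kap K0) ε R m f) ⊆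
        (Finset.univ : Finset (ZMod (2 * N))).biUnion (fun i => (PL N).filter
          (fun f => ¬ TypG sqG (1 / H981.mu) (kap K0) (ε / 2) R m (lst N (rt i f)))) := by
      intro f hf
      rw [Finset.mem_filter] at hf
      rw [Finset.mem_biUnion]
      by_contra hcon
      push Not at hcon
      refine hf.2 (typP_of hN1 ((mem_PL hN1).1 hf.1) hε hm3 fun i => ?_)
      have h2 := hcon i (Finset.mem_univ _)
      rw [Finset.mem_filter, not_and_not_right] at h2
      exact h2 hf.1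
    have h2 : (((PL N).filter (fun f => ¬ TypP (1 / H981.mu) (kap K0) ε R m f)).card : ℝ) ≤
        ∑ i : ZMod (2 * N), (((PL N).filter
          (fun f => ¬ TypG sqG (1 / H981.mu) (kap K0) (ε / 2) R m (lst N (rt i f)))).card : ℝ) := by
      exact_mod_cast (Finset.card_le_card hsub).trans Finset.card_biUnion_le
    refine h2.trans (le_of_eq ?_)
    have h3 : ∀ i ∈ (Finset.univ : Finset (ZMod (2 * N))), (((PL N).filter
          (fun f => ¬ TypG sqG (1 / H981.mu) (kap K0) (ε / 2) R m (lst N (rt i f)))).card : ℝ) = b := by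
      intro i _
      rw [hb]
      convert card_rt hN1 i (fun f => ¬ TypG sqG (1 / H981.mu) (kap K0) (ε / 2) R m (lst N f))
    rw [Finset.sum_congr rfl h3, Finset.sum_const, Finset.card_univ, ZMod.card, nsmul_eq_mul]
    push_cast
    ring
  have h4 : b ≤ C * Real.exp (K * Real.log ((2 * N - 1 : ℕ) + 2) ^ 2) * Real.exp (-(c * m)) *
      H981.mu ^ (2 * N - 1) := by
    have h5a : b ≤ (((WL sqG (2 * N - 1)).filter
        (fun l => ¬ TypG sqG (1 / H981.mu) (kap K0) (ε / 2) R m l)).card : ℝ) := by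
      rw [hb]
      convert bad_lst hN1 (fun l => ¬ TypG sqG (1 / H981.mu) (kap K0) (ε / 2) R m l)
    have h5 := h (2 * N - 1) m hm2 0
    have e0 : WV sqG 0 (2 * N - 1) = WL sqG (2 * N - 1) := rfl
    rw [e0] at h5
    exact h5a.trans h5
  have h6 := hlo N hN
  have h7 : H981.mu ^ (2 * N - 1) ≤ Real.exp (K' * Real.log N ^ 2) * (PL N).card := by
    have h8 := mul_le_mul_of_nonneg_left h6 (Real.exp_pos (K' * Real.log N ^ 2)).le
    refine le_trans (le_of_eq ?_) h8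
    rw [mul_left_comm, ← Real.exp_add, add_neg_cancel, Real.exp_zero, mul_one]
  have hL0 : 0 ≤ Real.log ((N : ℝ) + 2) := Real.log_nonneg (by linarith)
  have hlog : Real.log (((2 * N - 1 : ℕ) : ℝ) + 2) ^ 2 ≤ 4 * Real.log ((N : ℝ) + 2) ^ 2 := by
    have e1 : ((2 * N - 1 : ℕ) : ℝ) + 2 = 2 * N + 1 := by
      rw [Nat.cast_sub (by omega)]
      push_cast
      ring
    rw [e1]
    have h9 : Real.log (2 * (N : ℝ) + 1) ≤ Real.log (((N : ℝ) + 2) ^ 2) :=
      Real.log_le_log (by positivity) (by nlinarith)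
    rw [Real.log_pow] at h9
    have h10 : 0 ≤ Real.log (2 * (N : ℝ) + 1) := Real.log_nonneg (by linarith)
    have := pow_le_pow_left₀ h10 h9 2
    push_cast at this
    nlinarith
  have hlog' : Real.log (N : ℝ) ^ 2 ≤ Real.log ((N : ℝ) + 2) ^ 2 :=
    pow_le_pow_left₀ (by linarith) (Real.log_le_log (by linarith) (by linarith)) 2
  have hpoly : 2 * (N : ℝ) ≤ Real.exp (2 / Real.log 2 * Real.log ((N : ℝ) + 2) ^ 2) := by
    refine le_trans ?_ (poly_le N)
    nlinarith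
  have h11 := hD N hN m hm1
  have hcard : (0 : ℝ) ≤ (PL N).card := Nat.cast_nonneg _
  calc (((PL N).filter (fun f => ¬ TypP (1 / H981.mu) (kap K0) ε R m f)).card : ℝ) ≤ 2 * N * b := h1
    _ ≤ 2 * N * (C * Real.exp (K * Real.log ((2 * N - 1 : ℕ) + 2) ^ 2) * Real.exp (-(c * m)) *
      H981.mu ^ (2 * N - 1)) := by gcongr
    _ ≤ Real.exp (2 / Real.log 2 * Real.log ((N : ℝ) + 2) ^ 2) *
        (C * Real.exp (K * (4 * Real.log ((N : ℝ) + 2) ^ 2)) * Real.exp (-(c * m)) *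
        (Real.exp (K' * Real.log ((N : ℝ) + 2) ^ 2) * (PL N).card)) := by
        gcongr
        refine h7.trans ?_
        gcongr
    _ = (C * Real.exp ((4 * K + K' + 2 / Real.log 2) * Real.log ((N : ℝ) + 2) ^ 2) *
        Real.exp (-(c / 2 * m))) * (Real.exp (-(c / 2 * m)) * (PL N).card) := by
        have e2 : Real.exp (-(c * m)) = Real.exp (-(c / 2 * m)) * Real.exp (-(c / 2 * m)) := by
          rw [← Real.exp_add]
          congr 1
          ring
        have e3 : Real.exp ((4 * K + K' + 2 / Real.log 2) * Real.log ((N : ℝ) + 2) ^ 2) =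
            Real.exp (K * (4 * Real.log ((N : ℝ) + 2) ^ 2)) *
            Real.exp (K' * Real.log ((N : ℝ) + 2) ^ 2) *
            Real.exp (2 / Real.log 2 * Real.log ((N : ℝ) + 2) ^ 2) := by
          rw [← Real.exp_add, ← Real.exp_add]
          congr 1
          ring
        rw [e2, e3]
        ring
    _ ≤ 1 * (Real.exp (-(c / 2 * m)) * (PL N).card) := by
        gcongr
    _ = _ := one_mul _

/-- rerooting, jointly with an invariant property -/
theorem card_rtQ {N : ℕ} (hN : 1 ≤ N) {Q : (ZMod (2 * N) → ℤ × ℤ) → Prop}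
    (hQ : ∀ f, IsL N f → ∀ i, (Q (rt i f) ↔ Q f)) (i : ZMod (2 * N))
    (B : (ZMod (2 * N) → ℤ × ℤ) → Prop) :
    ((((PL N).filter Q).filter (fun f => B (rt i f))).card : ℝ) =
      (((PL N).filter Q).filter B).card := by
  have h := card_rt hN i (fun f => Q f ∧ B f)
  have e1 : (((PL N).filter Q).filter (fun f => B (rt i f))) =
      (PL N).filter (fun f => Q (rt i f) ∧ B (rt i f)) := by
    ext f
    rw [Finset.mem_filter, Finset.mem_filter, Finset.mem_filter]
    constructor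
    · rintro ⟨⟨h1, h2⟩, h3⟩
      exact ⟨h1, (hQ f ((mem_PL hN).1 h1) i).2 h2, h3⟩
    · rintro ⟨h1, h2, h3⟩
      exact ⟨⟨h1, (hQ f ((mem_PL hN).1 h1) i).1 h2⟩, h3⟩
  have e2 : (((PL N).filter Q).filter B) = (PL N).filter (fun f => Q f ∧ B f) := by
    ext f
    simp only [Finset.mem_filter, and_assoc]
  rw [e1, e2]
  convert h

/-- the law of the view from the root is the mean of the empirical ones -/
theorem mean_view {N : ℕ} (hN : 1 ≤ N) {Q : (ZMod (2 * N) → ℤ × ℤ) → Prop}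
    (hQ : ∀ f, IsL N f → ∀ i, (Q (rt i f) ↔ Q f)) (R S : Finset (Sym2 (ℤ × ℤ))) :
    ∑ f ∈ (PL N).filter Q, (((Finset.range (2 * N - 1 + 1)).filter
      (fun j : ℕ => pvw f (f ((0 : ZMod (2 * N)) + (j : ZMod (2 * N)))) ∈ Cyl R S)).card : ℝ) =
      (2 * N - 1 + 1 : ℕ) * (((PL N).filter Q).filter (fun f => pvw f 0 ∈ Cyl R S)).card := by
  have h1 : ∑ f ∈ (PL N).filter Q, (((Finset.range (2 * N - 1 + 1)).filter
      (fun j : ℕ => pvw f (f ((0 : ZMod (2 * N)) + (j : ZMod (2 * N)))) ∈ Cyl R S)).card : ℝ) =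
      ∑ j ∈ Finset.range (2 * N - 1 + 1), ((((PL N).filter Q).filter
        (fun f => pvw f (f ((0 : ZMod (2 * N)) + (j : ZMod (2 * N)))) ∈ Cyl R S)).card : ℝ) := by
    simp only [Finset.card_filter (fun j : ℕ => pvw _ _ ∈ Cyl R S) (Finset.range _),
      Finset.card_filter (fun f => pvw f _ ∈ Cyl R S) ((PL N).filter Q), Nat.cast_sum]
    exact Finset.sum_comm
  rw [h1]
  have h2 : ∀ j ∈ Finset.range (2 * N - 1 + 1), ((((PL N).filter Q).filter
        (fun f => pvw f (f ((0 : ZMod (2 * N)) + (j : ZMod (2 * N)))) ∈ Cyl R S)).card : ℝ) =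
      (((PL N).filter Q).filter (fun f => pvw f 0 ∈ Cyl R S)).card := by
    intro j _
    rw [← card_rtQ hN hQ (j : ZMod (2 * N)) (fun f => pvw f 0 ∈ Cyl R S)]
    congr 2
    apply Finset.filter_congr
    intro f _
    have e1 : rt (j : ZMod (2 * N)) f 0 = 0 := by
      unfold Pool.Agent.TH546.SAW.rt
      rw [add_zero, sub_self]
    have e2 : pvw (rt (j : ZMod (2 * N)) f) 0 = pvw f (f ((0 : ZMod (2 * N)) + (j : ZMod (2 * N)))) := by
      rw [zero_add]
      have := pvw_rt (f := f) (i := (j : ZMod (2 * N))) (j := 0)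
      rw [e1, add_zero] at this
      exact this
    rw [e2]
  rw [Finset.sum_congr rfl h2, Finset.sum_const, Finset.card_range, nsmul_eq_mul]

/-- **the law of the uniform polygon, given an invariant event** -/
theorem poly_law {K0 : ℕ} (hth : Thin sqG (kap K0)) (R : Finset (Sym2 (ℤ × ℤ))) {ε : ℝ}
    (hε : 0 < ε) : ∃ d : ℝ, 0 < d ∧ ∃ N0 : ℕ, 2 ≤ N0 ∧ ∀ N : ℕ, N0 ≤ N →
      ∀ Q : (ZMod (2 * N) → ℤ × ℤ) → Prop, (∀ f, IsL N f → ∀ i, (Q (rt i f) ↔ Q f)) →
      Real.exp (-(d * N)) * (PL N).card ≤ ((PL N).filter Q).card →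
      ∃ P : Measure (Cfg (ℤ × ℤ)), Inf sqG (1 / H981.mu) (kap K0) P ∧ ∀ S, S ⊆ R →
        |((((PL N).filter Q).filter (fun f => pvw f 0 ∈ Cyl R S)).card : ℝ) /
          ((PL N).filter Q).card - P.real (Cyl R S)| ≤ ε := by
  obtain ⟨c, C, hc, h⟩ := poly_pieces hth R (half_pos hε)
  obtain ⟨δ, hδ⟩ : ∃ δ : ℝ, δ = min (ε / 4) (1 / 2) := ⟨_, rfl⟩
  have hδ0 : 0 < δ := by rw [hδ]; exact lt_min (by positivity) (by norm_num)
  have hδ1 : δ ≤ ε / 4 := by rw [hδ]; exact min_le_left _ _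
  have hδ2 : δ ≤ 1 / 2 := by rw [hδ]; exact min_le_right _ _
  have hev1 : ∀ᶠ N : ℕ in atTop, C * Real.log N ^ 2 ≤ ((2 * N - 1 : ℕ) : ℝ) := by
    have h1 : Tendsto (fun x : ℝ => Real.log x ^ 2 / x) atTop (𝓝 0) := by
      have := Real.tendsto_pow_log_div_mul_add_atTop 1 0 2 one_ne_zero
      simpa using this
    have h2 := (h1.comp tendsto_natCast_atTop_atTop).eventually
      (gt_mem_nhds (show (0 : ℝ) < 1 / (|C| + 1) by positivity))
    filter_upwards [h2, eventually_ge_atTop 1] with N hN hN1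
    have hN1' : (1 : ℝ) ≤ N := by exact_mod_cast hN1
    have hC0 : 0 ≤ |C| := abs_nonneg C
    have h3 : Real.log (N : ℝ) ^ 2 / N < 1 / (|C| + 1) := hN
    rw [div_lt_div_iff₀ (by linarith) (by linarith)] at h3
    have e1 : ((2 * N - 1 : ℕ) : ℝ) = 2 * N - 1 := by
      rw [Nat.cast_sub (by omega)]
      push_cast
      ring
    rw [e1]
    have h4 : C * Real.log (N : ℝ) ^ 2 ≤ |C| * Real.log (N : ℝ) ^ 2 :=
      mul_le_mul_of_nonneg_right (le_abs_self C) (by positivity)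
    nlinarith [sq_nonneg (Real.log (N : ℝ))]
  have hev2 : ∀ᶠ N : ℕ in atTop, Real.exp (-(c / 2 * (N : ℝ))) ≤ δ := by
    have h1 : Tendsto (fun N : ℕ => Real.exp (-(c / 2 * (N : ℝ)))) atTop (𝓝 0) := by
      apply Real.tendsto_exp_atBot.comp
      apply tendsto_neg_atTop_atBot.comp
      exact tendsto_natCast_atTop_atTop.const_mul_atTop (half_pos hc)
    filter_upwards [h1.eventually (gt_mem_nhds hδ0)] with N hN
    exact le_of_lt hN
  obtain ⟨N1, hN1⟩ := (hev1.and hev2).exists_forall_of_atTop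
  refine ⟨c / 2, half_pos hc, max N1 2, le_max_right _ _, fun N hN Q hQ hQ1 => ?_⟩
  have hN2 : 2 ≤ N := le_trans (le_max_right _ _) hN
  have hN1' : 1 ≤ N := by omega
  obtain ⟨h1, h2⟩ := hN1 N (le_trans (le_max_left _ _) hN)
  have h3 := h N hN2 (2 * N - 1) h1
  obtain ⟨s0, hs0⟩ : ∃ s0, s0 = (PL N).filter Q := ⟨_, rfl⟩
  obtain ⟨Gd, hGd⟩ : ∃ Gd, Gd = s0.filter
    (fun f => TypP (1 / H981.mu) (kap K0) (ε / 2) R (2 * N - 1) f) := ⟨_, rfl⟩
  obtain ⟨n, hn⟩ : ∃ n : ℝ, n = s0.card := ⟨_, rfl⟩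
  obtain ⟨g, hg⟩ : ∃ g : ℝ, g = (Gd.card : ℝ) := ⟨_, rfl⟩
  have hPL0 : (0 : ℝ) < (PL N).card := by
    exact_mod_cast (Pool.Agent.TH546.SAW.PL_nonempty hN2).card_pos
  have hn0 : 0 < n := by
    rw [hn, hs0]
    refine lt_of_lt_of_le ?_ hQ1
    positivity
  have hsplit : g + ((s0.filter
      (fun f => ¬ TypP (1 / H981.mu) (kap K0) (ε / 2) R (2 * N - 1) f)).card : ℝ) = n := by
    rw [hg, hGd, hn]
    exact_mod_cast Finset.card_filter_add_card_filter_not (s := s0)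
      (fun f => TypP (1 / H981.mu) (kap K0) (ε / 2) R (2 * N - 1) f)
  have hb : n - g ≤ δ * n := by
    have k1 : ((s0.filter
        (fun f => ¬ TypP (1 / H981.mu) (kap K0) (ε / 2) R (2 * N - 1) f)).card : ℝ) ≤
        ((PL N).filter
        (fun f => ¬ TypP (1 / H981.mu) (kap K0) (ε / 2) R (2 * N - 1) f)).card := by
      rw [hs0]
      exact_mod_cast Finset.card_le_card (Finset.filter_subset_filter _ (Finset.filter_subset _ _))
    have k2 : Real.exp (-(c * ((2 * N - 1 : ℕ) : ℝ))) ≤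
        Real.exp (-(c / 2 * N)) * Real.exp (-(c / 2 * N)) := by
      rw [← Real.exp_add, Real.exp_le_exp]
      have e1 : (N : ℝ) ≤ ((2 * N - 1 : ℕ) : ℝ) := by exact_mod_cast (show N ≤ 2 * N - 1 by omega)
      nlinarith
    have k3 : Real.exp (-(c * ((2 * N - 1 : ℕ) : ℝ))) * (PL N).card ≤ δ * n := by
      rw [hn, hs0]
      calc Real.exp (-(c * ((2 * N - 1 : ℕ) : ℝ))) * (PL N).card ≤
            (Real.exp (-(c / 2 * N)) * Real.exp (-(c / 2 * N))) * (PL N).card := by gcongr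
        _ = Real.exp (-(c / 2 * N)) * (Real.exp (-(c / 2 * N)) * (PL N).card) := by ring
        _ ≤ δ * ((PL N).filter Q).card := by gcongr
    linarith
  have hb0 : 0 ≤ n - g := by
    have : (0 : ℝ) ≤ ((s0.filter
      (fun f => ¬ TypP (1 / H981.mu) (kap K0) (ε / 2) R (2 * N - 1) f)).card : ℝ) :=
      Nat.cast_nonneg _
    linarith
  have hg0 : 0 < g := by nlinarith
  have hGn : Gd.Nonempty := by
    rw [← Finset.card_pos]
    rw [hg] at hg0
    exact_mod_cast hg0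
  have hex : ∀ f : ZMod (2 * N) → ℤ × ℤ, ∃ P : Measure (Cfg (ℤ × ℤ)), f ∈ Gd →
      (Inf sqG (1 / H981.mu) (kap K0) P ∧ ∀ S, S ⊆ R →
      |(((Finset.range (2 * N - 1 + 1)).filter
        (fun j : ℕ => pvw f (f ((0 : ZMod (2 * N)) + (j : ZMod (2 * N)))) ∈ Cyl R S)).card : ℝ) /
          (2 * N - 1 + 1 : ℕ) - P.real (Cyl R S)| ≤ ε / 2) := by
    intro f
    by_cases hf : f ∈ Gd
    · rw [hGd, Finset.mem_filter] at hf
      obtain ⟨P, hP⟩ := hf.2 0 (2 * N - 1) le_rfl (by omega)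
      exact ⟨P, fun _ => hP⟩
    · exact ⟨0, fun h => absurd h hf⟩
  choose P hP using hex
  refine ⟨avm Gd P, avm_inf hGn fun f hf => (hP f hf).1, fun S hS => ?_⟩
  have hprob : ∀ f ∈ Gd, IsProbabilityMeasure (P f) := fun f hf => (hP f hf).1.prob
  have hmv := mean_view hN1' hQ R S
  rw [← hs0] at hmv
  rw [avm_real hprob, ← hs0, ← hn, ← hg]
  obtain ⟨M, hM⟩ : ∃ M : ℝ, M = ((2 * N - 1 + 1 : ℕ) : ℝ) := ⟨_, rfl⟩
  have hM0 : 0 < M := by rw [hM]; positivity
  obtain ⟨a, ha⟩ : ∃ a : (ZMod (2 * N) → ℤ × ℤ) → ℝ, a = fun f =>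
      (((Finset.range (2 * N - 1 + 1)).filter
        (fun j : ℕ => pvw f (f ((0 : ZMod (2 * N)) + (j : ZMod (2 * N)))) ∈ Cyl R S)).card : ℝ) / M :=
    ⟨_, rfl⟩
  have ha0 : ∀ f, 0 ≤ a f := by
    intro f
    rw [ha]
    positivity
  have ha1 : ∀ f, a f ≤ 1 := by
    intro f
    rw [ha]
    show _ / M ≤ 1
    rw [div_le_one hM0, hM]
    have : ((Finset.range (2 * N - 1 + 1)).filter
        (fun j : ℕ => pvw f (f ((0 : ZMod (2 * N)) + (j : ZMod (2 * N)))) ∈ Cyl R S)).card ≤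
        2 * N - 1 + 1 := (Finset.card_filter_le _ _).trans (by rw [Finset.card_range])
    exact_mod_cast this
  have hcnt : ((s0.filter (fun f => pvw f 0 ∈ Cyl R S)).card : ℝ) = ∑ f ∈ s0, a f := by
    rw [ha]
    simp only
    rw [← Finset.sum_div, hmv, ← hM]
    field_simp
  rw [hcnt]
  obtain ⟨p, hp⟩ : ∃ p : ℝ, p = ∑ f ∈ Gd, (P f).real (Cyl R S) := ⟨_, rfl⟩
  rw [← hp]
  have hp0 : 0 ≤ p := by
    rw [hp]
    exact Finset.sum_nonneg fun f _ => measureReal_nonneg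
  have hp1 : p ≤ g := by
    rw [hp, hg]
    calc ∑ f ∈ Gd, (P f).real (Cyl R S) ≤ ∑ _f ∈ Gd, (1 : ℝ) :=
          Finset.sum_le_sum fun f hf => by
            have := hprob f hf
            exact measureReal_le_one
      _ = _ := by simp
  have hag : |∑ f ∈ Gd, a f - p| ≤ ε / 2 * g := by
    rw [hp, ← Finset.sum_sub_distrib]
    refine (Finset.abs_sum_le_sum_abs _ _).trans ?_
    calc ∑ f ∈ Gd, |a f - (P f).real (Cyl R S)| ≤ ∑ _f ∈ Gd, ε / 2 :=
          Finset.sum_le_sum fun f hf => by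
            have := (hP f hf).2 S hS
            rw [← hM] at this
            rw [ha]
            exact this
      _ = _ := by rw [Finset.sum_const, nsmul_eq_mul, hg, mul_comm]
  have hrest : ∑ f ∈ s0, a f = ∑ f ∈ Gd, a f + ∑ f ∈ s0.filter
      (fun f => ¬ TypP (1 / H981.mu) (kap K0) (ε / 2) R (2 * N - 1) f), a f := by
    rw [hGd]
    exact (Finset.sum_filter_add_sum_filter_not _ _ _).symm
  obtain ⟨r, hr⟩ : ∃ r : ℝ, r = ∑ f ∈ s0.filter
      (fun f => ¬ TypP (1 / H981.mu) (kap K0) (ε / 2) R (2 * N - 1) f), a f := ⟨_, rfl⟩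
  rw [← hr] at hrest
  have hr0 : 0 ≤ r := by
    rw [hr]
    exact Finset.sum_nonneg fun f _ => ha0 f
  have hr1 : r ≤ n - g := by
    rw [hr]
    calc _ ≤ ∑ _f ∈ s0.filter
          (fun f => ¬ TypP (1 / H981.mu) (kap K0) (ε / 2) R (2 * N - 1) f), (1 : ℝ) :=
          Finset.sum_le_sum fun f _ => ha1 f
      _ = ((s0.filter
          (fun f => ¬ TypP (1 / H981.mu) (kap K0) (ε / 2) R (2 * N - 1) f)).card : ℝ) := by simp
      _ ≤ _ := by linarith
  rw [hrest]
  obtain ⟨s, hs⟩ : ∃ s : ℝ, s = ∑ f ∈ Gd, a f := ⟨_, rfl⟩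
  rw [← hs] at hag ⊢
  have hpg : 0 ≤ p / g ∧ p / g ≤ 1 := ⟨by positivity, by rw [div_le_one hg0]; exact hp1⟩
  have e1 : p = p / g * g := by field_simp
  have hfin : |s + r - n * (p / g)| ≤ ε * n := by
    have h5 : |s + r - n * (p / g)| ≤ |s - p| + (n - g) := by
      have e2 : s + r - n * (p / g) = (s - p) + (r - (n - g) * (p / g)) := by
        rw [e1]
        have : p / g * g / g = p / g := by field_simp
        rw [this]
        ring
      rw [e2]
      refine (abs_add_le _ _).trans ?_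
      have h6 : |r - (n - g) * (p / g)| ≤ n - g := by
        have h7 : (n - g) * (p / g) ≤ (n - g) * 1 := mul_le_mul_of_nonneg_left hpg.2 hb0
        have h8 : 0 ≤ (n - g) * (p / g) := mul_nonneg hb0 hpg.1
        rw [abs_le]
        constructor <;> linarith
      linarith
    have h9 : ε / 2 * g ≤ ε / 2 * n := by
      apply mul_le_mul_of_nonneg_left _ (by positivity)
      linarith
    have h10 : δ * n ≤ ε / 4 * n := mul_le_mul_of_nonneg_right hδ1 hn0.le
    have h11 : 0 ≤ ε / 4 * n := by positivity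
    linarith
  have e3 : (s + r) / n - p / g = (s + r - n * (p / g)) / n := by field_simp
  rw [e3, abs_div, abs_of_pos hn0, div_le_iff₀ hn0]
  exact hfin

end

end U443.GL
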