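import Pool.Agent.U443.GL.Z2

/-!
# Closed loops on the square lattice seen from their vertices
-/

set_option autoImplicit false

namespace U443.GL

open Finset MeasureTheory U443.LG U443.OS
open scoped Classical

noncomputable section

/-- the edges of the loop -/
def pe {N : ℕ} (f : ZMod (2 * N) → ℤ × ℤ) : Set (Sym2 (ℤ × ℤ)) := {e | ∃ i, e = s(f i, f (i + 1))}

/-- the loop seen from `x` -/
def pvw {N : ℕ} (f : ZMod (2 * N) → ℤ × ℤ) (x : ℤ × ℤ) : Cfg (ℤ × ℤ) :=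
  fun e => decide (Sym2.map (x + ·) e ∈ pe f)

/-- seen from a uniform vertex of its arc with `k` steps which starts at `f i`, the polygon `f` is
close to a critical two-sided infinite walk -/
def ArcClose (x : ℝ) (κ : ℕ → ℕ → ℝ) (ε : ℝ) (R : Finset (Sym2 (ℤ × ℤ))) {N : ℕ}
    (f : ZMod (2 * N) → ℤ × ℤ) (i : ZMod (2 * N)) (k : ℕ) : Prop :=
  ∃ P : Measure (Cfg (ℤ × ℤ)), Inf sqG x κ P ∧ ∀ S, S ⊆ R →
    |(((Finset.range (k + 1)).filter
      (fun j : ℕ => pvw f (f (i + (j : ZMod (2 * N)))) ∈ Cyl R S)).card : ℝ) / (k + 1 : ℕ) -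
      P.real (Cyl R S)| ≤ ε

/-- all arcs with at least `m` steps are typical -/
def TypP (x : ℝ) (κ : ℕ → ℕ → ℝ) (ε : ℝ) (R : Finset (Sym2 (ℤ × ℤ))) {N : ℕ} (m : ℕ)
    (f : ZMod (2 * N) → ℤ × ℤ) : Prop :=
  ∀ (i : ZMod (2 * N)) (k : ℕ), m ≤ k → k + 1 ≤ 2 * N → ArcClose x κ ε R f i k

end

end U443.GL
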