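import Pool.Agent.U443.GL.Z2
import Pool.Agent.U443.GL.Cvx

/-!
# The square lattice with the translations that preserve the parity
-/

set_option autoImplicit false

namespace U443.GL

open Finset MeasureTheory Filter Topology U443.LG U443.OS
open scoped Classical ENNReal
open Pool.Agent.U372.HX (cl)

noncomputable section

/-- the square lattice; the translations are the vectors with even sum of the coordinates -/
def sqE : Geo (ℤ × ℤ) where
  Adj := Adj2
  T := evenPts
  symm := sqG.symm
  irr := sqG.irr
  shift := fun g _ => sqG.shift g trivial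
  nb := nb2
  mem_nb := mem_nb2
  half := by
    intro a b h
    show (a.1 + a.2) % 2 = 0 ∨ (b.1 + b.2) % 2 = 0
    have h1 : |b.1 - a.1| + |b.2 - a.2| = 1 := h
    have h2 := abs_nonneg (b.1 - a.1)
    have h3 := abs_nonneg (b.2 - a.2)
    rcases abs_cases (b.1 - a.1) with h4 | h4 <;> rcases abs_cases (b.2 - a.2) with h5 | h5 <;>
      omega

theorem mem_T {v : ℤ × ℤ} : v ∈ sqE.T ↔ (v.1 + v.2) % 2 = 0 := Iff.rfl

theorem WVE (v : ℤ × ℤ) (n : ℕ) : WV sqE v n = WV sqG v n := by
  ext l
  rw [mem_WV, mem_WV]
  exact Iff.rfl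

theorem WLE (n : ℕ) : WL sqE n = WL sqG n := by
  ext l
  rw [mem_WL, mem_WL]
  exact Iff.rfl

theorem latE : Lat sqE H981.mu 1000000000 where
  one := lat2.one
  low := fun n => by rw [WLE]; exact lat2.low n
  up := by
    obtain ⟨K, hK, h⟩ := lat2.up
    exact ⟨K, hK, fun n hn => by rw [WLE]; exact h n hn⟩
  pos := lat2.pos
  deg := lat2.deg
  all := fun v n => by rw [WLE, WVE]; exact WV_le2 v n
  loc := lat2.loc
  block := fun s M k r hs => by rw [WLE]; exact block2 s M k r hs

end

end U443.GL
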