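import Pool.Agent.U443.GL.NearP

/-!
# Exceptional walks
-/

set_option autoImplicit false

namespace U443.GL

open Finset MeasureTheory Filter Topology U443.LG U443.OS
open scoped Classical ENNReal

noncomputable section

variable {G : Geo (ℤ × ℤ)} {μ : ℝ} {B : ℕ}

theorem growth (hG : Lat G μ B) : Growth G μ where
  one := hG.one
  low := hG.low
  up := by
    intro δ hδ
    obtain ⟨K, hK0, hK⟩ := hG.up
    refine ⟨Real.exp (64 * K ^ 2 / δ) + (WL G 0).card + (WL G 1).card, fun n => ?_⟩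
    have hmu := hG.one
    have hmu0 : 0 < μ := lt_of_lt_of_le one_pos hmu
    have hW0 : (0 : ℝ) ≤ (WL G 0).card := Nat.cast_nonneg _
    have hW1 : (0 : ℝ) ≤ (WL G 1).card := Nat.cast_nonneg _
    have hm : (1 : ℝ) ≤ μ ^ n := one_le_pow₀ hmu
    have he : (1 : ℝ) ≤ Real.exp (δ * n) := Real.one_le_exp (by positivity)
    have hE : 0 < Real.exp (64 * K ^ 2 / δ) := Real.exp_pos _
    rcases Nat.lt_or_ge n 2 with h | h
    · have h1 : ((WL G n).card : ℝ) ≤ Real.exp (64 * K ^ 2 / δ) + (WL G 0).card +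
          (WL G 1).card := by
        interval_cases n
        · linarith
        · linarith
      calc ((WL G n).card : ℝ) ≤ (Real.exp (64 * K ^ 2 / δ) + (WL G 0).card +
          (WL G 1).card) * 1 * 1 := by linarith
        _ ≤ _ := by gcongr
    · have h1 := log_sq_le hK0 hδ n (by omega)
      calc ((WL G n).card : ℝ) ≤ μ ^ n * Real.exp (K * (Real.log n) ^ 2) := hK n h
        _ ≤ μ ^ n * Real.exp (δ * n + 64 * K ^ 2 / δ) := by gcongr
        _ = Real.exp (64 * K ^ 2 / δ) * Real.exp (δ * n) * μ ^ n := by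
            rw [Real.exp_add]; ring
        _ ≤ _ := by
            gcongr
            linarith

theorem thin (hG : Lat G μ B) : ∃ K : ℕ, 1 ≤ K ∧ Thin G (kap K) := by
  obtain ⟨K, hK1, hK⟩ := near_pairs hG
  refine ⟨6 * K, by omega, kap_tendsto _, fun d m hm => ?_⟩
  obtain ⟨c, hc, h1⟩ := hK d m hm
  refine ⟨c, hc, ?_⟩
  filter_upwards [h1] with n h2
  refine le_trans (Nat.cast_le.2 (Finset.card_le_card ?_)) h2
  intro l hl
  rw [Finset.mem_filter] at hl ⊢
  refine ⟨hl.1, ?_⟩
  have h3 := hl.2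
  have h4 := ((mem_WL _).1 hl.1).2
  rw [h4] at h3
  unfold kap at h3
  have hm0 : (0 : ℝ) < m := by
    have : 0 < m := by omega
    exact_mod_cast this
  obtain ⟨Y, hY⟩ : ∃ Y : ℝ, Y = (K : ℝ) ^ (d + 1) * Real.log m ^ 2 / m := ⟨_, rfl⟩
  have hY0 : 0 ≤ Y := by rw [hY]; positivity
  have e1 : (K : ℝ) ^ (d + 1) * Real.log m ^ 2 * n / m = Y * n := by rw [hY]; ring
  have e2 : ((6 * K : ℕ) : ℝ) ^ (d + 1) * Real.log m ^ 2 / m = 6 ^ (d + 1) * Y := by
    rw [hY]
    push_cast
    rw [mul_pow]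
    ring
  rw [e2] at h3
  rw [e1]
  have h6 : (6 : ℝ) ≤ 6 ^ (d + 1) := le_self_pow₀ (by norm_num) (by omega)
  have hn0 : (0 : ℝ) ≤ n := Nat.cast_nonneg _
  push_cast at h3
  have h7 : 6 * (Y * n) ≤ 6 ^ (d + 1) * Y * (n + 1) := by
    have h8 : 6 * (Y * n) ≤ 6 ^ (d + 1) * (Y * n) :=
      mul_le_mul_of_nonneg_right h6 (mul_nonneg hY0 hn0)
    have h9 : 0 ≤ 6 ^ (d + 1) * Y := by positivity
    nlinarith
  linarith

/-- exceptional walks from any point -/
theorem bad_all (hG : Lat G μ B) {K : ℕ} (hth : Thin G (kap K)) {ε : ℝ} (hε : 0 < ε)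
    (R : Finset (Sym2 (ℤ × ℤ))) : ∃ c : ℝ, 0 < c ∧ ∃ n0 : ℕ, ∀ n : ℕ, n0 ≤ n → ∀ v : ℤ × ℤ,
      (((WV G v n).filter (fun l => ¬ Close G (1 / μ) (kap K) ε R l)).card : ℝ) ≤
        Real.exp (-(c * n)) * μ ^ n := by
  obtain ⟨c, hc, h1⟩ := quenched_inf G (growth hG) hth (half_pos hε) R
  obtain ⟨H, hH⟩ := (growth hG).up (c / 4) (by positivity)
  have hmu := hG.one
  have hB1 : (1 : ℝ) ≤ B := by exact_mod_cast hG.pos
  have hH0 : 0 < H := by
    have h1 := hH 0
    have h2 := (growth hG).low 0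
    simp only [pow_zero, Nat.cast_zero, mul_zero, Real.exp_zero, mul_one] at h1 h2
    linarith
  have hX : 0 < B * H * Real.exp (3 / 4 * c) := by positivity
  have hlim : Tendsto (fun n : ℕ => (c / 4) * (n : ℝ)) atTop atTop :=
    tendsto_natCast_atTop_atTop.const_mul_atTop (by positivity)
  have hlim2 : Tendsto (fun n : ℕ => ε * (n : ℝ)) atTop atTop :=
    tendsto_natCast_atTop_atTop.const_mul_atTop hε
  obtain ⟨n1, hn1⟩ := eventually_atTop.1 (h1.and ((hlim.eventually_ge_atTop
    (Real.log (B * H * Real.exp (3 / 4 * c)))).and (hlim2.eventually_ge_atTop (8 * (R.card : ℝ)))))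
  refine ⟨c / 2, by positivity, n1 + 1, fun n hn v => ?_⟩
  have key : ∀ k : ℕ, n1 ≤ k →
      (((WL G k).filter (fun l => ¬ Close G (1 / μ) (kap K) (ε / 2) R l)).card : ℝ) ≤
        H * Real.exp (-(3 / 4 * c * k)) * μ ^ k := by
    intro k hk
    refine ((hn1 k hk).1).trans ?_
    calc Real.exp (-(c * k)) * ((WL G k).card : ℝ) ≤
          Real.exp (-(c * k)) * (H * Real.exp (c / 4 * k) * μ ^ k) := by
          gcongr
          exact hH k
      _ = H * (Real.exp (-(c * k)) * Real.exp (c / 4 * k)) * μ ^ k := by ring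
      _ = _ := by
          rw [← Real.exp_add]
          congr 3
          ring
  have hfin : B * H * Real.exp (3 / 4 * c) * Real.exp (-(3 / 4 * c * n)) ≤
      Real.exp (-(c / 2 * n)) := by
    rw [← Real.exp_log hX, ← Real.exp_add, Real.exp_le_exp]
    have := (hn1 n (by omega)).2.1
    linarith
  have hmun : 0 < μ ^ n := by positivity
  by_cases hv : v ∈ G.T
  · have h2 : ((WV G v n).filter (fun l => ¬ Close G (1 / μ) (kap K) ε R l)).card ≤
        ((WL G n).filter (fun l => ¬ Close G (1 / μ) (kap K) (ε / 2) R l)).card := by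
      refine (bad_T G hv n).trans (Finset.card_le_card ?_)
      intro l hl
      rw [Finset.mem_filter] at hl ⊢
      exact ⟨hl.1, fun h => hl.2 (close_mono G (by linarith) h)⟩
    have h3 := (Nat.cast_le (α := ℝ)).2 h2
    refine (h3.trans (key n (by omega))).trans ?_
    apply mul_le_mul_of_nonneg_right _ hmun.le
    refine le_trans ?_ hfin
    have h4 : (1 : ℝ) ≤ Real.exp (3 / 4 * c) := Real.one_le_exp (by positivity)
    have h5 : 0 < Real.exp (-(3 / 4 * c * n)) := Real.exp_pos _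
    apply mul_le_mul_of_nonneg_right _ h5.le
    calc H = 1 * H * 1 := by ring
      _ ≤ B * H * Real.exp (3 / 4 * c) := by gcongr
  · obtain ⟨k, rfl⟩ : ∃ k, n = k + 1 := ⟨n - 1, by omega⟩
    have h2 := bad_notT G (x := 1 / μ) (κ := kap K) (ε := ε) (R := R) hv
      ((hn1 k (by omega)).2.2) hε
    have h3 : (G.nb v).card ≤ B := hG.deg v
    have h4 : ((WV G v (k + 1)).filter (fun l => ¬ Close G (1 / μ) (kap K) ε R l)).card ≤
        B * ((WL G k).filter (fun l => ¬ Close G (1 / μ) (kap K) (ε / 2) R l)).card :=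
      h2.trans (Nat.mul_le_mul_right _ h3)
    have h5 := (Nat.cast_le (α := ℝ)).2 h4
    rw [Nat.cast_mul] at h5
    refine h5.trans ?_
    calc ((B : ℕ) : ℝ) * (((WL G k).filter (fun l => ¬ Close G (1 / μ) (kap K) (ε / 2) R l)).card : ℝ)
        ≤ B * (H * Real.exp (-(3 / 4 * c * k)) * μ ^ k) := by
          push_cast
          gcongr
          exact key k (by omega)
      _ ≤ B * (H * Real.exp (-(3 / 4 * c * k)) * μ ^ (k + 1)) := by
          gcongr
          omega
      _ = B * H * Real.exp (3 / 4 * c) * Real.exp (-(3 / 4 * c * ((k + 1 : ℕ) : ℝ))) *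
          μ ^ (k + 1) := by
          have e1 : Real.exp (-(3 / 4 * c * k)) =
              Real.exp (3 / 4 * c) * Real.exp (-(3 / 4 * c * ((k + 1 : ℕ) : ℝ))) := by
            rw [← Real.exp_add]
            congr 1
            push_cast
            ring
          rw [e1]
          ring
      _ ≤ _ := mul_le_mul_of_nonneg_right hfin hmun.le


end

end U443.GL
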